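import Pool.Agent.Helper11.MRU.Defect
import Pool.Agent.Helper11.MRA.Seq
import Pool.Agent.Helper11.MRA.Cheb

/-!
# MRU Bad: the bad scales have bounded total weight

For `X ≥ X0` and every `c`, the sum of `1/log P_i` over the scales `P_i = seqP K P0 i`, `i < I`,
with `QA X P_i c > ε X` is at most a constant `C(ε)` which does not depend on `I`.
-/

set_option autoImplicit false

namespace MRU

open Finset MRP
open MRA (word res bo g1 g2 fp MP seqP cheb seqP_ge seqP_div)

theorem bad (ε : ℝ) (hε : 0 < ε) : ∃ K C : ℝ, 0 < K ∧ 0 < C ∧ ∃ Pstar : ℕ, 3 ≤ Pstar ∧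
    ∀ P0 : ℕ, Pstar ≤ P0 → ∀ I : ℕ, ∃ X0 : ℕ, ∀ X : ℕ, X0 ≤ X → ∀ c : ℕ → Bool × Bool,
      ∑ i ∈ range I, (if ε * X < QA X (seqP K P0 i) c then 1 / Real.log (seqP K P0 i) else 0) ≤
        C := by
  classical
  obtain ⟨c0, hc0, Pstar, hP3, hcheb⟩ := cheb
  set κ : ℝ := ε ^ 2 * c0 / 96 with hκ
  have hκ0 : 0 < κ := by positivity
  have hlog4 : 0 < Real.log 4 := Real.log_pos (by norm_num)
  set K : ℝ := Real.log 4 / κ with hK
  have hK0 : 0 < K := by positivity
  refine ⟨K, (Real.log 4 + 1) / κ, hK0, by positivity, Pstar, hP3, fun P0 hP0 I => ?_⟩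
  set Q : ℕ → ℕ := seqP K P0 with hQ
  have hQge : ∀ i, Pstar ≤ Q i := fun i => hP0.trans (seqP_ge K P0 i)
  have hQ1 : ∀ i, 1 ≤ Q i := fun i => le_trans (by omega) (hQge i)
  have hL : ∀ i, 0 < Real.log (Q i) := by
    intro i
    apply Real.log_pos
    have : 3 ≤ Q i := hP3.trans (hQge i)
    have h2 : (3 : ℝ) ≤ (Q i : ℝ) := by exact_mod_cast this
    linarith
  set k : ℕ → ℕ := fun i => ⌈K * Real.log (Q i)⌉₊ + 2 with hk
  have hk1 : ∀ i, 1 ≤ k i := fun i => by simp only [hk]; omega
  have hstep : ∀ i, Q (i + 1) = k i * Q i := fun i => rfl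
  set η : ℝ := 1 / ((I : ℝ) + 1) with hη
  have hη0 : 0 < η := by positivity
  choose F1 hF1 using fun i => scale ε hε (Q i) (k i) (hQ1 i) (hk1 i) η hη0
  choose F0 hF0 using fun i => scale0 (Q i) (k i) (hQ1 i) (hk1 i) η hη0
  refine ⟨max 1 (max ((range I).sup F1) ((range I).sup F0)), fun X hX c => ?_⟩
  have hX1 : 1 ≤ X := le_trans (le_max_left _ _) hX
  have hXs1 : (range I).sup F1 ≤ X :=
    le_trans (le_trans (le_max_left _ _) (le_max_right _ _)) hX
  have hXs0 : (range I).sup F0 ≤ X :=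
    le_trans (le_trans (le_max_right _ _) (le_max_right _ _)) hX
  set h : ℕ → ℝ := fun i => ent X (word c (3 * Q i)) / (3 * (Q i : ℕ) : ℝ) with hh
  set w : ℕ → ℝ := fun i => if ε * X < QA X (Q i) c then 1 / Real.log (Q i) else 0 with hw
  have hdec : ∀ i < I, h (i + 1) ≤ h i - κ * w i + η := by
    intro i hi
    have hi1 : F1 i ≤ X := le_trans (Finset.le_sup (Finset.mem_range.2 hi)) hXs1
    have hi0 : F0 i ≤ X := le_trans (Finset.le_sup (Finset.mem_range.2 hi)) hXs0
    by_cases hb : ε * X < QA X (Q i) c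
    · have a := hF1 i X hi1 c hb
      have hw1 : w i = 1 / Real.log (Q i) := by simp only [hw]; rw [if_pos hb]
      have b := hcheb (Q i) (hQge i)
      have hQpos : (0 : ℝ) < Q i := by exact_mod_cast (hQ1 i)
      have hLi := hL i
      have h1 : c0 / Real.log (Q i) ≤ ((dyP (Q i)).card : ℝ) / Q i := by
        rw [le_div_iff₀ hQpos]
        calc c0 / Real.log (Q i) * (Q i) = c0 * (Q i) / Real.log (Q i) := by ring
          _ ≤ _ := b
      have h2 : Real.log 4 / k i ≤ κ * (1 / Real.log (Q i)) := by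
        have hkpos : (0 : ℝ) < k i := by exact_mod_cast (hk1 i)
        rw [div_le_iff₀ hkpos]
        have h3 : K * Real.log (Q i) ≤ k i := by
          refine (Nat.le_ceil _).trans ?_
          exact_mod_cast (by simp only [hk]; omega : ⌈K * Real.log (Q i)⌉₊ ≤ k i)
        have h4 : κ * (1 / Real.log (Q i)) * (K * Real.log (Q i)) = Real.log 4 := by
          rw [hK]
          field_simp
        have h5 : κ * (1 / Real.log (Q i)) * (K * Real.log (Q i)) ≤
            κ * (1 / Real.log (Q i)) * k i :=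
          mul_le_mul_of_nonneg_left h3 (by positivity)
        linarith
      have h6 : ε ^ 2 / 48 * (c0 / Real.log (Q i)) = 2 * κ * (1 / Real.log (Q i)) := by
        rw [hκ]; field_simp; ring
      have h7 : ε ^ 2 / 48 * (c0 / Real.log (Q i)) ≤
          ε ^ 2 / 48 * (((dyP (Q i)).card : ℝ) / Q i) :=
        mul_le_mul_of_nonneg_left h1 (by positivity)
      have hs : h (i + 1) = ent X (word c (3 * (k i * Q i))) / (3 * (k i * Q i : ℕ) : ℝ) := by
        simp only [hh]
        rw [hstep i]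
      rw [hs, hw1]
      have hi' : h i = ent X (word c (3 * Q i)) / (3 * (Q i : ℕ) : ℝ) := rfl
      rw [hi']
      linarith
    · have a := hF0 i X hi0 c
      have hw1 : w i = 0 := by simp only [hw]; rw [if_neg hb]
      have hs : h (i + 1) = ent X (word c (3 * (k i * Q i))) / (3 * (k i * Q i : ℕ) : ℝ) := by
        simp only [hh]
        rw [hstep i]
      rw [hs, hw1]
      have hi' : h i = ent X (word c (3 * Q i)) / (3 * (Q i : ℕ) : ℝ) := rfl
      rw [hi']
      linarith
  have htel : ∀ J ≤ I, h J ≤ h 0 - κ * (∑ i ∈ range J, w i) + J * η := by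
    intro J
    induction J with
    | zero => intro _; simp
    | succ J ih =>
      intro hJ
      have h1 := ih (by omega)
      have h2 := hdec J (by omega)
      rw [Finset.sum_range_succ]
      push_cast
      linarith
  have hI := htel I le_rfl
  have hI0 : 0 ≤ h I := div_nonneg (ent_nonneg X _) (by positivity)
  have h00 : h 0 ≤ Real.log 4 := by
    have a := ent_word_le hX1 c (3 * Q 0)
    have hQpos : (0 : ℝ) < 3 * (Q 0 : ℕ) := by
      have : (0 : ℝ) < Q 0 := by exact_mod_cast (hQ1 0)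
      positivity
    simp only [hh]
    rw [div_le_iff₀ hQpos]
    push_cast at a
    linarith
  have hIη : (I : ℝ) * η ≤ 1 := by
    rw [hη, mul_one_div, div_le_one (by positivity)]
    linarith
  rw [le_div_iff₀ hκ0]
  have hsum : ∑ i ∈ range I, (if ε * X < QA X (Q i) c then 1 / Real.log (Q i) else 0) =
      ∑ i ∈ range I, w i := rfl
  rw [hsum]
  linarith

end MRU
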