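import Pool.Agent.Helper11.MRU.Defs

/-!
# MRU Basic: laws and means for the uniform weights
-/

set_option autoImplicit false

namespace MRU

open Finset MRP
open MRA (word res bo g1 g2 fp MP seqP)

theorem US_pos {X : ℕ} (hX : 1 ≤ X) : 0 < US X := by
  rw [US_eq]; exact_mod_cast hX

theorem US_nonneg (X : ℕ) : 0 ≤ US X := by
  rw [US_eq]; exact Nat.cast_nonneg X

theorem law_nonneg {α : Type} [DecidableEq α] (X : ℕ) (f : ℕ → α) (a : α) : 0 ≤ law X f a := by
  unfold law
  exact div_nonneg (Finset.sum_nonneg fun n _ => zero_le_one) (US_nonneg X)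

theorem EL_eq {α : Type} [Fintype α] [DecidableEq α] (X : ℕ) (f : ℕ → α) (F : α → ℝ) :
    EL X (fun n => F (f n)) = ∑ a : α, law X f a * F a := by
  unfold EL law
  have h : ∀ a : α, (∑ n ∈ (Icc 1 X).filter (fun n => f n = a), (1 : ℝ)) / US X * F a =
      (∑ n ∈ (Icc 1 X).filter (fun n => f n = a), (1 : ℝ) * F (f n)) / US X := by
    intro a
    rw [div_mul_eq_mul_div, Finset.sum_mul]
    congr 1
    refine Finset.sum_congr rfl fun n hn => ?_
    rw [(Finset.mem_filter.1 hn).2]
  rw [Finset.sum_congr rfl fun a _ => h a, ← Finset.sum_div]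
  congr 1
  exact (Finset.sum_fiberwise (Icc 1 X) f (fun n => (1 : ℝ) * F (f n))).symm

theorem law_sum {α : Type} [Fintype α] [DecidableEq α] {X : ℕ} (hX : 1 ≤ X) (f : ℕ → α) :
    ∑ a : α, law X f a = 1 := by
  have h := EL_eq X f (fun _ => (1 : ℝ))
  simp only [mul_one] at h
  rw [← h]
  unfold EL
  have h2 : ∑ n ∈ Icc 1 X, (1 : ℝ) * 1 = US X := by
    unfold US
    simp
  rw [h2]
  exact div_self (US_pos hX).ne'

theorem law_le_one {α : Type} [DecidableEq α] (X : ℕ) (f : ℕ → α) (a : α) : law X f a ≤ 1 := by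
  unfold law
  refine div_le_one_of_le₀ ?_ (US_nonneg X)
  unfold US
  exact Finset.sum_le_sum_of_subset_of_nonneg (Finset.filter_subset _ _)
    fun n _ _ => zero_le_one

theorem law_fst {α β : Type} [Fintype β] [DecidableEq α] [DecidableEq β] (X : ℕ) (f : ℕ → α)
    (g : ℕ → β) (a : α) : ∑ b : β, law X (fun n => (f n, g n)) (a, b) = law X f a := by
  unfold law
  rw [← Finset.sum_div]
  congr 1
  rw [← Finset.sum_fiberwise ((Icc 1 X).filter (fun n => f n = a)) g (fun _ => (1 : ℝ))]
  refine Finset.sum_congr rfl fun b _ => ?_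
  rw [Finset.filter_filter]
  refine Finset.sum_congr ?_ fun _ _ => rfl
  refine Finset.filter_congr fun n _ => ?_
  simp only [Prod.mk.injEq]

theorem law_snd {α β : Type} [Fintype α] [DecidableEq α] [DecidableEq β] (X : ℕ) (f : ℕ → α)
    (g : ℕ → β) (b : β) : ∑ a : α, law X (fun n => (f n, g n)) (a, b) = law X g b := by
  unfold law
  rw [← Finset.sum_div]
  congr 1
  rw [← Finset.sum_fiberwise ((Icc 1 X).filter (fun n => g n = b)) f (fun _ => (1 : ℝ))]
  refine Finset.sum_congr rfl fun a _ => ?_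
  rw [Finset.filter_filter]
  refine Finset.sum_congr ?_ fun _ _ => rfl
  refine Finset.filter_congr fun n _ => ?_
  simp only [Prod.mk.injEq]
  exact and_comm

theorem ent_nonneg {α : Type} [Fintype α] [DecidableEq α] (X : ℕ) (f : ℕ → α) :
    0 ≤ ent X f := by
  unfold ent
  exact Finset.sum_nonneg fun a _ => Real.negMulLog_nonneg (law_nonneg X f a) (law_le_one X f a)

end MRU
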