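import Pool.Agent.Helper11.MRU.Gibbs

/-!
# MRU Factor: the entropy of a function of `g` is at most the entropy of `g`

`ent_factor`: if `f n` is determined by `g n` for `n ∈ [1, X]`, then `ent X f ≤ ent X g`.
Proof: there is `φ : β → α` with `f n = φ (g n)` for `1 ≤ n ≤ X` (choose a preimage; `α` is
nonempty as `f 1 : α`).  Then `law X f a = ∑_{b, φ b = a} law X g b ≥ law X g b` for `φ b = a`, so
`ent X g = ∑_b -law_g b * log (law_g b) ≥ ∑_b -law_g b * log (law_f (φ b)) = ent X f`
(monotonicity of `log`, for `law_g b = 0` both terms vanish; last equality: group by `a = φ b`).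
-/

set_option autoImplicit false

namespace MRU

open Finset MRP
open MRA (word res bo g1 g2 fp MP seqP gibbs ent_cont)

theorem factor_aux {α β : Type} [Fintype α] [Fintype β] [DecidableEq α] [DecidableEq β] (X : ℕ)
    (g : ℕ → β) (φ : β → α) : ent X (fun n => φ (g n)) ≤ ent X g := by
  have hlaw : ∀ b, law X g b ≤ law X (fun n => φ (g n)) (φ b) := by
    intro b
    unfold law
    have hUS : 0 ≤ US X := by
      unfold US
      exact Finset.sum_nonneg fun n _ => by positivity
    refine div_le_div_of_nonneg_right ?_ hUS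
    refine Finset.sum_le_sum_of_subset_of_nonneg ?_ fun n _ _ => by positivity
    intro n hn
    rw [Finset.mem_filter] at hn ⊢
    exact ⟨hn.1, by simp only [hn.2]⟩
  have h1 : ent X (fun n => φ (g n)) =
      ∑ b, law X g b * -Real.log (law X (fun n => φ (g n)) (φ b)) := by
    rw [← EL_eq X g (fun b => -Real.log (law X (fun n => φ (g n)) (φ b))),
      EL_eq X (fun n => φ (g n)) (fun a => -Real.log (law X (fun n => φ (g n)) a))]
    unfold ent
    refine Finset.sum_congr rfl fun a _ => ?_
    rw [Real.negMulLog]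
    ring
  rw [h1]
  unfold ent
  refine Finset.sum_le_sum fun b _ => ?_
  rw [Real.negMulLog]
  have h0 := law_nonneg X g b
  rcases h0.eq_or_lt with h | h
  · rw [← h]; simp
  · have := Real.log_le_log h (hlaw b)
    nlinarith

theorem ent_factor {α β : Type} [Fintype α] [Fintype β] [DecidableEq α] [DecidableEq β] {X : ℕ}
    (hX : 1 ≤ X) (f : ℕ → α) (g : ℕ → β)
    (h : ∀ n m : ℕ, 1 ≤ n → n ≤ X → 1 ≤ m → m ≤ X → g n = g m → f n = f m) :
    ent X f ≤ ent X g := by
  classical
  let φ : β → α := fun b => if hb : ∃ n, 1 ≤ n ∧ n ≤ X ∧ g n = b then f hb.choose else f 1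
  have hφ : ∀ n ∈ Icc 1 X, φ (g n) = f n := by
    intro n hn
    rw [Finset.mem_Icc] at hn
    have hb : ∃ m, 1 ≤ m ∧ m ≤ X ∧ g m = g n := ⟨n, hn.1, hn.2, rfl⟩
    have h1 : φ (g n) = f hb.choose := dif_pos hb
    rw [h1]
    have h2 := hb.choose_spec
    exact h _ _ h2.1 h2.2.1 hn.1 hn.2 h2.2.2
  have hent : ent X f = ent X (fun n => φ (g n)) := by
    unfold ent
    refine Finset.sum_congr rfl fun a _ => ?_
    congr 1
    unfold law
    congr 1
    refine Finset.sum_congr ?_ fun _ _ => rfl
    refine Finset.filter_congr fun n hn => ?_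
    simp only [hφ n hn]
  rw [hent]
  exact factor_aux X g φ

end MRU
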