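import Pool.Agent.Helper11.MRU.SignT

/-!
# MRG-05 CircU: the circle step at almost all scales

From `CIRCS` with `ε/2` and `signT` with `Y n = ∑_{p ∈ dyP P} σ p * (b (Ω(n+p)) - mX X b)`:
the left side is at most `2 ∑_n (1/n) (A n * Y n) = 2 ∑_n (1/n) ∑_p σ p * (A n * (...))`.
-/

set_option autoImplicit false

namespace MRU

open Finset MRP

theorem circU (hC : CIRCS) : ∀ ε : ℝ, 0 < ε → ∃ P0 : ℕ, ∀ P : ℕ, P0 ≤ P → ∃ X0 : ℕ,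
    ∀ X : ℕ, X0 ≤ X → ∀ g b σ : ℕ → ℝ, (∀ n, |g n| ≤ 1) → (∀ m, |b m| ≤ 1) → (∀ p, |σ p| ≤ 1) →
      ∑ x ∈ Icc 1 X, (1 / (x : ℝ)) * |(1 / (x : ℝ)) * ∑ n ∈ Icc 1 x,
          g n * ∑ p ∈ dyP P, σ p * (b (Om (n + p)) - mX X b)| ≤
        ε * (dyP P).card * Real.log X := by
  intro ε hε
  obtain ⟨P0, hP0⟩ := hC (ε / 2) (by positivity)
  refine ⟨P0, fun P hP => ?_⟩
  obtain ⟨X0, hX0⟩ := hP0 P hP
  refine ⟨X0, fun X hX g b σ hg hb hσ => ?_⟩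
  obtain ⟨A, hA, hle⟩ := signT X g
    (fun n => ∑ p ∈ dyP P, σ p * (b (Om (n + p)) - mX X b)) hg
  refine le_trans hle ?_
  have h1 := hX0 X hX A b σ hA hb hσ
  have h2 : ∑ n ∈ Finset.Icc 1 X, (1 / (n : ℝ)) *
      (A n * ∑ p ∈ dyP P, σ p * (b (Om (n + p)) - mX X b)) =
      ∑ n ∈ Finset.Icc 1 X, (1 / (n : ℝ)) *
          ∑ p ∈ dyP P, σ p * (A n * (b (Om (n + p)) - mX X b)) := by
    refine Finset.sum_congr rfl fun n _ => ?_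
    rw [Finset.mul_sum]
    congr 1
    refine Finset.sum_congr rfl fun p _ => ?_
    ring
  rw [h2]
  have h3 := le_trans (le_abs_self _) h1
  linarith

end MRU
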