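import Pool.Agent.Helper11.MRU.Basic
import Pool.Agent.Helper11.MRA.Gibbs
import Pool.Agent.Helper11.MRA.Cont

/-!
# MRU Gibbs: `ent ≤ log card`
-/

set_option autoImplicit false

namespace MRU

open Finset MRP
open MRA (word res bo g1 g2 fp MP seqP gibbs ent_cont)

theorem ent_le_card {α : Type} [Fintype α] [DecidableEq α] [Nonempty α] {X : ℕ} (hX : 1 ≤ X)
    (f : ℕ → α) : ent X f ≤ Real.log (Fintype.card α) := by
  have hc : (0 : ℝ) < Fintype.card α := by exact_mod_cast Fintype.card_pos
  have h := gibbs (law X f) (fun _ => 1 / (Fintype.card α : ℝ)) (law_nonneg X f)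
    (fun _ => by positivity) (fun i h0 => absurd h0 (by positivity)) (by
      rw [law_sum hX]
      simp only [Finset.sum_const, Finset.card_univ, nsmul_eq_mul]
      rw [mul_one_div, div_self hc.ne'])
  unfold ent
  refine h.trans (le_of_eq ?_)
  rw [← Finset.sum_mul, law_sum hX, one_mul, one_div, Real.log_inv, neg_neg]

theorem ent_word_le {X : ℕ} (hX : 1 ≤ X) (c : ℕ → Bool × Bool) (L : ℕ) :
    ent X (word c L) ≤ L * Real.log 4 := by
  refine (ent_le_card hX _).trans (le_of_eq ?_)
  have h : Fintype.card (Fin L → Bool × Bool) = 4 ^ L := by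
    simp [Fintype.card_prod]
  rw [h]
  push_cast
  rw [Real.log_pow]

end MRU
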