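import Pool.Agent.Helper11.MRU.Shift
import Pool.Agent.Helper11.MRU.Gibbs

/-!
# MRU Cont: shift invariance of entropies for the uniform weights
-/

set_option autoImplicit false

namespace MRU

open Finset MRP
open MRA (word res bo g1 g2 fp MP seqP gibbs ent_cont)

private theorem h45_US (c δ : ℝ) (hδ : 0 < δ) : ∃ X0 : ℕ, ∀ X : ℕ, X0 ≤ X →
    1 ≤ X ∧ c / US X ≤ δ := by
  refine ⟨⌈c / δ⌉₊ + 1, fun X hX => ?_⟩
  have h1 : 1 ≤ X := by omega
  refine ⟨h1, ?_⟩
  have h2 := US_pos h1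
  rw [div_le_iff₀ h2]
  have h3 : c / δ ≤ US X := by
    rw [US_eq]
    refine (Nat.le_ceil _).trans ?_
    exact_mod_cast (by omega : ⌈c / δ⌉₊ ≤ X)
  rw [div_le_iff₀ hδ] at h3
  linarith

theorem ent_shift (K i : ℕ) (η : ℝ) (hη : 0 < η) : ∃ X0 : ℕ, ∀ X : ℕ, X0 ≤ X →
    ∀ (α : Type) [Fintype α] [DecidableEq α], Fintype.card α ≤ K → ∀ f : ℕ → α,
      |ent X (fun n => f (n + i)) - ent X f| ≤ η := by
  obtain ⟨δ, hδ, h⟩ := ent_cont K η hη
  obtain ⟨X0, hX0⟩ := h45_US (2 * i) δ hδ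
  refine ⟨X0, fun X hX α _ _ hK f => ?_⟩
  obtain ⟨h1, h2⟩ := hX0 X hX
  unfold ent
  exact h α hK _ _ (fun a => ⟨law_nonneg _ _ _, law_le_one _ _ _⟩)
    (fun a => ⟨law_nonneg _ _ _, law_le_one _ _ _⟩) (fun a => (law_shift f a i X).trans h2)

private theorem h45_res (M : ℕ) [NeZero M] (n : ℕ) (b : Fin M) :
    res M n = b ↔ n ≡ b [MOD M] := by
  unfold res
  rw [Fin.ext_iff]
  show n % M = (b : ℕ) ↔ n % M = (b : ℕ) % M
  rw [Nat.mod_eq_of_lt b.2]

private theorem h45_law (M : ℕ) [NeZero M] (X : ℕ) (a b : Fin M) :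
    |law X (res M) b - law X (res M) a| ≤ 4 * M / US X := by
  have h1 : law X (fun n => res M (n + ((a : ℕ) + (M - b)))) a = law X (res M) b := by
    unfold law
    congr 2
    apply Finset.filter_congr
    intro n _
    rw [h45_res, h45_res]
    have h2 : (b : ℕ) + ((a : ℕ) + (M - b)) ≡ a [MOD M] := by
      have h3 : (b : ℕ) + ((a : ℕ) + (M - b)) = a + M := by
        have := b.2
        omega
      rw [h3]
      exact Nat.add_modEq_right
    constructor
    · intro h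
      exact Nat.ModEq.add_right_cancel' _ (h.trans h2.symm)
    · intro h
      exact (h.add_right _).trans h2
  have h4 := law_shift (res M) a ((a : ℕ) + (M - b)) X
  rw [h1] at h4
  refine h4.trans ?_
  rcases Nat.eq_zero_or_pos X with hX | hX
  · subst hX
    simp [US]
  · have h5 := US_pos hX
    apply div_le_div_of_nonneg_right _ h5.le
    have h6 : ((((a : ℕ) + (M - b) : ℕ)) : ℝ) ≤ ((2 * M : ℕ) : ℝ) := by
      have := a.2
      have := b.2
      exact_mod_cast (by omega : (a : ℕ) + (M - b) ≤ 2 * M)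
    push_cast at h6 ⊢
    linarith

theorem ent_res (M : ℕ) [NeZero M] (η : ℝ) (hη : 0 < η) : ∃ X0 : ℕ, ∀ X : ℕ, X0 ≤ X →
    Real.log M - η ≤ ent X (res M) := by
  obtain ⟨δ, hδ, h⟩ := ent_cont M η hη
  obtain ⟨X0, hX0⟩ := h45_US (4 * M) δ hδ
  refine ⟨X0, fun X hX => ?_⟩
  obtain ⟨h1, h2⟩ := hX0 X hX
  have hM : (0 : ℝ) < M := by exact_mod_cast NeZero.pos M
  have hM1 : (1 : ℝ) ≤ M := by exact_mod_cast NeZero.one_le
  have h3 : ∀ a : Fin M, |law X (res M) a - 1 / (M : ℝ)| ≤ δ := by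
    intro a
    have h4 : (M : ℝ) * (law X (res M) a - 1 / (M : ℝ)) =
        ∑ b : Fin M, (law X (res M) a - law X (res M) b) := by
      rw [Finset.sum_sub_distrib, law_sum h1, Finset.sum_const, Finset.card_univ,
        Fintype.card_fin, nsmul_eq_mul]
      field_simp
    have h5 : |(M : ℝ) * (law X (res M) a - 1 / (M : ℝ))| ≤ M * δ := by
      rw [h4]
      refine (Finset.abs_sum_le_sum_abs _ _).trans ?_
      refine (Finset.sum_le_sum (fun b _ => (h45_law M X b a).trans h2)).trans ?_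
      rw [Finset.sum_const, Finset.card_univ, Fintype.card_fin, nsmul_eq_mul]
    rw [abs_mul, abs_of_pos hM] at h5
    exact le_of_mul_le_mul_left h5 hM
  have h6 := h (Fin M) (by simp) (law X (res M)) (fun _ => 1 / (M : ℝ))
    (fun a => ⟨law_nonneg _ _ _, law_le_one _ _ _⟩)
    (fun a => ⟨by positivity, by rw [div_le_one hM]; exact hM1⟩) h3
  have h7 : ∑ _a : Fin M, Real.negMulLog (1 / (M : ℝ)) = Real.log M := by
    rw [Finset.sum_const, Finset.card_univ, Fintype.card_fin, nsmul_eq_mul, Real.negMulLog,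
      one_div, Real.log_inv]
    field_simp
  rw [h7] at h6
  unfold ent
  linarith [(abs_le.1 h6).1]

end MRU
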