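import Pool.Agent.Helper11.MRU.Chain
import Pool.Agent.Helper11.MRU.Cont

/-!
# MRU DStep: the entropy of a long word, in terms of the conditional entropy of a short one
-/

set_option autoImplicit false

namespace MRU

open Finset MRP
open MRA (word res bo g1 g2 fp MP seqP gibbs ent_cont)

theorem dstep (L M k : ℕ) [NeZero M] (η : ℝ) (hη : 0 < η) : ∃ X0 : ℕ, ∀ X : ℕ, X0 ≤ X →
    ∀ c : ℕ → Bool × Bool, ent X (word c (k * L)) ≤
      Real.log M + k * (ent X (fun n => (word c L n, res M n)) - Real.log M) + η := by
  have hk : (0 : ℝ) < 2 * k + 1 := by positivity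
  set e : ℝ := η / (2 * k + 1) with he
  have hepos : 0 < e := div_pos hη hk
  have hS := fun i : ℕ =>
    ent_shift (Fintype.card ((Fin L → Bool × Bool) × Fin M)) (i * L) e hepos
  choose F hF using hS
  obtain ⟨X1, hX1⟩ := ent_res M e hepos
  refine ⟨max 1 (max X1 ((range k).sup F)), ?_⟩
  intro X hX c
  have hX' : 1 ≤ X := le_trans (le_max_left _ _) hX
  have hXr : X1 ≤ X := le_trans (le_trans (le_max_left _ _) (le_max_right _ _)) hX
  have hXs : (range k).sup F ≤ X :=
    le_trans (le_trans (le_max_right _ _) (le_max_right _ _)) hX
  have h1 := word_chain hX' c (res M) k L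
  have h2 : ent X (res M) ≤ Real.log M := by
    have := ent_le_card hX' (res M)
    simpa using this
  have h3 := hX1 X hXr
  set E : ℝ := ent X (fun n => (word c L n, res M n)) with hE
  have h4 : ∀ i ∈ range k,
      ent X (fun n => (word c L (n + i * L), res M n)) - ent X (res M) ≤
        E - Real.log M + 2 * e := by
    intro i hi
    have hFi : F i ≤ X := le_trans (Finset.le_sup hi) hXs
    have h5 := hF i X hFi ((Fin L → Bool × Bool) × Fin M) le_rfl
      (fun n => (word c L n, res M n))
    have h6 : ent X (fun n => (word c L (n + i * L), res M n)) ≤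
        ent X (fun n => (word c L (n + i * L), res M (n + i * L))) := by
      apply ent_factor hX'
      intro n m _ _ _ _ hnm
      have ha := congrArg Prod.fst hnm
      have hb := congrArg Prod.snd hnm
      simp only at ha hb
      have hb' : (n + i * L) % M = (m + i * L) % M := by
        have := congrArg Fin.val hb
        simpa [res] using this
      have hb'' : n % M = m % M := Nat.ModEq.add_right_cancel' (i * L) hb'
      refine Prod.ext ha ?_
      simp only
      exact Fin.ext hb''
    have h7 := (abs_le.1 h5).2
    linarith
  have h8 := Finset.sum_le_sum h4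
  rw [Finset.sum_const, card_range, nsmul_eq_mul] at h8
  have h9 : (2 * (k : ℝ)) * e ≤ η := by
    have : (2 * (k : ℝ) + 1) * e = η := by
      rw [he]; field_simp
    nlinarith [hepos]
  have h10 : (k : ℝ) * (E - Real.log M + 2 * e) = k * (E - Real.log M) + 2 * k * e := by ring
  linarith

end MRU
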