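import Pool.Agent.Helper11.MRU.Defs
import Pool.Agent.Helper11.MRA.Crt
import Pool.Agent.Helper11.MRA.FpB

/-!
# MRU Hoeff: exponential moment of the signed `FF` for a uniform residue
-/

set_option autoImplicit false

namespace MRU

open Finset MRP
open MRA (word res bo g1 g2 fp MP seqP crt fp_mod fp_exp)

theorem hoeff (P : ℕ) (σ : ℕ → ℝ) (hσ : ∀ p, |σ p| ≤ 1) {L : ℕ} (v : Fin L → Bool × Bool) (t : ℝ) :
    ∑ r ∈ range (MP P), Real.exp (t * FF P σ v r) ≤
      (MP P : ℝ) * Real.exp (2 * t ^ 2 / ((dyP P).card : ℝ)) := by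
  set d : ℝ := ((dyP P).card : ℝ) with hd
  have hexp : ∀ r : ℕ, Real.exp (t * FF P σ v r) =
      ∏ p ∈ dyP P, Real.exp ((t / d * σ p) * fp P p v (r % p)) := by
    intro r
    rw [← Real.exp_sum]
    congr 1
    unfold FF
    have h1 : ∑ p ∈ dyP P, (t / d * σ p) * fp P p v (r % p) =
        t / d * ∑ p ∈ dyP P, σ p * fp P p v r := by
      rw [Finset.mul_sum]
      refine Finset.sum_congr rfl fun p _ => ?_
      rw [← fp_mod P p v r]
      ring
    rw [h1]
    ring
  have hprime : ∀ p ∈ dyP P, Nat.Prime p := by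
    intro p hp
    unfold dyP at hp
    exact (Finset.mem_filter.1 hp).2
  have h2 : ∑ r ∈ range (MP P), Real.exp (t * FF P σ v r) =
      ∏ p ∈ dyP P, ∑ s ∈ range p, Real.exp ((t / d * σ p) * fp P p v s) := by
    rw [Finset.sum_congr rfl fun r _ => hexp r]
    exact crt (dyP P) hprime (fun p s => Real.exp ((t / d * σ p) * fp P p v s))
  rw [h2]
  have h3 : ∏ p ∈ dyP P, ∑ s ∈ range p, Real.exp ((t / d * σ p) * fp P p v s) ≤
      ∏ p ∈ dyP P, ((p : ℝ) * Real.exp (2 * (t / d) ^ 2)) := by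
    refine Finset.prod_le_prod ?_ ?_
    · intro p _
      exact Finset.sum_nonneg fun s _ => (Real.exp_pos _).le
    · intro p hp
      refine (fp_exp hp v (t / d * σ p)).trans ?_
      refine mul_le_mul_of_nonneg_left (Real.exp_le_exp.2 ?_) (Nat.cast_nonneg _)
      have h4 : σ p ^ 2 ≤ 1 := by
        have := hσ p
        rw [abs_le] at this
        nlinarith [this.1, this.2]
      have h5 : 0 ≤ (t / d) ^ 2 := sq_nonneg _
      have h6 : (t / d * σ p) ^ 2 = (t / d) ^ 2 * σ p ^ 2 := by ring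
      rw [h6]
      nlinarith
  refine h3.trans (le_of_eq ?_)
  rw [Finset.prod_mul_distrib, Finset.prod_const, ← Real.exp_nat_mul]
  have h4 : (MP P : ℝ) = ∏ p ∈ dyP P, (p : ℝ) := by
    unfold MP
    push_cast
    rfl
  rw [h4]
  congr 2
  rw [← hd]
  by_cases h0 : d = 0
  · rw [h0]; simp
  · field_simp

/-- The same with a sum over `Fin (MP P)`. -/
theorem hoeff_fin (P : ℕ) (σ : ℕ → ℝ) (hσ : ∀ p, |σ p| ≤ 1) {L : ℕ} (v : Fin L → Bool × Bool)
    (t : ℝ) :
    ∑ r : Fin (MP P), Real.exp (t * FF P σ v (r : ℕ)) ≤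
      Real.exp (2 * t ^ 2 / ((dyP P).card : ℝ)) * (Fintype.card (Fin (MP P)) : ℝ) := by
  rw [Fintype.card_fin, mul_comm]
  rw [Fin.sum_univ_eq_sum_range (fun r => Real.exp (t * FF P σ v r)) (MP P)]
  exact hoeff P σ hσ v t

end MRU
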