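import Pool.Agent.Helper11.MRU.Shift
import Pool.Agent.Helper11.MRA.MeanQ

/-!
# MRU MeanQ: the signed quantity `QQ` as a mean of the signed `FF` of (word, residue)
-/

set_option autoImplicit false

namespace MRU

open Finset MRP
open MRA (word res bo g1 g2 fp MP seqP mqG mqG_abs mq_fp)

theorem meanQ (P X : ℕ) (hP : 1 ≤ P) (σ : ℕ → ℝ) (hσ : ∀ p, |σ p| ≤ 1) (c : ℕ → Bool × Bool) :
    |QQ X P σ c - ∑ n ∈ Icc 1 X, FF P σ (word c (3 * P) n) (n % MP P)| ≤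
      4 * (P : ℝ) ^ 2 := by
  have hP0 : (0 : ℝ) < P := by exact_mod_cast hP
  set d : ℝ := ((dyP P).card : ℝ) with hd
  have hd0 : 0 ≤ d := Nat.cast_nonneg _
  have hQ : QQ X P σ c = (1 / d) * ∑ p ∈ dyP P, σ p * ((1 / (P : ℝ)) * ∑ j ∈ range P,
      ∑ n ∈ Icc 1 X, mqG c p n) := by
    unfold QQ
    congr 1
    refine Finset.sum_congr rfl fun p _ => ?_
    rw [Finset.sum_const, Finset.card_range, nsmul_eq_mul, ← mul_assoc (1 / (P : ℝ)),
      one_div_mul_cancel hP0.ne', one_mul]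
    rfl
  have hM : ∑ n ∈ Icc 1 X, FF P σ (word c (3 * P) n) (n % MP P) =
      (1 / d) * ∑ p ∈ dyP P, σ p * ((1 / (P : ℝ)) * ∑ j ∈ range P,
      ∑ n ∈ Icc 1 X, mqG c p (n + j)) := by
    have h1 : ∀ n ∈ Icc 1 X, FF P σ (word c (3 * P) n) (n % MP P) =
        (1 / d) * ∑ p ∈ dyP P, σ p * ((1 / (P : ℝ)) * ∑ j ∈ range P, mqG c p (n + j)) := by
      intro n _
      unfold FF
      congr 1
      exact Finset.sum_congr rfl fun p hp => by rw [mq_fp hp c n]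
    rw [Finset.sum_congr rfl h1, ← Finset.mul_sum, Finset.sum_comm]
    congr 1
    refine Finset.sum_congr rfl fun p _ => ?_
    rw [← Finset.mul_sum, ← Finset.mul_sum, Finset.sum_comm]
  rw [hQ, hM, ← mul_sub, ← Finset.sum_sub_distrib]
  have hterm : ∀ p ∈ dyP P, |σ p * ((1 / (P : ℝ)) * ∑ j ∈ range P,
      ∑ n ∈ Icc 1 X, mqG c p n) - σ p * ((1 / (P : ℝ)) * ∑ j ∈ range P,
      ∑ n ∈ Icc 1 X, mqG c p (n + j))| ≤ 4 * (P : ℝ) ^ 2 := by
    intro p hp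
    rw [← mul_sub, ← mul_sub, ← Finset.sum_sub_distrib, abs_mul, abs_mul]
    have h2 : |∑ j ∈ range P, ((∑ n ∈ Icc 1 X, mqG c p n) -
        ∑ n ∈ Icc 1 X, mqG c p (n + j))| ≤ ∑ j ∈ range P, 4 * (P : ℝ) ^ 2 := by
      refine (Finset.abs_sum_le_sum_abs _ _).trans (Finset.sum_le_sum fun j hj => ?_)
      rw [Finset.mem_range] at hj
      have h3 := shift_abs (mqG c p) (2 * P) (mqG_abs hP hp c) j X
      simp only [one_mul] at h3
      rw [abs_sub_comm] at h3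
      refine h3.trans ?_
      have hj' : (j : ℝ) ≤ P := by exact_mod_cast hj.le
      nlinarith
    rw [Finset.sum_const, Finset.card_range, nsmul_eq_mul] at h2
    have h4 : |1 / (P : ℝ)| = 1 / (P : ℝ) := abs_of_pos (by positivity)
    rw [h4]
    have h5 : (1 / (P : ℝ)) * |∑ j ∈ range P, ((∑ n ∈ Icc 1 X, mqG c p n) -
        ∑ n ∈ Icc 1 X, mqG c p (n + j))| ≤ 4 * (P : ℝ) ^ 2 := by
      calc (1 / (P : ℝ)) * _ ≤ (1 / (P : ℝ)) * ((P : ℝ) * (4 * (P : ℝ) ^ 2)) :=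
            mul_le_mul_of_nonneg_left h2 (by positivity)
        _ = 4 * (P : ℝ) ^ 2 := by field_simp
    refine (mul_le_mul (hσ p) h5 (by positivity) zero_le_one).trans (le_of_eq (one_mul _))
  rw [abs_mul]
  have h5 : |∑ p ∈ dyP P, (σ p * ((1 / (P : ℝ)) * ∑ j ∈ range P,
      ∑ n ∈ Icc 1 X, mqG c p n) - σ p * ((1 / (P : ℝ)) * ∑ j ∈ range P,
      ∑ n ∈ Icc 1 X, mqG c p (n + j)))| ≤ d * (4 * (P : ℝ) ^ 2) := by
    refine (Finset.abs_sum_le_sum_abs _ _).trans ((Finset.sum_le_sum hterm).trans (le_of_eq ?_))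
    rw [Finset.sum_const, nsmul_eq_mul]
  have h6 : |1 / d| = 1 / d := abs_of_nonneg (by positivity)
  rw [h6]
  refine (mul_le_mul_of_nonneg_left h5 (by positivity)).trans ?_
  by_cases h0 : d = 0
  · rw [h0]; simp
  · rw [← mul_assoc, one_div_mul_cancel h0, one_mul]

/-- The signs which turn `QQ` into `QA`. -/
theorem exists_sign (P X : ℕ) (c : ℕ → Bool × Bool) :
    ∃ σ : ℕ → ℝ, (∀ p, |σ p| ≤ 1) ∧ QQ X P σ c = QA X P c := by
  classical
  refine ⟨fun p => if 0 ≤ ∑ n ∈ Icc 1 X,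
    (((if p ∣ n then (p : ℝ) else 0) - 1) * (bo (c n).1 * bo (c (n + p)).2)) then 1 else -1,
    fun p => by beta_reduce; split_ifs <;> simp, ?_⟩
  unfold QQ QA
  congr 1
  refine Finset.sum_congr rfl fun p _ => ?_
  beta_reduce
  split_ifs with h
  · rw [one_mul, abs_of_nonneg h]
  · rw [abs_of_neg (not_le.1 h)]; ring

end MRU
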