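import Pool.Agent.Helper11.MRU.DV
import Pool.Agent.Helper11.MRU.Hoeff
import Pool.Agent.Helper11.MRU.MeanQ
import Pool.Agent.Helper11.MRU.DStep
import Pool.Agent.Helper11.MRA.Defect

/-!
# MRU Defect: a large `QA` at scale `P` forces a large entropy defect (uniform weights)
-/

set_option autoImplicit false

namespace MRU

open Finset MRP
open MRA (word res bo g1 g2 fp MP seqP MP_log MP_ne)

theorem EL_mul (X : ℕ) (t : ℝ) (G : ℕ → ℝ) : EL X (fun n => t * G n) = t * EL X G := by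
  unfold EL
  rw [← mul_div_assoc, Finset.mul_sum]
  congr 1
  refine Finset.sum_congr rfl fun n _ => ?_
  ring

theorem defect (ε : ℝ) (hε : 0 < ε) (P : ℕ) (hP : 1 ≤ P) : ∃ X0 : ℕ, ∀ X : ℕ, X0 ≤ X →
    ∀ c : ℕ → Bool × Bool, ε * X < QA X P c →
      ε ^ 2 / 16 * ((dyP P).card : ℝ) ≤ ent X (word c (3 * P)) + Real.log (MP P) -
        ent X (fun n => (word c (3 * P) n, res (MP P) n)) := by
  refine ⟨max 1 ⌈16 * (P : ℝ) ^ 2 / ε⌉₊, ?_⟩
  intro X hX c hQ
  have hX1 : 1 ≤ X := le_trans (le_max_left _ _) hX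
  have hX2 : 16 * (P : ℝ) ^ 2 / ε ≤ X :=
    le_trans (Nat.le_ceil _) (by exact_mod_cast le_trans (le_max_right _ _) hX)
  have hXpos : (0 : ℝ) < X := by exact_mod_cast hX1
  have hlog' : 16 * (P : ℝ) ^ 2 ≤ ε * X := by
    rw [div_le_iff₀ hε] at hX2
    linarith
  obtain ⟨σ, hσ, hQσ⟩ := exists_sign P X c
  set D : ℝ := ((dyP P).card : ℝ) with hD
  have hDpos : 0 < D := by
    by_contra hcon
    have hc0 : (dyP P).card = 0 := by
      have h0 : (0 : ℝ) ≤ D := by rw [hD]; positivity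
      have : D = 0 := le_antisymm (not_lt.1 hcon) h0
      rw [hD] at this
      exact_mod_cast this
    have hQ0 : QA X P c = 0 := by
      unfold QA
      rw [hc0]
      simp
    rw [hQ0] at hQ
    have : 0 ≤ ε * X := mul_nonneg hε.le hXpos.le
    linarith
  set G : ℕ → ℝ := fun n => FF P σ (word c (3 * P) n) ((res (MP P) n : Fin (MP P)) : ℕ) with hG
  set S : ℝ := ∑ n ∈ Icc 1 X, (1 : ℝ) * G n with hS
  have hm : |QQ X P σ c - S| ≤ 4 * (P : ℝ) ^ 2 := by
    have := meanQ P X hP σ hσ c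
    simpa [hS, hG, res] using this
  have hLSpos := US_pos hX1
  have hEL : EL X G = S / US X := rfl
  have hSabs : ε * X - 4 * (P : ℝ) ^ 2 ≤ |S| := by
    have h1 : |QQ X P σ c| ≤ |QQ X P σ c - S| + |S| := by
      have := abs_add_le (QQ X P σ c - S) S
      simpa using this
    have h2 := le_abs_self (QQ X P σ c)
    rw [hQσ] at h1 h2 hm
    linarith
  have hELabs : 3 * ε / 4 ≤ |EL X G| := by
    rw [hEL, abs_div, abs_of_pos hLSpos, le_div_iff₀ hLSpos, US_eq]
    nlinarith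
  have key : ∀ t : ℝ, t ^ 2 = (ε / 8 * D) ^ 2 → t * EL X G = ε / 8 * D * |EL X G| →
      ε ^ 2 / 16 * D ≤ ent X (word c (3 * P)) + Real.log (MP P) -
        ent X (fun n => (word c (3 * P) n, res (MP P) n)) := by
    intro t ht2 htE
    have hdv := dv hX1 (word c (3 * P)) (res (MP P))
      (fun a b => t * FF P σ a ((b : Fin (MP P)) : ℕ)) (Real.exp (2 * t ^ 2 / D))
      (Real.exp_pos _) (fun a => hoeff_fin P σ hσ a t)
    have h3 : EL X (fun n => t * FF P σ (word c (3 * P) n)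
        ((res (MP P) n : Fin (MP P)) : ℕ)) = t * EL X G := EL_mul X t G
    rw [h3, Real.log_exp, Fintype.card_fin, htE, ht2] at hdv
    have h4 : 2 * (ε / 8 * D) ^ 2 / D = ε ^ 2 / 32 * D := by
      field_simp
      ring
    rw [h4] at hdv
    have h5 : ε / 8 * D * (3 * ε / 4) ≤ ε / 8 * D * |EL X G| :=
      mul_le_mul_of_nonneg_left hELabs (by positivity)
    nlinarith
  rcases le_total 0 (EL X G) with h | h
  · refine key (ε / 8 * D) rfl ?_
    rw [abs_of_nonneg h]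
  · refine key (-(ε / 8 * D)) (by ring) ?_
    rw [abs_of_nonpos h]
    ring

/-- Subadditivity without residues. -/
theorem dstep0 (L k : ℕ) (η : ℝ) (hη : 0 < η) : ∃ X0 : ℕ, ∀ X : ℕ, X0 ≤ X →
    ∀ c : ℕ → Bool × Bool, ent X (word c (k * L)) ≤ k * ent X (word c L) + η := by
  obtain ⟨X0, hX0⟩ := dstep L 1 k η hη
  refine ⟨max 1 X0, fun X hX c => ?_⟩
  have hX1 : 1 ≤ X := le_trans (le_max_left _ _) hX
  have h := hX0 X (le_trans (le_max_right _ _) hX) c
  have h2 : ent X (fun n => (word c L n, res 1 n)) ≤ ent X (word c L) := by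
    refine ent_factor hX1 _ _ ?_
    intro n m _ _ _ _ hnm
    exact Prod.ext hnm (Subsingleton.elim _ _)
  simp only [Nat.cast_one, Real.log_one, sub_zero, zero_add] at h
  have h3 : (k : ℝ) * ent X (fun n => (word c L n, res 1 n)) ≤ k * ent X (word c L) :=
    mul_le_mul_of_nonneg_left h2 (Nat.cast_nonneg k)
  linarith

theorem scale (ε : ℝ) (hε : 0 < ε) (P k : ℕ) (hP : 1 ≤ P) (hk : 1 ≤ k) (η : ℝ) (hη : 0 < η) :
    ∃ X0 : ℕ, ∀ X : ℕ, X0 ≤ X → ∀ c : ℕ → Bool × Bool, ε * X < QA X P c →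
      ent X (word c (3 * (k * P))) / (3 * (k * P : ℕ) : ℝ) ≤
        ent X (word c (3 * P)) / (3 * (P : ℕ) : ℝ) -
          ε ^ 2 / 48 * (((dyP P).card : ℝ) / P) + Real.log 4 / k + η := by
  obtain ⟨X1, h1⟩ := dstep (3 * P) (MP P) k η hη
  obtain ⟨X2, h2⟩ := defect ε hε P hP
  refine ⟨max X1 X2, fun X hX c hQ => ?_⟩
  have a1 := h1 X (le_trans (le_max_left _ _) hX) c
  have a2 := h2 X (le_trans (le_max_right _ _) hX) c hQ
  have a3 := MP_log P
  have e : k * (3 * P) = 3 * (k * P) := by ring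
  rw [e] at a1
  have hP' : (1 : ℝ) ≤ P := by exact_mod_cast hP
  have hk' : (1 : ℝ) ≤ k := by exact_mod_cast hk
  have hP0 : (0 : ℝ) < P := by linarith
  have hk0 : (0 : ℝ) < k := by linarith
  have hlog : 0 < Real.log 4 := Real.log_pos (by norm_num)
  set W := ent X (word c (3 * (k * P))) with hW
  set V := ent X (word c (3 * P)) with hV
  set VY := ent X (fun n => (word c (3 * P) n, res (MP P) n)) with hVY
  set D := ((dyP P).card : ℝ) with hD
  set LM := Real.log (MP P) with hLM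
  have a4 : W ≤ 2 * P * Real.log 4 + k * (V - ε ^ 2 / 16 * D) + η := by
    have : (k : ℝ) * (VY - LM) ≤ k * (V - ε ^ 2 / 16 * D) :=
      mul_le_mul_of_nonneg_left (by linarith) hk0.le
    linarith
  push_cast
  rw [div_le_iff₀ (by positivity)]
  have e2 : (V / (3 * (P : ℝ)) - ε ^ 2 / 48 * (D / P) + Real.log 4 / k + η) * (3 * ((k : ℝ) * P))
      = k * V - k * (ε ^ 2 / 16 * D) + 3 * P * Real.log 4 + 3 * (k * P) * η := by
    field_simp
    ring
  rw [e2]
  have h5 : 1 ≤ (k : ℝ) * P := by nlinarith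
  have h6 : η ≤ 3 * ((k : ℝ) * P) * η := by nlinarith
  have h7 : 0 ≤ P * Real.log 4 := by positivity
  nlinarith

/-- At every scale the normalised entropy is almost monotone. -/
theorem scale0 (P k : ℕ) (hP : 1 ≤ P) (hk : 1 ≤ k) (η : ℝ) (hη : 0 < η) :
    ∃ X0 : ℕ, ∀ X : ℕ, X0 ≤ X → ∀ c : ℕ → Bool × Bool,
      ent X (word c (3 * (k * P))) / (3 * (k * P : ℕ) : ℝ) ≤
        ent X (word c (3 * P)) / (3 * (P : ℕ) : ℝ) + η := by
  obtain ⟨X1, h1⟩ := dstep0 (3 * P) k η hη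
  refine ⟨X1, fun X hX c => ?_⟩
  have a1 := h1 X hX c
  have e : k * (3 * P) = 3 * (k * P) := by ring
  rw [e] at a1
  have hP' : (1 : ℝ) ≤ P := by exact_mod_cast hP
  have hk' : (1 : ℝ) ≤ k := by exact_mod_cast hk
  have hP0 : (0 : ℝ) < P := by linarith
  have hk0 : (0 : ℝ) < k := by linarith
  set W := ent X (word c (3 * (k * P))) with hW
  set V := ent X (word c (3 * P)) with hV
  push_cast
  rw [div_le_iff₀ (by positivity)]
  have e2 : (V / (3 * (P : ℝ)) + η) * (3 * ((k : ℝ) * P)) = k * V + 3 * (k * P) * η := by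
    field_simp
  rw [e2]
  have h5 : 1 ≤ (k : ℝ) * P := by nlinarith
  nlinarith

end MRU
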