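import Pool.Agent.Helper11.MRA.Defs

/-!
# Block G of project MR: the entropy decrement for the UNIFORM weights on `[1, X]` (definitions)

Same definitions as in `Helper11/MRA`, with the weights `1` in place of `1/n`, and with signs
`σ p` in front of the contribution of the prime `p`, so that the absolute value can be taken inside
the average over the primes (`QA`).
-/

set_option autoImplicit false

namespace MRU

open Finset MRP
open MRA (word res bo g1 g2 fp MP seqP)

/-- Total mass. -/
noncomputable def US (X : ℕ) : ℝ := ∑ _n ∈ Icc 1 X, (1 : ℝ)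

theorem US_eq (X : ℕ) : US X = X := by
  unfold US
  simp

/-- The law of `f` on `[1, X]`. -/
noncomputable def law {α : Type} [DecidableEq α] (X : ℕ) (f : ℕ → α) (a : α) : ℝ :=
  (∑ n ∈ (Icc 1 X).filter (fun n => f n = a), (1 : ℝ)) / US X

/-- Mean of `F` on `[1, X]`. -/
noncomputable def EL (X : ℕ) (F : ℕ → ℝ) : ℝ := (∑ n ∈ Icc 1 X, (1 : ℝ) * F n) / US X

/-- Shannon entropy of `f`. -/
noncomputable def ent {α : Type} [Fintype α] [DecidableEq α] (X : ℕ) (f : ℕ → α) : ℝ :=
  ∑ a : α, Real.negMulLog (law X f a)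

/-- The signed average over the primes in `(P, 2P]`. -/
noncomputable def FF (P : ℕ) (σ : ℕ → ℝ) {L : ℕ} (v : Fin L → Bool × Bool) (r : ℕ) : ℝ :=
  (1 / ((dyP P).card : ℝ)) * ∑ p ∈ dyP P, σ p * fp P p v r

/-- The signed quantity at scale `P`. -/
noncomputable def QQ (X P : ℕ) (σ : ℕ → ℝ) (c : ℕ → Bool × Bool) : ℝ :=
  (1 / ((dyP P).card : ℝ)) * ∑ p ∈ dyP P, σ p * ∑ n ∈ Icc 1 X,
    (((if p ∣ n then (p : ℝ) else 0) - 1) * (bo (c n).1 * bo (c (n + p)).2))

/-- The quantity at scale `P` with the absolute value inside the average over the primes. -/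
noncomputable def QA (X P : ℕ) (c : ℕ → Bool × Bool) : ℝ :=
  (1 / ((dyP P).card : ℝ)) * ∑ p ∈ dyP P, |∑ n ∈ Icc 1 X,
    (((if p ∣ n then (p : ℝ) else 0) - 1) * (bo (c n).1 * bo (c (n + p)).2))|

end MRU
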