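import Pool.Agent.Helper11.MRU.PDefs

/-!
# MRG-01 DilU: dilation by a prime, ordinary averages

For a prime `p`, `x ≥ 1`:
`(1/x) ∑_{n≤x} (p 1_{p∣n}) a1(Ω n) b1(Ω(n+p)) = (p/x) ∑_{m ≤ x/p} a(Ω m) b(Ω(m+1))
 = (p ⌊x/p⌋ / x) fz a b ⌊x/p⌋` (if `⌊x/p⌋ ≥ 1`; both sides are `0` if `⌊x/p⌋ = 0`), because
`Ω(p m) = Ω(m) + 1`, `Ω(p m + p) = Ω(m+1) + 1`, `dn a (s+1) = a s`; compare `dil` in
`Pool/Agent/Helper11/MRA/Ent.lean` (same computation).  Then `0 ≤ 1 - p⌊x/p⌋/x ≤ p/x` and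
`|fz| ≤ 1`.
-/

set_option autoImplicit false

namespace MRU

open Finset MRP

private lemma dilU_Om {p m : ℕ} (hp : p.Prime) (hm : 1 ≤ m) : Om (p * m) = Om m + 1 := by
  show ArithmeticFunction.cardFactors (p * m) = ArithmeticFunction.cardFactors m + 1
  rw [ArithmeticFunction.cardFactors_mul hp.ne_zero (by omega),
    ArithmeticFunction.cardFactors_apply_prime hp, add_comm]

private lemma dilU_sum {p x : ℕ} (hp : p.Prime) (a b : ℕ → ℝ) :
    ∑ n ∈ Icc 1 x, (if p ∣ n then (p : ℝ) else 0) * (dn a (Om n) * dn b (Om (n + p))) =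
      p * ∑ m ∈ Icc 1 (x / p), a (Om m) * b (Om (m + 1)) := by
  have h1 : ∀ n ∈ Icc 1 x, (if p ∣ n then (p : ℝ) else 0) * (dn a (Om n) * dn b (Om (n + p))) =
      if p ∣ n then (p : ℝ) * (dn a (Om n) * dn b (Om (n + p))) else 0 := by
    intro n _
    split_ifs
    · rfl
    · rw [zero_mul]
  rw [Finset.sum_congr rfl h1, ← Finset.sum_filter, Finset.mul_sum]
  symm
  apply Finset.sum_bij (fun (m : ℕ) _ => p * m)
  · intro m hm
    rw [Finset.mem_Icc] at hm
    rw [Finset.mem_filter, Finset.mem_Icc]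
    refine ⟨⟨Nat.mul_pos hp.pos (by omega), ?_⟩, Dvd.intro _ rfl⟩
    calc p * m ≤ p * (x / p) := Nat.mul_le_mul_left p hm.2
      _ ≤ x := Nat.mul_div_le x p
  · intro m _ m' _ h
    exact Nat.eq_of_mul_eq_mul_left hp.pos h
  · intro n hn
    rw [Finset.mem_filter, Finset.mem_Icc] at hn
    obtain ⟨m, rfl⟩ := hn.2
    refine ⟨m, ?_, rfl⟩
    rw [Finset.mem_Icc]
    refine ⟨?_, ?_⟩
    · rcases Nat.eq_zero_or_pos m with h0 | h0
      · rw [h0, mul_zero] at hn
        omega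
      · exact h0
    · rw [Nat.le_div_iff_mul_le hp.pos, mul_comm]
      exact hn.1.2
  · intro m hm
    rw [Finset.mem_Icc] at hm
    have e : p * m + p = p * (m + 1) := by ring
    rw [e, dilU_Om hp hm.1, dilU_Om hp (by omega)]
    unfold dn
    rw [Nat.add_sub_cancel, Nat.add_sub_cancel]

theorem dilU {p x : ℕ} (hp : p.Prime) (hx : 1 ≤ x) (a b : ℕ → ℝ) (ha : ∀ m, |a m| ≤ 1)
    (hb : ∀ m, |b m| ≤ 1) :
    |(1 / (x : ℝ)) * (∑ n ∈ Icc 1 x,
        (if p ∣ n then (p : ℝ) else 0) * (dn a (Om n) * dn b (Om (n + p)))) -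
      fz a b (x / p)| ≤ (p : ℝ) / x := by
  rw [dilU_sum hp]
  unfold fz
  set z : ℕ := x / p with hz
  set S : ℝ := ∑ m ∈ Icc 1 z, a (Om m) * b (Om (m + 1)) with hS
  have hx0 : (0 : ℝ) < x := by exact_mod_cast hx
  have hp0 : (0 : ℝ) < p := by exact_mod_cast hp.pos
  rcases Nat.eq_zero_or_pos z with h0 | h0
  · have hS0 : S = 0 := by
      rw [hS, h0]
      simp
    rw [hS0, mul_zero, mul_zero, mul_zero, sub_zero, abs_zero]
    positivity
  · have hz0 : (0 : ℝ) < z := by exact_mod_cast h0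
    have hSz : |S| ≤ z := by
      rw [hS]
      refine (Finset.abs_sum_le_sum_abs _ _).trans ?_
      have : ∀ m ∈ Icc 1 z, |a (Om m) * b (Om (m + 1))| ≤ 1 := by
        intro m _
        rw [abs_mul]
        exact mul_le_one₀ (ha _) (abs_nonneg _) (hb _)
      refine (Finset.sum_le_sum this).trans ?_
      rw [Finset.sum_const, Nat.card_Icc, nsmul_eq_mul, mul_one, Nat.add_sub_cancel]
    have hmod : p * z + x % p = x := Nat.div_add_mod x p
    have hlt : x % p < p := Nat.mod_lt x hp.pos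
    have h1 : (p : ℝ) * z + ((x % p : ℕ) : ℝ) = x := by exact_mod_cast hmod
    have h2 : ((x % p : ℕ) : ℝ) ≤ p := by exact_mod_cast hlt.le
    have h3 : (0 : ℝ) ≤ ((x % p : ℕ) : ℝ) := Nat.cast_nonneg _
    have e : 1 / (x : ℝ) * (p * S) - 1 / (z : ℝ) * S =
        -(S / z) * (((x % p : ℕ) : ℝ) / x) := by
      have h4 : ((x % p : ℕ) : ℝ) = x - p * z := by linarith
      rw [h4]
      field_simp
      ring
    rw [e, abs_mul, abs_neg, abs_div, abs_of_pos hz0, abs_div, abs_of_nonneg h3, abs_of_pos hx0]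
    calc |S| / z * (((x % p : ℕ) : ℝ) / x) ≤ 1 * ((p : ℝ) / x) := by
          apply mul_le_mul
          · rw [div_le_one hz0]
            exact hSz
          · exact div_le_div_of_nonneg_right h2 hx0.le
          · positivity
          · norm_num
      _ = (p : ℝ) / x := one_mul _

end MRU
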