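import Pool.Agent.Helper11.MRU.PDefs
import Pool.Agent.Helper13.MRF.Iface2

/-!
# MRG-06 MainT: the main term

`|m(b1) E_x(a1) - m(a) m(b)| ≤ |m(b1)| |E_x(a1) - m(a1)| + |m(b1) m(a1) - m(a) m(b)|` with
`a1 = dn a`, `b1 = dn b`, `m = mX X`, `E_x(a1) = (1/x) ∑_{n≤x} a1(Ω n)`.  The first term is
`≤ ε/3` by `LAW0` (with `ε/3`; for `x ≥ X^ε ≥ X^(ε/3)`, `X ≥ 1`), and `|m(b1) - m(b)| ≤ ε/3`,
`|m(a1) - m(a)| ≤ ε/3` by `LAW1` applied to `dn b`, `dn a` (`up 1 (dn b) = b`).  All means are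
bounded by `1` in absolute value (`LS X > 0` for `X ≥ 1`).
-/

set_option autoImplicit false

namespace MRU

open Finset MRP

theorem mX_abs {X : ℕ} (hX : 1 ≤ X) (b : ℕ → ℝ) (hb : ∀ m, |b m| ≤ 1) : |mX X b| ≤ 1 := by
  have hLS : 0 < LS X := by
    unfold LS
    refine Finset.sum_pos ?_ ⟨1, Finset.mem_Icc.2 ⟨le_rfl, hX⟩⟩
    intro n hn
    have : 0 < n := (Finset.mem_Icc.1 hn).1
    positivity
  unfold mX
  rw [abs_div, abs_of_pos hLS, div_le_one hLS]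
  refine (Finset.abs_sum_le_sum_abs _ _).trans ?_
  unfold LS
  refine Finset.sum_le_sum ?_
  intro n _
  have h0 : (0 : ℝ) ≤ 1 / (n : ℝ) := by positivity
  rw [abs_mul, abs_of_nonneg h0]
  calc (1 / (n : ℝ)) * |b (Om n)| ≤ (1 / (n : ℝ)) * 1 := mul_le_mul_of_nonneg_left (hb _) h0
    _ = _ := mul_one _

theorem mainT (h0 : LAW0) (h1 : LAW1) : ∀ ε : ℝ, 0 < ε → ∃ X0 : ℕ, ∀ X : ℕ, X0 ≤ X →
    ∀ x : ℕ, (X : ℝ) ^ ε ≤ x → x ≤ X → ∀ a b : ℕ → ℝ, (∀ m, |a m| ≤ 1) → (∀ m, |b m| ≤ 1) →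
      |mX X (dn b) * ((1 / (x : ℝ)) * ∑ n ∈ Icc 1 x, dn a (Om n)) - mX X a * mX X b| ≤ ε := by
  intro ε hε
  obtain ⟨X1, hX1⟩ := h0 (ε / 3) (by positivity)
  obtain ⟨X2, hX2⟩ := h1 (ε / 3) (by positivity)
  refine ⟨max 1 (max X1 X2), ?_⟩
  intro X hX x hx hxX a b ha hb
  have hXa : 1 ≤ X := (le_max_left _ _).trans hX
  have hXb : X1 ≤ X := ((le_max_left _ _).trans (le_max_right _ _)).trans hX
  have hXc : X2 ≤ X := ((le_max_right _ _).trans (le_max_right _ _)).trans hX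
  have hX1r : (1 : ℝ) ≤ X := by exact_mod_cast hXa
  have hda : ∀ m, |dn a m| ≤ 1 := fun m => ha _
  have hdb : ∀ m, |dn b m| ≤ 1 := fun m => hb _
  have hpow : (X : ℝ) ^ (ε / 3) ≤ x :=
    (Real.rpow_le_rpow_of_exponent_le hX1r (by linarith)).trans hx
  have hE := hX1 X hXb x hpow hxX (dn a) hda
  have hA := hX2 X hXc (dn a) hda
  have hB := hX2 X hXc (dn b) hdb
  have hua : up 1 (dn a) = a := by
    funext m
    simp [up, dn]
  have hub : up 1 (dn b) = b := by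
    funext m
    simp [up, dn]
  rw [hua] at hA
  rw [hub] at hB
  have hmb1 := mX_abs hXa (dn b) hdb
  have hma := mX_abs hXa a ha
  set E : ℝ := (1 / (x : ℝ)) * ∑ n ∈ Icc 1 x, dn a (Om n) with hEdef
  set mb1 := mX X (dn b)
  set ma1 := mX X (dn a)
  set ma := mX X a
  set mb := mX X b
  have e1 : mb1 * E - ma * mb = mb1 * (E - ma1) + (-(mb1 * (ma - ma1)) + -(ma * (mb - mb1))) := by
    ring
  rw [e1]
  have t1 : |mb1 * (E - ma1)| ≤ ε / 3 := by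
    rw [abs_mul]
    calc |mb1| * |E - ma1| ≤ 1 * (ε / 3) :=
          mul_le_mul hmb1 hE (abs_nonneg _) zero_le_one
      _ = ε / 3 := one_mul _
  have t2 : |-(mb1 * (ma - ma1))| ≤ ε / 3 := by
    rw [abs_neg, abs_mul]
    calc |mb1| * |ma - ma1| ≤ 1 * (ε / 3) :=
          mul_le_mul hmb1 hA (abs_nonneg _) zero_le_one
      _ = ε / 3 := one_mul _
  have t3 : |-(ma * (mb - mb1))| ≤ ε / 3 := by
    rw [abs_neg, abs_mul]
    calc |ma| * |mb - mb1| ≤ 1 * (ε / 3) :=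
          mul_le_mul hma hB (abs_nonneg _) zero_le_one
      _ = ε / 3 := one_mul _
  calc |mb1 * (E - ma1) + (-(mb1 * (ma - ma1)) + -(ma * (mb - mb1)))| ≤
        |mb1 * (E - ma1)| + (|-(mb1 * (ma - ma1))| + |-(ma * (mb - mb1))|) :=
          (abs_add_le _ _).trans (add_le_add le_rfl (abs_add_le _ _))
    _ ≤ ε / 3 + (ε / 3 + ε / 3) := add_le_add t1 (add_le_add t2 t3)
    _ = ε := by ring

end MRU
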