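import Pool.Agent.Helper11.MRU.PDefs
import Pool.Agent.Helper6.MR.Iface2

/-!
# MRU MainW: the main term at a single scale

`|mx x (dn b) * E_x(dn a) - mx (x/p) a * mx (x/p) b| ≤ ε` for `1 ≤ p ≤ R`, `x ≥ x0(ε, R)`.
-/

set_option autoImplicit false

namespace MRU

open Finset MRP

theorem mx_abs (x : ℕ) (b : ℕ → ℝ) (hb : ∀ m, |b m| ≤ 1) : |mx x b| ≤ 1 := by
  unfold mx
  rw [abs_div, abs_of_nonneg (Nat.cast_nonneg x : (0 : ℝ) ≤ x)]
  refine div_le_one_of_le₀ ?_ (Nat.cast_nonneg x)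
  refine (Finset.abs_sum_le_sum_abs _ _).trans ?_
  refine (Finset.sum_le_sum fun n _ => hb (Om n)).trans ?_
  simp

theorem mainW (h : LAW1x) (ε : ℝ) (hε : 0 < ε) (R : ℕ) : ∃ x0 : ℕ, ∀ x : ℕ, x0 ≤ x →
    ∀ p : ℕ, 1 ≤ p → p ≤ R → ∀ a b : ℕ → ℝ, (∀ m, |a m| ≤ 1) → (∀ m, |b m| ≤ 1) →
      |mx x (dn b) * ((1 / (x : ℝ)) * ∑ n ∈ Icc 1 x, dn a (Om n)) -
        mx (x / p) a * mx (x / p) b| ≤ ε := by
  set δ : ℝ := min (ε / 4) (1 / 2) with hδ
  have hδ0 : 0 < δ := lt_min (by positivity) (by norm_num)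
  have hδε : 4 * δ ≤ ε := by
    have : δ ≤ ε / 4 := min_le_left _ _
    linarith
  have hδ2 : δ ≤ 1 / 2 := min_le_right _ _
  obtain ⟨x1, hx1⟩ := h δ hδ0
  refine ⟨max x1 ((2 * R + 1) ^ 2), fun x hx p hp hpR a b ha hb => ?_⟩
  have hxx1 : x1 ≤ x := le_trans (le_max_left _ _) hx
  have hxR : (2 * R + 1) ^ 2 ≤ x := le_trans (le_max_right _ _) hx
  have hx1' : 1 ≤ x := le_trans (Nat.one_le_pow _ _ (by omega)) hxR
  have hxR' : (1 : ℝ) ≤ x := by exact_mod_cast hx1'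
  -- the size of `x / p`
  have hy : (x : ℝ) ^ δ ≤ ((x / p : ℕ) : ℝ) := by
    have h1 : (x : ℝ) ^ δ ≤ (x : ℝ) ^ ((1 : ℝ) / 2) := Real.rpow_le_rpow_of_exponent_le hxR' hδ2
    rw [← Real.sqrt_eq_rpow] at h1
    set s : ℝ := Real.sqrt x with hs
    have hs0 : 0 ≤ s := Real.sqrt_nonneg _
    have hss : s * s = x := Real.mul_self_sqrt (by linarith)
    have hsR : 2 * (R : ℝ) + 1 ≤ s := by
      apply Real.le_sqrt_of_sq_le
      exact_mod_cast hxR
    have hp0 : (0 : ℝ) < p := by exact_mod_cast hp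
    have hpR' : (p : ℝ) ≤ R := by exact_mod_cast hpR
    have h2 : (x : ℝ) / p - 1 < ((x / p : ℕ) : ℝ) := by
      have h3 := Nat.lt_div_mul_add (a := x) (b := p) (by omega)
      have h4 : (x : ℝ) < ((x / p : ℕ) : ℝ) * p + p := by exact_mod_cast h3
      rw [sub_lt_iff_lt_add, div_lt_iff₀ hp0]
      linarith
    have h5 : s + 1 ≤ (x : ℝ) / p := by
      rw [le_div_iff₀ hp0, ← hss]
      have h6 : (s + 1) * p ≤ (s + 1) * R := mul_le_mul_of_nonneg_left hpR' (by linarith)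
      have hR0 : (0 : ℝ) ≤ R := Nat.cast_nonneg R
      nlinarith
    linarith
  have hdn : ∀ f : ℕ → ℝ, (∀ m, |f m| ≤ 1) → |mx x (dn f) - mx (x / p) f| ≤ 2 * δ := by
    intro f hf
    obtain ⟨_, h2, h3⟩ := hx1 x hxx1 f hf
    have h4 := h3 (x / p) hy (Nat.div_le_self _ _)
    have h5 : mx x (dn f) - mx (x / p) f = (mx x (dn f) - mx x f) - (mx (x / p) f - mx x f) := by
      ring
    rw [h5]
    refine (abs_sub _ _).trans ?_
    linarith
  have hE : (1 / (x : ℝ)) * ∑ n ∈ Icc 1 x, dn a (Om n) = mx x (dn a) := by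
    unfold mx
    ring
  rw [hE]
  have ha' := hdn a ha
  have hb' := hdn b hb
  have h6 : mx x (dn b) * mx x (dn a) - mx (x / p) a * mx (x / p) b =
      mx x (dn b) * (mx x (dn a) - mx (x / p) a) +
        mx (x / p) a * (mx x (dn b) - mx (x / p) b) := by ring
  rw [h6]
  refine (abs_add_le _ _).trans ?_
  rw [abs_mul, abs_mul]
  have h7 : |mx x (dn b)| ≤ 1 := mx_abs x (dn b) (fun m => hb _)
  have h8 : |mx (x / p) a| ≤ 1 := mx_abs _ _ ha
  have h9 := mul_le_mul h7 ha' (abs_nonneg _) zero_le_one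
  have h10 := mul_le_mul h8 hb' (abs_nonneg _) zero_le_one
  linarith

end MRU
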