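import Pool.Agent.Helper11.MRU.PDefs

/-!
# MRG-02 Near: means vary slowly with the scale

* `slow`: `z' E_{z'} = z E_z + ∑_{z<n≤z'} F n`, so `E_{z'} - E_z = (z/z' - 1) E_z + (1/z') ∑ ...`,
  both terms at most `(z'-z)/z'`.  (`z = 0`: `E_0 = 0`.)
* `near`: let `p ≤ p0` (the other case is symmetric), `y = x/p` (real), `z' = ⌊x/p⌋`,
  `z = ⌊x/p0⌋ ≤ z'`.  `z' - z ≤ x/p - x/p0 + 1 = (x/p)(p0-p)/p0 + 1 ≤ y/r + 1` (since
  `p0 - p ≤ P/r`, `p0 > P`), `z' ≥ y - 1`, and `y ≥ x/(2P) ≥ r + 2`, so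
  `(z'-z)/z' ≤ (y/r + 1)/(y - 1) ≤ 2/r`; now `slow`.
-/

set_option autoImplicit false

namespace MRU

open Finset MRP

theorem slow (F : ℕ → ℝ) (hF : ∀ n, |F n| ≤ 1) {z z' : ℕ} (h : z ≤ z') (h' : 1 ≤ z') :
    |(1 / (z : ℝ)) * (∑ n ∈ Icc 1 z, F n) - (1 / (z' : ℝ)) * ∑ n ∈ Icc 1 z', F n| ≤
      2 * ((z' : ℝ) - z) / z' := by
  have hz' : (0 : ℝ) < z' := by exact_mod_cast h'
  have hzz : (z : ℝ) ≤ z' := by exact_mod_cast h
  have hsplit : ∑ n ∈ Icc 1 z', F n = ∑ n ∈ Icc 1 z, F n + ∑ n ∈ Ioc z z', F n := by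
    have h1 : Icc 1 z' = Icc 1 z ∪ Ioc z z' := by
      ext n
      simp only [Finset.mem_union, Finset.mem_Icc, Finset.mem_Ioc]
      omega
    rw [h1, Finset.sum_union]
    rw [Finset.disjoint_left]
    intro n hn hn'
    simp only [Finset.mem_Icc, Finset.mem_Ioc] at hn hn'
    omega
  have hR : |∑ n ∈ Ioc z z', F n| ≤ (z' : ℝ) - z := by
    refine (Finset.abs_sum_le_sum_abs _ _).trans ((Finset.sum_le_sum fun n _ => hF n).trans ?_)
    rw [Finset.sum_const, Nat.card_Ioc, nsmul_eq_mul, mul_one, Nat.cast_sub h]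
  have hS : |∑ n ∈ Icc 1 z, F n| ≤ (z : ℝ) := by
    refine (Finset.abs_sum_le_sum_abs _ _).trans ((Finset.sum_le_sum fun n _ => hF n).trans ?_)
    rw [Finset.sum_const, Nat.card_Icc, nsmul_eq_mul, mul_one]
    simp
  rw [hsplit]
  set S : ℝ := ∑ n ∈ Icc 1 z, F n
  set R : ℝ := ∑ n ∈ Ioc z z', F n
  have e1 : (1 / (z : ℝ)) * S - (1 / (z' : ℝ)) * (S + R) =
      ((1 / (z : ℝ)) - (1 / (z' : ℝ))) * S - R / z' := by
    ring
  rw [e1]
  have hA : |((1 / (z : ℝ)) - (1 / (z' : ℝ))) * S| ≤ ((z' : ℝ) - z) / z' := by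
    rcases Nat.eq_zero_or_pos z with h0 | h0
    · have : S = 0 := by
        have h2 : |S| ≤ 0 := by
          rw [h0] at hS
          simpa using hS
        exact abs_eq_zero.1 (le_antisymm h2 (abs_nonneg _))
      rw [this, mul_zero, abs_zero]
      exact div_nonneg (by linarith) hz'.le
    · have hz : (0 : ℝ) < z := by exact_mod_cast h0
      have e2 : (1 / (z : ℝ)) - (1 / (z' : ℝ)) = ((z' : ℝ) - z) / (z * z') := by
        field_simp
      have h3 : 0 ≤ ((z' : ℝ) - z) / (z * z') := div_nonneg (by linarith) (mul_pos hz hz').le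
      rw [abs_mul, e2, abs_of_nonneg h3]
      have h4 : ((z' : ℝ) - z) / z' = ((z' : ℝ) - z) / (z * z') * z := by
        field_simp
      rw [h4]
      exact mul_le_mul_of_nonneg_left hS h3
  have hB : |R / z'| ≤ ((z' : ℝ) - z) / z' := by
    rw [abs_div, abs_of_pos hz']
    exact div_le_div_of_nonneg_right hR hz'.le
  refine (abs_sub _ _).trans ?_
  have e3 : 2 * ((z' : ℝ) - z) / z' = ((z' : ℝ) - z) / z' + ((z' : ℝ) - z) / z' := by ring
  rw [e3]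
  exact add_le_add hA hB

theorem near_aux {P r p p0 x : ℕ} (hr : 1 ≤ r) (hp : p ∈ dyP P) (hp0 : p0 ∈ dyP P) (hle : p ≤ p0)
    (hpp : (r : ℝ) * ((p0 : ℝ) - (p : ℝ)) ≤ (P : ℝ)) (hx : 2 * P * (r + 2) ≤ x) (a b : ℕ → ℝ)
    (ha : ∀ m, |a m| ≤ 1) (hb : ∀ m, |b m| ≤ 1) :
    |fz a b (x / p0) - fz a b (x / p)| ≤ 4 / (r : ℝ) := by
  unfold dyP at hp hp0
  obtain ⟨hp1, hp2⟩ := Finset.mem_Ioc.1 (Finset.mem_filter.1 hp).1
  obtain ⟨hq1, hq2⟩ := Finset.mem_Ioc.1 (Finset.mem_filter.1 hp0).1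
  have hppos : 0 < p := by omega
  have hqpos : 0 < p0 := by omega
  have hpR : (0 : ℝ) < p := by exact_mod_cast hppos
  have hqR : (0 : ℝ) < p0 := by exact_mod_cast hqpos
  have hrR : (1 : ℝ) ≤ r := by exact_mod_cast hr
  have hPq : (P : ℝ) ≤ p0 := by exact_mod_cast hq1.le
  have hp2R : (p : ℝ) ≤ 2 * P := by exact_mod_cast hp2
  have hPR : (0 : ℝ) < 2 * P := lt_of_lt_of_le hpR hp2R
  have hxR : 2 * (P : ℝ) * (r + 2) ≤ x := by exact_mod_cast hx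
  -- y = x / p
  set y : ℝ := (x : ℝ) / p with hy
  have hxn : (0 : ℝ) ≤ x := Nat.cast_nonneg x
  have hyr : (r : ℝ) + 2 ≤ y := by
    rw [hy, le_div_iff₀ hpR]
    have h1 : ((r : ℝ) + 2) * p ≤ (r + 2) * (2 * P) :=
      mul_le_mul_of_nonneg_left hp2R (by linarith)
    linarith
  have hz'1 : y - 1 ≤ ((x / p : ℕ) : ℝ) := by
    have h1 : (x : ℝ) / p < ((x / p : ℕ) : ℝ) + 1 := by
      rw [div_lt_iff₀ hpR]
      have h2 : x < (x / p + 1) * p := by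
        have := Nat.lt_mul_div_succ x hppos
        rw [mul_comm] at this
        exact this
      exact_mod_cast h2
    linarith
  have hz'2 : ((x / p : ℕ) : ℝ) ≤ y := Nat.cast_div_le
  have hz1 : (x : ℝ) / p0 - 1 ≤ ((x / p0 : ℕ) : ℝ) := by
    have h1 : (x : ℝ) / p0 < ((x / p0 : ℕ) : ℝ) + 1 := by
      rw [div_lt_iff₀ hqR]
      have h2 : x < (x / p0 + 1) * p0 := by
        have := Nat.lt_mul_div_succ x hqpos
        rw [mul_comm] at this
        exact this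
      exact_mod_cast h2
    linarith
  have hzz : x / p0 ≤ x / p := Nat.div_le_div_left hle hppos
  have hz'pos : (0 : ℝ) < ((x / p : ℕ) : ℝ) := by linarith
  have hz'nat : 1 ≤ x / p := by
    have : (0 : ℝ) < ((x / p : ℕ) : ℝ) := hz'pos
    exact_mod_cast this
  have hkey : (r : ℝ) * (y - (x : ℝ) / p0) ≤ y := by
    have e1 : y - (x : ℝ) / p0 = y * (((p0 : ℝ) - p) / p0) := by
      rw [hy]
      field_simp
    rw [e1]
    have h1 : (r : ℝ) * (((p0 : ℝ) - p) / p0) ≤ 1 := by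
      rw [← mul_div_assoc, div_le_one hqR]
      linarith
    have h2 : (r : ℝ) * (y * (((p0 : ℝ) - p) / p0)) = y * ((r : ℝ) * (((p0 : ℝ) - p) / p0)) := by
      ring
    rw [h2]
    have hy0 : 0 ≤ y := by linarith
    calc y * ((r : ℝ) * (((p0 : ℝ) - p) / p0)) ≤ y * 1 := mul_le_mul_of_nonneg_left h1 hy0
      _ = y := mul_one y
  have hmain : (r : ℝ) * (((x / p : ℕ) : ℝ) - ((x / p0 : ℕ) : ℝ)) ≤ 2 * ((x / p : ℕ) : ℝ) := by
    have h1 : ((x / p : ℕ) : ℝ) - ((x / p0 : ℕ) : ℝ) ≤ (y - (x : ℝ) / p0) + 1 := by linarith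
    have h2 : (r : ℝ) * (((x / p : ℕ) : ℝ) - ((x / p0 : ℕ) : ℝ)) ≤
        (r : ℝ) * ((y - (x : ℝ) / p0) + 1) := mul_le_mul_of_nonneg_left h1 (by linarith)
    have h3 : (r : ℝ) * ((y - (x : ℝ) / p0) + 1) = (r : ℝ) * (y - (x : ℝ) / p0) + r := by ring
    linarith
  unfold fz
  have hF : ∀ n, |a (Om n) * b (Om (n + 1))| ≤ 1 := by
    intro n
    rw [abs_mul]
    calc |a (Om n)| * |b (Om (n + 1))| ≤ 1 * 1 :=
          mul_le_mul (ha _) (hb _) (abs_nonneg _) zero_le_one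
      _ = 1 := one_mul 1
  refine (slow (fun n => a (Om n) * b (Om (n + 1))) hF hzz hz'nat).trans ?_
  rw [div_le_div_iff₀ hz'pos (by linarith)]
  linarith

theorem near {P r p p0 x : ℕ} (hr : 1 ≤ r) (hp : p ∈ dyP P) (hp0 : p0 ∈ dyP P)
    (hpp : (r : ℝ) * |(p : ℝ) - (p0 : ℝ)| ≤ (P : ℝ)) (hx : 2 * P * (r + 2) ≤ x) (a b : ℕ → ℝ)
    (ha : ∀ m, |a m| ≤ 1) (hb : ∀ m, |b m| ≤ 1) :
    |fz a b (x / p) - fz a b (x / p0)| ≤ 4 / (r : ℝ) := by
  have hr0 : (0 : ℝ) ≤ r := Nat.cast_nonneg r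
  rcases le_total p p0 with h | h
  · rw [abs_sub_comm]
    refine near_aux hr hp hp0 h (le_trans ?_ hpp) hx a b ha hb
    refine mul_le_mul_of_nonneg_left ?_ hr0
    rw [abs_sub_comm]
    exact le_abs_self _
  · refine near_aux hr hp0 hp h (le_trans ?_ hpp) hx a b ha hb
    refine mul_le_mul_of_nonneg_left ?_ hr0
    exact le_abs_self _

end MRU
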