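import Pool.Agent.Helper11.MRU.ScaleAvg

/-!
# Block G of project MR: from the entropy decrement and the circle step to `PSTAR` (definitions)
-/

set_option autoImplicit false

namespace MRU

open Finset MRP

/-- Ordinary mean of `a (Ω n) b (Ω (n+1))` over `n ≤ z`. -/
noncomputable def fz (a b : ℕ → ℝ) (z : ℕ) : ℝ :=
  (1 / (z : ℝ)) * ∑ n ∈ Icc 1 z, a (Om n) * b (Om (n + 1))

/-- The primes of `(P, 2P]` close to `p0`. -/
noncomputable def nbr (P r p0 : ℕ) : Finset ℕ :=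
  (dyP P).filter (fun p => (r : ℝ) * |(p : ℝ) - (p0 : ℝ)| ≤ (P : ℝ))

/-- The Boolean pair of two functions of `Ω`. -/
noncomputable def cc (a b : ℕ → ℝ) : ℕ → Bool × Bool := by
  classical
  exact fun n => (decide (a (Om n) = 1), decide (b (Om n) = 1))

/-- The circle step with free coefficients. -/
def CIRCS : Prop :=
  ∀ ε : ℝ, 0 < ε → ∃ P0 : ℕ, ∀ P : ℕ, P0 ≤ P → ∃ X0 : ℕ, ∀ X : ℕ, X0 ≤ X →
    ∀ A b σ : ℕ → ℝ, (∀ n, |A n| ≤ 1) → (∀ m, |b m| ≤ 1) → (∀ p, |σ p| ≤ 1) →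
      |∑ n ∈ Finset.Icc 1 X, (1 / (n : ℝ)) *
          ∑ p ∈ dyP P, σ p * (A n * (b (Om (n + p)) - mX X b))| ≤
        ε * (dyP P).card * Real.log X

/-- `PSTAR` for `0/1` valued functions. -/
def PST01 : Prop :=
  ∀ ε : ℝ, 0 < ε → ∃ X0 : ℕ, ∀ X : ℕ, X0 ≤ X → ∀ a b : ℕ → ℝ,
    (∀ m, a m = 0 ∨ a m = 1) → (∀ m, b m = 0 ∨ b m = 1) →
      ∑ M ∈ Finset.Icc 1 X, (1 / (M : ℝ)) * |fz a b M - mX X a * mX X b| ≤ ε * Real.log X

end MRU
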