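import Pool.Agent.Helper11.MRU.PDefs

/-!
# MRG-03 Pigeon: a short interval with many primes

Map `p ∈ (P, 2P]` to `j(p) = r (p - P - 1) / P` (natural division); `p - P - 1 ≤ P - 1`, so
`j(p) < r`.  Some fibre `j` has at least `|D|/r` elements (`D = dyP P`, pigeonhole:
`|D| = ∑_{j<r} |fibre j|`, take the largest; it is nonempty).  Choose `p0` in it.  If `p` is in
the same fibre then `|r (p - P - 1) - r (p0 - P - 1)| < P`, so `r |p - p0| ≤ P`, i.e. the fibre is
contained in `nbr P r p0`.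
-/

set_option autoImplicit false

namespace MRU

open Finset MRP

theorem pigeon {P r : ℕ} (hr : 1 ≤ r) (hD : (dyP P).Nonempty) :
    ∃ p0 ∈ dyP P, (dyP P).card ≤ r * (nbr P r p0).card := by
  classical
  have hmem : ∀ p ∈ dyP P, P < p ∧ p ≤ 2 * P := by
    intro p hp
    exact Finset.mem_Ioc.1 (Finset.mem_filter.1 hp).1
  have hmaps : ∀ p ∈ dyP P, r * (p - P - 1) / P ∈ Finset.range r := by
    intro p hp
    obtain ⟨h1, h2⟩ := hmem p hp
    rw [Finset.mem_range, Nat.div_lt_iff_lt_mul (by omega)]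
    exact (Nat.mul_lt_mul_left (by omega)).2 (by omega)
  obtain ⟨j, hj, hcj⟩ : ∃ j ∈ Finset.range r, (dyP P).card ≤
      r * ((dyP P).filter (fun p => r * (p - P - 1) / P = j)).card := by
    by_contra hcon
    push Not at hcon
    have h1 := Finset.card_eq_sum_card_fiberwise hmaps
    have h2 : ∑ j ∈ Finset.range r,
        r * ((dyP P).filter (fun p => r * (p - P - 1) / P = j)).card <
        ∑ _j ∈ Finset.range r, (dyP P).card :=
      Finset.sum_lt_sum_of_nonempty ⟨0, Finset.mem_range.2 (by omega)⟩ hcon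
    rw [← Finset.mul_sum, ← h1, Finset.sum_const, Finset.card_range, smul_eq_mul] at h2
    exact lt_irrefl _ h2
  have hcD : 0 < (dyP P).card := Finset.card_pos.2 hD
  have hne : ((dyP P).filter (fun p => r * (p - P - 1) / P = j)).Nonempty := by
    rw [← Finset.card_pos]
    rcases Nat.eq_zero_or_pos ((dyP P).filter (fun p => r * (p - P - 1) / P = j)).card with h | h
    · rw [h, mul_zero] at hcj
      omega
    · exact h
  obtain ⟨p0, hp0⟩ := hne
  rw [Finset.mem_filter] at hp0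
  refine ⟨p0, hp0.1, hcj.trans (Nat.mul_le_mul_left r (Finset.card_le_card ?_))⟩
  intro p hp
  rw [Finset.mem_filter] at hp
  rw [nbr, Finset.mem_filter]
  refine ⟨hp.1, ?_⟩
  obtain ⟨h1, h2⟩ := hmem p hp.1
  obtain ⟨h3, h4⟩ := hmem p0 hp0.1
  have hP : 0 < P := by omega
  -- both numbers lie in `[jP, (j+1)P)`
  have key : ∀ q : ℕ, P < q → r * (q - P - 1) / P = j →
      (j : ℝ) * P ≤ r * ((q : ℝ) - P - 1) ∧ (r : ℝ) * ((q : ℝ) - P - 1) < (j + 1) * P := by
    intro q hq hqj
    have e1 : j * P ≤ r * (q - P - 1) := by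
      rw [← hqj]
      exact Nat.div_mul_le_self _ _
    have e2 : r * (q - P - 1) < (j + 1) * P := by
      have h5 : r * (q - P - 1) / P < j + 1 := by omega
      exact (Nat.div_lt_iff_lt_mul hP).1 h5
    have e3 : ((q - P - 1 : ℕ) : ℝ) = (q : ℝ) - P - 1 := by
      rw [Nat.cast_sub (by omega), Nat.cast_sub (by omega)]
      simp
    refine ⟨?_, ?_⟩
    · rw [← e3]
      exact_mod_cast e1
    · rw [← e3]
      exact_mod_cast e2
  obtain ⟨a1, a2⟩ := key p h1 hp.2
  obtain ⟨b1, b2⟩ := key p0 h3 hp0.2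
  have hr0 : (0 : ℝ) ≤ r := Nat.cast_nonneg r
  have habs : (r : ℝ) * |(p : ℝ) - p0| = |(r : ℝ) * ((p : ℝ) - p0)| := by
    rw [abs_mul, abs_of_nonneg hr0]
  rw [habs, abs_le]
  constructor
  · nlinarith
  · nlinarith

end MRU
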