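import Pool.Agent.Helper11.MRU.DilU
import Pool.Agent.Helper11.MRU.Near

/-!
# MRG-07 PointW: the inequality at one scale `x`

Let `D = dyP P`, `N = nbr P r p0 ⊆ D`, `|D| ≤ r |N|`, `|D| ≥ 1` (so `|N| ≥ 1`), `a1 = dn a`,
`b1 = dn b`, `c = cc a1 b1`, so that `bo (c n).1 = a1(Ω n)` and `bo (c n).2 = b1(Ω n)`
(`0/1` valued).  For `p ∈ N`:
`fz(x/p0) = fz(x/p) + O(4/r)` (`near`),
`fz(x/p) = (1/x) ∑_n (p 1_{p∣n}) a1(Ω n) b1(Ω(n+p)) + O(p/x)` (`dilU`, `p ≤ 2P`),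
`(1/x) ∑_n (p 1_{p∣n}) a1 b1 = (1/x) ∑_n a1(Ω n) b1(Ω(n+p)) + E_p`,
`E_p = (1/x) ∑_n (p 1_{p∣n} - 1) a1(Ω n) b1(Ω(n+p))`, and
`(1/x) ∑_n a1(Ω n) b1(Ω(n+p)) = (1/x) ∑_n a1(Ω n) (b1(Ω(n+p)) - m) + m (1/x) ∑_n a1(Ω n)`,
`m = mX X b1`.  Average over `p ∈ N`:
`(1/|N|) ∑_{p∈N} |E_p| ≤ (r/|D|) ∑_{p∈D} |E_p| = r QA x P c / x`, and
`|(1/|N|) ∑_{p∈N} (1/x) ∑_n a1 (b1(Ω(n+p)) - m)| ≤ (r/|D|) |(1/x) ∑_n a1(Ω n) ∑_{p∈D} 1_N(p)
(b1(Ω(n+p)) - m)|` (`1/|N| ≤ r/|D|`).
-/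

set_option autoImplicit false

namespace MRU

open Finset MRP
open MRA (bo)

theorem bo_cc_fst (a b : ℕ → ℝ) (ha : ∀ m, a m = 0 ∨ a m = 1) (n : ℕ) :
    bo (cc a b n).1 = a (Om n) := by
  classical
  unfold cc bo
  rcases ha (Om n) with h | h <;> simp [h]

theorem bo_cc_snd (a b : ℕ → ℝ) (hb : ∀ m, b m = 0 ∨ b m = 1) (n : ℕ) :
    bo (cc a b n).2 = b (Om n) := by
  classical
  unfold cc bo
  rcases hb (Om n) with h | h <;> simp [h]

theorem pointW {P r p0 x : ℕ} (hr : 1 ≤ r) (hP : 1 ≤ P) (hp0 : p0 ∈ dyP P)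
    (hN : (dyP P).card ≤ r * (nbr P r p0).card) (hx : 2 * P * (r + 2) ≤ x) (a b : ℕ → ℝ)
    (ha : ∀ m, a m = 0 ∨ a m = 1) (hb : ∀ m, b m = 0 ∨ b m = 1) (m w : ℝ) :
    |fz a b (x / p0) - w| ≤ 4 / (r : ℝ) + 2 * (P : ℝ) / x +
      r * (QA x P (cc (dn a) (dn b)) / x) +
      (r : ℝ) / (dyP P).card * |(1 / (x : ℝ)) * ∑ n ∈ Icc 1 x, dn a (Om n) *
        ∑ p ∈ dyP P, (if p ∈ nbr P r p0 then (1 : ℝ) else 0) * (dn b (Om (n + p)) - m)| +
      |m * ((1 / (x : ℝ)) * ∑ n ∈ Icc 1 x, dn a (Om n)) - w| := by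
  classical
  set D := dyP P with hD
  set N := nbr P r p0 with hNdef
  have ha1 : ∀ k, |a k| ≤ 1 := fun k => by rcases ha k with h | h <;> simp [h]
  have hb1 : ∀ k, |b k| ≤ 1 := fun k => by rcases hb k with h | h <;> simp [h]
  have hdna : ∀ k, dn a k = 0 ∨ dn a k = 1 := fun k => ha _
  have hdnb : ∀ k, dn b k = 0 ∨ dn b k = 1 := fun k => hb _
  have hx1 : 1 ≤ x := by
    have : 1 ≤ 2 * P * (r + 2) := Nat.succ_le_of_lt (by positivity)
    omega
  have hxpos : (0 : ℝ) < x := by exact_mod_cast hx1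
  have hp0N : p0 ∈ N := by
    rw [hNdef]
    unfold nbr
    rw [Finset.mem_filter]
    refine ⟨hp0, ?_⟩
    simp
  have hNpos : 0 < N.card := Finset.card_pos.2 ⟨p0, hp0N⟩
  have hDpos : 0 < D.card := Finset.card_pos.2 ⟨p0, hp0⟩
  have hNr : (0 : ℝ) < N.card := by exact_mod_cast hNpos
  have hDr : (0 : ℝ) < D.card := by exact_mod_cast hDpos
  have hDN : (D.card : ℝ) ≤ r * N.card := by exact_mod_cast hN
  have hNsub : N ⊆ D := Finset.filter_subset _ _
  -- notation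
  set S : ℕ → ℝ := fun p => (1 / (x : ℝ)) * (∑ n ∈ Icc 1 x,
        (if p ∣ n then (p : ℝ) else 0) * (dn a (Om n) * dn b (Om (n + p)))) with hS
  set T : ℕ → ℝ := fun p => (1 / (x : ℝ)) * (∑ n ∈ Icc 1 x,
        (dn a (Om n) * dn b (Om (n + p)))) with hT
  set E : ℕ → ℝ := fun p => ∑ n ∈ Icc 1 x,
    (((if p ∣ n then (p : ℝ) else 0) - 1) * (bo (cc (dn a) (dn b) n).1 *
      bo (cc (dn a) (dn b) (n + p)).2)) with hE
  set A1 : ℝ := (1 / (x : ℝ)) * ∑ n ∈ Icc 1 x, dn a (Om n) with hA1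
  set U : ℕ → ℝ := fun p => (1 / (x : ℝ)) * (∑ n ∈ Icc 1 x,
        (dn a (Om n) * (dn b (Om (n + p)) - m))) with hU
  have hST : ∀ p, S p - T p = E p / x := by
    intro p
    simp only [hS, hT, hE]
    rw [← mul_sub, ← Finset.sum_sub_distrib, one_div, inv_mul_eq_div]
    congr 1
    refine Finset.sum_congr rfl fun n _ => ?_
    rw [bo_cc_fst _ _ hdna, bo_cc_snd _ _ hdnb]
    ring
  have hTU : ∀ p, T p = U p + m * A1 := by
    intro p
    have h1 : ∑ n ∈ Icc 1 x, (dn a (Om n) * dn b (Om (n + p))) =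
        ∑ n ∈ Icc 1 x, (dn a (Om n) * (dn b (Om (n + p)) - m)) +
          m * ∑ n ∈ Icc 1 x, dn a (Om n) := by
      rw [Finset.mul_sum, ← Finset.sum_add_distrib]
      refine Finset.sum_congr rfl fun n _ => ?_
      ring
    simp only [hT, hU, hA1]
    rw [h1]
    ring
  have hpt : ∀ p ∈ N, |fz a b (x / p0) - w - U p| ≤
      4 / (r : ℝ) + 2 * (P : ℝ) / x + |E p| / x + |m * A1 - w| := by
    intro p hp
    have hpD : p ∈ D := hNsub hp
    have hpp : p.Prime := (Finset.mem_filter.1 hpD).2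
    have hpP : p ≤ 2 * P := (Finset.mem_Ioc.1 (Finset.mem_filter.1 hpD).1).2
    have h1 := near hr hpD hp0 (Finset.mem_filter.1 hp).2 hx a b ha1 hb1
    have h2 := dilU hpp hx1 a b ha1 hb1
    have h2' : |S p - fz a b (x / p)| ≤ 2 * (P : ℝ) / x := by
      refine h2.trans ?_
      gcongr
      exact_mod_cast hpP
    have h3 : |S p - T p| = |E p| / x := by
      rw [hST, abs_div, abs_of_pos hxpos]
    have h4 := hTU p
    have key : fz a b (x / p0) - w - U p = -(fz a b (x / p) - fz a b (x / p0)) -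
        (S p - fz a b (x / p)) + (S p - T p) + (m * A1 - w) := by
      rw [h4]; ring
    rw [key]
    calc |-(fz a b (x / p) - fz a b (x / p0)) - (S p - fz a b (x / p)) + (S p - T p) +
          (m * A1 - w)| ≤ |-(fz a b (x / p) - fz a b (x / p0)) - (S p - fz a b (x / p)) +
          (S p - T p)| + |m * A1 - w| := abs_add_le _ _
      _ ≤ |-(fz a b (x / p) - fz a b (x / p0)) - (S p - fz a b (x / p))| + |S p - T p| +
          |m * A1 - w| := by gcongr; exact abs_add_le _ _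
      _ ≤ |-(fz a b (x / p) - fz a b (x / p0))| + |S p - fz a b (x / p)| + |S p - T p| +
          |m * A1 - w| := by gcongr; exact abs_sub _ _
      _ ≤ 4 / (r : ℝ) + 2 * (P : ℝ) / x + |E p| / x + |m * A1 - w| := by
          rw [abs_neg, h3]
          gcongr
  -- sum over `N`
  have hsum : (N.card : ℝ) * (fz a b (x / p0) - w) =
      ∑ p ∈ N, (fz a b (x / p0) - w - U p) + ∑ p ∈ N, U p := by
    rw [← Finset.sum_add_distrib, Finset.sum_congr rfl
      (fun p _ => sub_add_cancel (fz a b (x / p0) - w) (U p)), Finset.sum_const, nsmul_eq_mul]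
  have hUsum : ∑ p ∈ N, U p = (1 / (x : ℝ)) * ∑ n ∈ Icc 1 x, dn a (Om n) *
        ∑ p ∈ D, (if p ∈ N then (1 : ℝ) else 0) * (dn b (Om (n + p)) - m) := by
    simp only [hU]
    rw [← Finset.mul_sum, Finset.sum_comm]
    congr 1
    refine Finset.sum_congr rfl fun n _ => ?_
    rw [← Finset.mul_sum]
    congr 1
    have : ∀ p ∈ D, (if p ∈ N then (1 : ℝ) else 0) * (dn b (Om (n + p)) - m) =
        if p ∈ N then (dn b (Om (n + p)) - m) else 0 := by
      intro p _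
      split_ifs <;> simp
    rw [Finset.sum_congr rfl this, ← Finset.sum_filter]
    congr 1
    ext p
    simp only [Finset.mem_filter]
    exact ⟨fun h => ⟨hNsub h, h⟩, fun h => h.2⟩
  have hEsum : ∑ p ∈ N, |E p| ≤ D.card * QA x P (cc (dn a) (dn b)) := by
    have h1 : (D.card : ℝ) * QA x P (cc (dn a) (dn b)) = ∑ p ∈ D, |E p| := by
      unfold QA
      rw [← mul_assoc, mul_one_div, ← hD, div_self hDr.ne', one_mul]
    rw [h1]
    exact Finset.sum_le_sum_of_subset_of_nonneg hNsub fun _ _ _ => abs_nonneg _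
  set V := (1 / (x : ℝ)) * ∑ n ∈ Icc 1 x, dn a (Om n) *
        ∑ p ∈ D, (if p ∈ N then (1 : ℝ) else 0) * (dn b (Om (n + p)) - m) with hV
  have hQnn : 0 ≤ QA x P (cc (dn a) (dn b)) := by
    unfold QA
    positivity
  have hmain : (N.card : ℝ) * |fz a b (x / p0) - w| ≤
      N.card * (4 / (r : ℝ) + 2 * (P : ℝ) / x + |m * A1 - w|) +
        D.card * QA x P (cc (dn a) (dn b)) / x + |V| := by
    have h0 : (N.card : ℝ) * |fz a b (x / p0) - w| = |(N.card : ℝ) * (fz a b (x / p0) - w)| := by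
      rw [abs_mul, abs_of_pos hNr]
    rw [h0, hsum]
    calc |∑ p ∈ N, (fz a b (x / p0) - w - U p) + ∑ p ∈ N, U p| ≤
        |∑ p ∈ N, (fz a b (x / p0) - w - U p)| + |∑ p ∈ N, U p| := abs_add_le _ _
      _ ≤ ∑ p ∈ N, |fz a b (x / p0) - w - U p| + |V| := by
          rw [hUsum]
          gcongr
          exact Finset.abs_sum_le_sum_abs _ _
      _ ≤ ∑ p ∈ N, (4 / (r : ℝ) + 2 * (P : ℝ) / x + |E p| / x + |m * A1 - w|) + |V| := by
          gcongr with p hp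
          exact hpt p hp
      _ = N.card * (4 / (r : ℝ) + 2 * (P : ℝ) / x + |m * A1 - w|) + (∑ p ∈ N, |E p|) / x +
          |V| := by
          rw [Finset.sum_add_distrib, Finset.sum_add_distrib, Finset.sum_div]
          simp only [Finset.sum_const, nsmul_eq_mul]
          ring
      _ ≤ _ := by gcongr
  have hfin : |fz a b (x / p0) - w| ≤ (4 / (r : ℝ) + 2 * (P : ℝ) / x + |m * A1 - w|) +
      (D.card / N.card) * (QA x P (cc (dn a) (dn b)) / x) + (1 / N.card) * |V| := by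
    have : |fz a b (x / p0) - w| ≤ (N.card * (4 / (r : ℝ) + 2 * (P : ℝ) / x + |m * A1 - w|) +
        D.card * QA x P (cc (dn a) (dn b)) / x + |V|) / N.card := by
      rw [le_div_iff₀ hNr, mul_comm]
      exact hmain
    refine this.trans (le_of_eq ?_)
    field_simp
  have hr1 : (D.card : ℝ) / N.card ≤ r := by
    rw [div_le_iff₀ hNr]
    exact hDN
  have hr2 : 1 / (N.card : ℝ) ≤ r / D.card := by
    rw [div_le_div_iff₀ hNr hDr, one_mul]
    exact hDN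
  have e1 : (D.card / N.card : ℝ) * (QA x P (cc (dn a) (dn b)) / x) ≤
      r * (QA x P (cc (dn a) (dn b)) / x) := by
    gcongr
  have e2 : (1 / (N.card : ℝ)) * |V| ≤ r / D.card * |V| := by
    gcongr
  linarith

end MRU
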