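import Pool.Agent.Helper11.MRU.PDefs

/-!
# MRG-08 Rescale: from the scales `⌊x/p⌋` to all scales

`∑_{z≤X} f(z)/z ≤ 2 ∑_{x≤X} f(⌊x/p⌋)/x + 2 (1 + log (2p))` for `0 ≤ f ≤ 2`, `p ≥ 1`, `X ≥ 1`.
For `z ≥ 1` with `(z+1) p ≤ X + 1` the integers `x ∈ [z p, (z+1) p - 1] ⊆ [1, X]` have
`⌊x/p⌋ = z` and `∑ 1/x ≥ p/((z+1) p) = 1/(z+1) ≥ 1/(2z)`, and these blocks are disjoint.
For the other `z ≤ X`: `z > (X+1)/p - 1`, so `2 z ≥ z + 1 > X/p`, i.e. `z ≥ m` with
`m > X/(2p)`, `m ≥ 1`, and `∑_{m≤z≤X} 1/z ≤ 1/m + log (X/m) ≤ 1 + log (2p)`.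
-/

set_option autoImplicit false

namespace MRU

open Finset MRP

theorem rescale_harm {m : ℕ} (hm : 1 ≤ m) (X : ℕ) (hX : m ≤ X) :
    ∑ z ∈ Icc m X, (1 / (z : ℝ)) ≤ 1 / (m : ℝ) + Real.log ((X : ℝ) / m) := by
  have hm0 : (0 : ℝ) < m := by exact_mod_cast hm
  induction X, hX using Nat.le_induction with
  | base =>
    rw [Icc_self, sum_singleton, div_self hm0.ne', Real.log_one, add_zero]
  | succ X hX ih =>
    have hX0 : (0 : ℝ) < X := by exact_mod_cast (lt_of_lt_of_le hm hX)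
    rw [Finset.sum_Icc_succ_top (by omega)]
    have h1 : Real.log (((X + 1 : ℕ) : ℝ) / m) = Real.log ((X : ℝ) / m) +
        Real.log (((X + 1 : ℕ) : ℝ) / X) := by
      rw [← Real.log_mul (by positivity) (by positivity)]
      congr 1
      field_simp
    have h2 : (1 : ℝ) / ((X + 1 : ℕ) : ℝ) ≤ Real.log (((X + 1 : ℕ) : ℝ) / X) := by
      have h3 := Real.one_sub_inv_le_log_of_pos (x := ((X + 1 : ℕ) : ℝ) / X) (by positivity)
      have h4 : 1 - (((X + 1 : ℕ) : ℝ) / X)⁻¹ = 1 / ((X + 1 : ℕ) : ℝ) := by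
        push_cast
        field_simp
        ring
      linarith
    rw [h1]
    linarith

theorem rescale (f : ℕ → ℝ) (hf0 : ∀ z, 0 ≤ f z) (hf2 : ∀ z, f z ≤ 2) {p X : ℕ} (hp : 1 ≤ p)
    (hX : 1 ≤ X) :
    ∑ z ∈ Icc 1 X, (1 / (z : ℝ)) * f z ≤
      2 * (∑ x ∈ Icc 1 X, (1 / (x : ℝ)) * f (x / p)) + 2 * (1 + Real.log (2 * p)) := by
  classical
  have hp0 : (0 : ℝ) < p := by exact_mod_cast hp
  have hX0 : (0 : ℝ) < X := by exact_mod_cast hX
  rw [← Finset.sum_filter_add_sum_filter_not (Icc 1 X) (fun z => (z + 1) * p ≤ X + 1)]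
  have hA : ∑ z ∈ (Icc 1 X).filter (fun z => (z + 1) * p ≤ X + 1), (1 / (z : ℝ)) * f z ≤
      2 * (∑ x ∈ Icc 1 X, (1 / (x : ℝ)) * f (x / p)) := by
    have h1 : ∑ z ∈ range (X + 1), ∑ x ∈ (Icc 1 X).filter (fun x => x / p = z),
        (1 / (x : ℝ)) * f (x / p) = ∑ x ∈ Icc 1 X, (1 / (x : ℝ)) * f (x / p) := by
      apply Finset.sum_fiberwise_of_maps_to
      intro x hx
      rw [mem_Icc] at hx
      rw [mem_range]
      exact lt_of_le_of_lt (Nat.div_le_self x p) (by omega)
    have h2 : ∑ z ∈ (Icc 1 X).filter (fun z => (z + 1) * p ≤ X + 1),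
        ∑ x ∈ (Icc 1 X).filter (fun x => x / p = z), (1 / (x : ℝ)) * f (x / p) ≤
        ∑ z ∈ range (X + 1), ∑ x ∈ (Icc 1 X).filter (fun x => x / p = z),
        (1 / (x : ℝ)) * f (x / p) := by
      apply Finset.sum_le_sum_of_subset_of_nonneg
      · intro z hz
        rw [mem_filter, mem_Icc] at hz
        rw [mem_range]
        omega
      · intro z _ _
        apply Finset.sum_nonneg
        intro x _
        exact mul_nonneg (by positivity) (hf0 _)
    rw [← h1]
    refine le_trans ?_ (mul_le_mul_of_nonneg_left h2 (by norm_num))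
    rw [mul_sum]
    apply Finset.sum_le_sum
    intro z hz
    rw [mem_filter, mem_Icc] at hz
    obtain ⟨⟨hz1, _⟩, hz3⟩ := hz
    have hz0 : (0 : ℝ) < z := by exact_mod_cast hz1
    have h3 : ∑ x ∈ Ico (z * p) (z * p + p), (1 / (x : ℝ)) * f (x / p) ≤
        ∑ x ∈ (Icc 1 X).filter (fun x => x / p = z), (1 / (x : ℝ)) * f (x / p) := by
      apply Finset.sum_le_sum_of_subset_of_nonneg
      · intro x hx
        rw [mem_Ico] at hx
        rw [mem_filter, mem_Icc]
        have h5 : z * p + p = (z + 1) * p := by ring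
        have h6 : 1 ≤ z * p := Nat.mul_pos hz1 hp
        refine ⟨⟨by omega, by omega⟩, ?_⟩
        rw [Nat.div_eq_iff (by omega)]
        constructor
        · exact hx.1
        · omega
      · intro x _ _
        exact mul_nonneg (by positivity) (hf0 _)
    have h4 : (1 / ((z : ℝ) + 1)) * f z ≤
        ∑ x ∈ Ico (z * p) (z * p + p), (1 / (x : ℝ)) * f (x / p) := by
      have h5 : ∀ x ∈ Ico (z * p) (z * p + p), (1 / (((z : ℝ) + 1) * p)) * f z ≤
          (1 / (x : ℝ)) * f (x / p) := by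
        intro x hx
        rw [mem_Ico] at hx
        have h6 : x / p = z := by
          rw [Nat.div_eq_iff (by omega)]
          constructor
          · exact hx.1
          · omega
        rw [h6]
        apply mul_le_mul_of_nonneg_right _ (hf0 z)
        have h7 : (1 : ℝ) ≤ x := by
          have h8 : 1 ≤ z * p := Nat.mul_pos hz1 hp
          exact_mod_cast le_trans h8 hx.1
        apply one_div_le_one_div_of_le (by linarith)
        have h9 : (x : ℝ) ≤ ((z * p + p : ℕ) : ℝ) := by exact_mod_cast hx.2.le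
        push_cast at h9
        linarith
      have h6 := Finset.card_nsmul_le_sum _ _ _ h5
      rw [Nat.card_Ico, Nat.add_sub_cancel_left, nsmul_eq_mul] at h6
      refine le_trans (le_of_eq ?_) h6
      field_simp
    have h5 : (1 / (z : ℝ)) ≤ 2 * (1 / ((z : ℝ) + 1)) := by
      have h6 : (1 : ℝ) ≤ z := by exact_mod_cast hz1
      rw [mul_one_div, div_le_div_iff₀ hz0 (by linarith)]
      linarith
    calc (1 / (z : ℝ)) * f z ≤ (2 * (1 / ((z : ℝ) + 1))) * f z :=
          mul_le_mul_of_nonneg_right h5 (hf0 z)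
      _ = 2 * ((1 / ((z : ℝ) + 1)) * f z) := by ring
      _ ≤ 2 * ∑ x ∈ (Icc 1 X).filter (fun x => x / p = z), (1 / (x : ℝ)) * f (x / p) := by
          linarith [h3, h4]
  have hB : ∑ z ∈ (Icc 1 X).filter (fun z => ¬ (z + 1) * p ≤ X + 1), (1 / (z : ℝ)) * f z ≤
      2 * (1 + Real.log (2 * p)) := by
    set m : ℕ := X / (2 * p) + 1 with hm
    have hm1 : 1 ≤ m := Nat.le_add_left 1 _
    have hm0 : (0 : ℝ) < m := by exact_mod_cast hm1
    have h0 : (0 : ℝ) ≤ Real.log (2 * p) := by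
      apply Real.log_nonneg
      have h6 : (1 : ℝ) ≤ p := by exact_mod_cast hp
      linarith
    have h1 : ∑ z ∈ (Icc 1 X).filter (fun z => ¬ (z + 1) * p ≤ X + 1), (1 / (z : ℝ)) * f z ≤
        ∑ z ∈ Icc m X, (1 / (z : ℝ)) * f z := by
      apply Finset.sum_le_sum_of_subset_of_nonneg
      · intro z hz
        rw [mem_filter, mem_Icc] at hz
        obtain ⟨⟨hz1, hz2⟩, hz3⟩ := hz
        rw [mem_Icc]
        refine ⟨?_, hz2⟩
        have h4 : X < z * (2 * p) := by nlinarith
        have h5 : X / (2 * p) < z := Nat.div_lt_of_lt_mul (by linarith [h4, mul_comm z (2 * p)])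
        omega
      · intro z _ _
        exact mul_nonneg (by positivity) (hf0 _)
    refine le_trans h1 ?_
    have h2 : ∑ z ∈ Icc m X, (1 / (z : ℝ)) * f z ≤ 2 * ∑ z ∈ Icc m X, (1 / (z : ℝ)) := by
      rw [mul_sum]
      apply Finset.sum_le_sum
      intro z _
      rw [mul_comm]
      exact mul_le_mul_of_nonneg_right (hf2 z) (by positivity)
    refine le_trans h2 ?_
    rcases le_or_gt m X with h3 | h3
    · have h4 := rescale_harm hm1 X h3
      have h5 : (1 : ℝ) / m ≤ 1 := by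
        rw [div_le_one hm0]
        exact_mod_cast hm1
      have h6 : Real.log ((X : ℝ) / m) ≤ Real.log (2 * p) := by
        apply Real.log_le_log (by positivity)
        rw [div_le_iff₀ hm0]
        have h7 : X < 2 * p * m := by
          rw [hm]
          exact Nat.lt_mul_div_succ X (by omega)
        have h8 : (X : ℝ) < ((2 * p * m : ℕ) : ℝ) := by exact_mod_cast h7
        push_cast at h8
        linarith
      linarith
    · rw [Icc_eq_empty (by omega), sum_empty]
      linarith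
  linarith

end MRU
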