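import Pool.Agent.Helper11.MRU.PointW
import Pool.Agent.Helper11.MRU.Pigeon
import Pool.Agent.Helper11.MRU.CircU
import Pool.Agent.Helper11.MRU.MainT
import Pool.Agent.Helper11.MRU.Rescale

/-!
# MRG-09 Pst01: `PSTAR` for `0/1` valued functions

Given `ε` (w.l.o.g. `ε ≤ 1`).  Let `r = ⌈64/ε⌉`, so `4/r ≤ ε/16`.  `CircU` with
`ε1 = ε/(16 r)` gives `Pc`.  `scaleEnt` with `ε2 = ε/(16 r)` and `P0 = max Pc 1` gives
`P1, X1`; the thresholds `X0(P)` of `CircU` for `P ≤ P1` are finitely many.  Let `X` be large,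
`a, b` given, `c = cc (dn a) (dn b)`; take `P ∈ [P0, P1]` from `scaleEnt`, `p0` from `pigeon`
(`dyP P` is nonempty by `Nat.exists_prime_lt_and_le_two_mul`), `m = mX X (dn b)`,
`w = mX X a * mX X b`, `f z = |fz a b z - w| ≤ 2`.
For `x ≥ x0 := 2 P1 (r+2)` and `x ≥ X^(ε/32)`, `pointW` bounds `f (x/p0)`; for the other `x` use
`f ≤ 2`: `∑_{x < x0} 1/x ≤ x0`, `∑_{x < X^(ε/32)} 1/x ≤ 1 + (ε/32) log X`.  Sum with the weights
`1/x`, total mass `LS X ≤ 1 + log X`:
`∑ (1/x) f(x/p0) ≤ (4/r + ε/16)(1 + log X) + ∑_x 2P/x^2 + r ε2 log X + (r/|D|) ε1 |D| log X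
  + 2 x0 + 2 (1 + (ε/32) log X)` with the main term `≤ ε/16` from `mainT (ε/32)`;
`∑_x 2P/x^2 ≤ 4 P1`.  So `≤ (ε/16)(5) log X + C(ε) ≤ (3ε/8) log X` for large `X`, and `rescale`
gives `∑_z f(z)/z ≤ (3ε/4) log X + 2 (1 + log (4 P1)) ≤ ε log X`.
-/

set_option autoImplicit false

namespace MRU

open Finset MRP

private theorem p01_sq (X : ℕ) : ∑ x ∈ Icc 1 X, (1 / (x : ℝ)) * (1 / (x : ℝ)) ≤ 2 := by
  have h : ∀ Y : ℕ, 1 ≤ Y → ∑ x ∈ Icc 1 Y, (1 / (x : ℝ)) * (1 / (x : ℝ)) ≤ 2 - 1 / (Y : ℝ) := by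
    intro Y hY
    induction Y, hY using Nat.le_induction with
    | base => simp; norm_num
    | succ n hn ih =>
      rw [Finset.sum_Icc_succ_top (by omega)]
      have hn1 : (1 : ℝ) ≤ n := by exact_mod_cast hn
      push_cast
      have h2 : 1 / ((n : ℝ) + 1) * (1 / ((n : ℝ) + 1)) ≤ 1 / (n : ℝ) - 1 / ((n : ℝ) + 1) := by
        have h3 : 1 / (n : ℝ) - 1 / ((n : ℝ) + 1) = 1 / ((n : ℝ) * ((n : ℝ) + 1)) := by
          field_simp
          ring
        rw [h3, ← one_div_mul_one_div]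
        have h4 : 1 / ((n : ℝ) + 1) ≤ 1 / (n : ℝ) :=
          one_div_le_one_div_of_le (by linarith) (by linarith)
        exact mul_le_mul_of_nonneg_right h4 (by positivity)
      linarith
  rcases Nat.eq_zero_or_pos X with h0 | h0
  · subst h0; simp
  · have h2 := h X h0
    have h3 : (0 : ℝ) ≤ 1 / (X : ℝ) := by positivity
    linarith

private theorem p01_small (X x0 : ℕ) :
    ∑ x ∈ Icc 1 X, (1 / (x : ℝ)) * (if x < x0 then (2 : ℝ) else 0) ≤ 2 * x0 := by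
  have h1 : ∑ x ∈ Icc 1 X, (1 / (x : ℝ)) * (if x < x0 then (2 : ℝ) else 0) ≤
      ∑ x ∈ Icc 1 X, (if x < x0 then (2 : ℝ) else 0) := by
    refine Finset.sum_le_sum fun x hx => ?_
    have hx1 := (Finset.mem_Icc.1 hx).1
    have hxR : (1 : ℝ) ≤ x := by exact_mod_cast hx1
    have h2 : 1 / (x : ℝ) ≤ 1 := by
      rw [div_le_one (by linarith)]
      exact hxR
    have h3 : (0 : ℝ) ≤ (if x < x0 then (2 : ℝ) else 0) := by split_ifs <;> norm_num
    calc (1 / (x : ℝ)) * (if x < x0 then (2 : ℝ) else 0)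
        ≤ 1 * (if x < x0 then (2 : ℝ) else 0) := mul_le_mul_of_nonneg_right h2 h3
      _ = _ := one_mul _
  refine h1.trans ?_
  rw [← Finset.sum_filter, Finset.sum_const, nsmul_eq_mul, mul_comm]
  have h3 : ((Icc 1 X).filter (fun x => x < x0)).card ≤ (range x0).card := by
    refine Finset.card_le_card fun x hxm => ?_
    rw [Finset.mem_range]
    exact (Finset.mem_filter.1 hxm).2
  rw [Finset.card_range] at h3
  have h4 : (((Icc 1 X).filter (fun x => x < x0)).card : ℝ) ≤ x0 := by exact_mod_cast h3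
  linarith

private theorem p01_pow {X : ℕ} (hX : 1 ≤ X) {δ : ℝ} (hδ : 0 < δ) :
    ∑ x ∈ Icc 1 X, (1 / (x : ℝ)) * (if (x : ℝ) < (X : ℝ) ^ δ then (2 : ℝ) else 0) ≤
      2 * (1 + δ * Real.log X) := by
  have hXR : (1 : ℝ) ≤ X := by exact_mod_cast hX
  set Y : ℕ := ⌊(X : ℝ) ^ δ⌋₊ with hY
  have hpow1 : (1 : ℝ) ≤ (X : ℝ) ^ δ := Real.one_le_rpow hXR hδ.le
  have hY1 : 1 ≤ Y := by
    rw [hY]
    exact Nat.le_floor (by simpa using hpow1)
  have hYle : (Y : ℝ) ≤ (X : ℝ) ^ δ := Nat.floor_le (by linarith)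
  have h1 : ∑ x ∈ Icc 1 X, (1 / (x : ℝ)) * (if (x : ℝ) < (X : ℝ) ^ δ then (2 : ℝ) else 0) ≤
      2 * LS Y := by
    have h2 : ∀ x ∈ Icc 1 X, (1 / (x : ℝ)) * (if (x : ℝ) < (X : ℝ) ^ δ then (2 : ℝ) else 0) =
        (if (x : ℝ) < (X : ℝ) ^ δ then 2 * (1 / (x : ℝ)) else 0) := by
      intro x _
      split_ifs
      · ring
      · ring
    rw [Finset.sum_congr rfl h2, ← Finset.sum_filter, ← Finset.mul_sum]
    refine mul_le_mul_of_nonneg_left ?_ (by norm_num)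
    unfold LS
    refine Finset.sum_le_sum_of_subset_of_nonneg ?_ fun x _ _ => by positivity
    intro x hx
    rw [Finset.mem_filter, Finset.mem_Icc] at hx
    rw [Finset.mem_Icc]
    exact ⟨hx.1.1, Nat.le_floor hx.2.le⟩
  have h3 : LS Y ≤ 1 + Real.log Y := MRA.LS_le hY1
  have h4 : Real.log Y ≤ δ * Real.log X := by
    have hY0 : (0 : ℝ) < Y := by exact_mod_cast hY1
    have h5 := Real.log_le_log hY0 hYle
    rwa [Real.log_rpow (by linarith)] at h5
  linarith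

private theorem p01_fz (a b : ℕ → ℝ) (ha : ∀ m, |a m| ≤ 1) (hb : ∀ m, |b m| ≤ 1) (z : ℕ) :
    |fz a b z| ≤ 1 := by
  unfold fz
  have h1 : |∑ n ∈ Icc 1 z, a (Om n) * b (Om (n + 1))| ≤ z := by
    refine (Finset.abs_sum_le_sum_abs _ _).trans ?_
    have h2 : ∑ n ∈ Icc 1 z, |a (Om n) * b (Om (n + 1))| ≤ ∑ _n ∈ Icc 1 z, (1 : ℝ) := by
      refine Finset.sum_le_sum fun n _ => ?_
      rw [abs_mul]
      have := mul_le_mul (ha (Om n)) (hb (Om (n + 1))) (abs_nonneg _) zero_le_one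
      linarith
    refine h2.trans ?_
    simp
  rw [abs_mul, abs_of_nonneg (by positivity)]
  rcases Nat.eq_zero_or_pos z with h0 | h0
  · subst h0; simp
  · have hz : (0 : ℝ) < z := by exact_mod_cast h0
    rw [one_div, inv_mul_le_iff₀ hz, mul_one]
    exact h1

private theorem p01_ab (a : ℕ → ℝ) (ha : ∀ m, a m = 0 ∨ a m = 1) (m : ℕ) : |a m| ≤ 1 := by
  rcases ha m with h | h <;> rw [h] <;> norm_num

theorem pst01 (hC : CIRCS) (h0 : LAW0) (h1 : LAW1) : PST01 := by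
  classical
  intro ε hε
  set e : ℝ := min ε 1 with he
  have he0 : 0 < e := lt_min hε one_pos
  have he1 : e ≤ 1 := min_le_right _ _
  have hee : e ≤ ε := min_le_left _ _
  set r : ℕ := ⌈64 / e⌉₊ with hr
  have hrR : 64 / e ≤ (r : ℝ) := Nat.le_ceil _
  have hrpos : (0 : ℝ) < r := lt_of_lt_of_le (by positivity) hrR
  have hr1 : 1 ≤ r := by
    have : 0 < r := by exact_mod_cast hrpos
    exact this
  have h4r : 4 / (r : ℝ) ≤ e / 16 := by
    rw [div_le_iff₀ he0] at hrR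
    rw [div_le_iff₀ hrpos]
    linarith
  have hε1 : 0 < e / (16 * (r : ℝ)) := by positivity
  obtain ⟨Pc, hPc⟩ := circU hC (e / (16 * (r : ℝ))) hε1
  obtain ⟨P1, X1, hsc⟩ := scaleEnt (e / (16 * (r : ℝ))) hε1 (max Pc 1)
  choose! T hT using hPc
  obtain ⟨X3, hX3⟩ := mainT h0 h1 (e / 32) (by positivity)
  set x0 : ℕ := 2 * P1 * (r + 2) with hx0
  set K : ℝ := 2 * (3 + 4 * (P1 : ℝ) + 2 * x0) + 2 + 8 * P1 with hK
  have hP1R : (0 : ℝ) ≤ P1 := Nat.cast_nonneg _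
  have hx0R : (0 : ℝ) ≤ x0 := Nat.cast_nonneg _
  have hKpos : 0 < K := by positivity
  set X2 : ℕ := ∑ P ∈ range (P1 + 1), T P with hX2
  have hX2T : ∀ P, P ≤ P1 → T P ≤ X2 := by
    intro P hP
    rw [hX2]
    exact Finset.single_le_sum (f := T) (fun i _ => Nat.zero_le _)
      (Finset.mem_range.2 (by omega))
  refine ⟨max (max 1 X1) (max (max X2 X3) ⌈Real.exp (3 * K / e)⌉₊), fun X hX a b ha hb => ?_⟩
  have hX1 : 1 ≤ X := le_trans (le_trans (le_max_left _ _) (le_max_left _ _)) hX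
  have hXX1 : X1 ≤ X := le_trans (le_trans (le_max_right _ _) (le_max_left _ _)) hX
  have hXX2 : X2 ≤ X :=
    le_trans (le_trans (le_max_left _ _) (le_trans (le_max_left _ _) (le_max_right _ _))) hX
  have hXX3 : X3 ≤ X :=
    le_trans (le_trans (le_max_right _ _) (le_trans (le_max_left _ _) (le_max_right _ _))) hX
  have hXe : ⌈Real.exp (3 * K / e)⌉₊ ≤ X :=
    le_trans (le_trans (le_max_right _ _) (le_max_right _ _)) hX
  have hXpos : (0 : ℝ) < X := by exact_mod_cast hX1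
  have hL : 3 * K / e ≤ Real.log X := by
    rw [Real.le_log_iff_exp_le hXpos]
    exact (Nat.le_ceil _).trans (by exact_mod_cast hXe)
  have hL0 : 0 ≤ Real.log X := Real.log_nonneg (by exact_mod_cast hX1)
  have hL' : 3 * K ≤ e * Real.log X := by
    rw [div_le_iff₀ he0] at hL
    linarith
  have haa := p01_ab a ha
  have hbb := p01_ab b hb
  obtain ⟨P, hP0, hPP1, hQ⟩ := hsc X hXX1 (cc (dn a) (dn b))
  have hPPc : Pc ≤ P := le_trans (le_max_left _ _) hP0
  have hP1 : 1 ≤ P := le_trans (le_max_right _ _) hP0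
  have hD : (dyP P).Nonempty := by
    obtain ⟨p, hp, hp1, hp2⟩ := Nat.exists_prime_lt_and_le_two_mul P (by omega)
    exact ⟨p, Finset.mem_filter.2 ⟨Finset.mem_Ioc.2 ⟨hp1, hp2⟩, hp⟩⟩
  have hDpos : (0 : ℝ) < ((dyP P).card : ℝ) := by
    exact_mod_cast Finset.card_pos.2 hD
  obtain ⟨p0, hp0, hN⟩ := pigeon hr1 hD
  have hp0' := Finset.mem_Ioc.1 (Finset.mem_filter.1 hp0).1
  have hPR : (P : ℝ) ≤ P1 := by exact_mod_cast hPP1
  have hPR0 : (0 : ℝ) ≤ P := Nat.cast_nonneg _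
  have hp0le : (p0 : ℝ) ≤ 2 * P1 := by
    have h2 : (p0 : ℝ) ≤ 2 * P := by exact_mod_cast hp0'.2
    linarith
  have hp01 : 1 ≤ p0 := by omega
  set m : ℝ := mX X (dn b) with hm
  set w : ℝ := mX X a * mX X b with hw
  have hw1 : |w| ≤ 1 := by
    rw [hw, abs_mul]
    have := mul_le_mul (mX_abs hX1 a haa) (mX_abs hX1 b hbb) (abs_nonneg _) zero_le_one
    linarith
  set f : ℕ → ℝ := fun z => |fz a b z - w| with hf
  have hf0 : ∀ z, 0 ≤ f z := fun z => abs_nonneg _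
  have hf2 : ∀ z, f z ≤ 2 := by
    intro z
    simp only [hf]
    refine (abs_sub _ _).trans ?_
    have := p01_fz a b haa hbb z
    linarith
  have hcirc := hT P hPPc X ((hX2T P hPP1).trans hXX2) (fun n => dn a (Om n)) (dn b)
    (fun p => if p ∈ nbr P r p0 then (1 : ℝ) else 0) (fun n => haa _) (fun n => hbb _)
    (fun p => by split_ifs <;> norm_num)
  set G : ℕ → ℝ := fun x => |(1 / (x : ℝ)) * ∑ n ∈ Icc 1 x, dn a (Om n) *
        ∑ p ∈ dyP P, (if p ∈ nbr P r p0 then (1 : ℝ) else 0) * (dn b (Om (n + p)) - m)| with hG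
  have hcirc' : ∑ x ∈ Icc 1 X, (1 / (x : ℝ)) * G x ≤
      e / (16 * (r : ℝ)) * (dyP P).card * Real.log X := hcirc
  have hx : ∀ x ∈ Icc 1 X, (1 / (x : ℝ)) * f (x / p0) ≤
      (e / 16 + e / 32) * (1 / (x : ℝ)) + 2 * (P : ℝ) * ((1 / (x : ℝ)) * (1 / (x : ℝ))) +
      r * ((1 / (x : ℝ)) * (QA x P (cc (dn a) (dn b)) / x)) +
      (r : ℝ) / (dyP P).card * ((1 / (x : ℝ)) * G x) +
      (1 / (x : ℝ)) * (if x < x0 then (2 : ℝ) else 0) +
      (1 / (x : ℝ)) * (if (x : ℝ) < (X : ℝ) ^ (e / 32) then (2 : ℝ) else 0) := by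
    intro x hxm
    have hxm' := Finset.mem_Icc.1 hxm
    have hxR : (1 : ℝ) ≤ x := by exact_mod_cast hxm'.1
    have hxi : 0 ≤ 1 / (x : ℝ) := by positivity
    have hGnn : 0 ≤ G x := abs_nonneg _
    have hQnn : 0 ≤ QA x P (cc (dn a) (dn b)) / x := div_nonneg (QA_nonneg _ _ _) (by linarith)
    have hkey : f (x / p0) ≤ (e / 16 + e / 32) + 2 * (P : ℝ) * (1 / (x : ℝ)) +
        r * (QA x P (cc (dn a) (dn b)) / x) + (r : ℝ) / (dyP P).card * G x +
        (if x < x0 then (2 : ℝ) else 0) +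
        (if (x : ℝ) < (X : ℝ) ^ (e / 32) then (2 : ℝ) else 0) := by
      have t1 : 0 ≤ 2 * (P : ℝ) * (1 / (x : ℝ)) := by positivity
      have t2 : 0 ≤ r * (QA x P (cc (dn a) (dn b)) / x) := mul_nonneg hrpos.le hQnn
      have t3 : 0 ≤ (r : ℝ) / (dyP P).card * G x := by positivity
      have t4 : (0 : ℝ) ≤ (if x < x0 then (2 : ℝ) else 0) := by split_ifs <;> norm_num
      have t5 : (0 : ℝ) ≤ (if (x : ℝ) < (X : ℝ) ^ (e / 32) then (2 : ℝ) else 0) := by
        split_ifs <;> norm_num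
      have t0 : 0 < e / 16 + e / 32 := by positivity
      by_cases hc1 : x < x0
      · rw [if_pos hc1]
        have := hf2 (x / p0)
        linarith
      · by_cases hc2 : (x : ℝ) < (X : ℝ) ^ (e / 32)
        · rw [if_pos hc2]
          have := hf2 (x / p0)
          linarith
        · rw [if_neg hc1, if_neg hc2]
          have hxx : 2 * P * (r + 2) ≤ x := by
            have h2 : 2 * P * (r + 2) ≤ x0 := by
              rw [hx0]
              exact Nat.mul_le_mul_right _ (Nat.mul_le_mul_left _ hPP1)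
            omega
          have hpw := pointW hr1 hP1 hp0 hN hxx a b ha hb m w
          have hmain := hX3 X hXX3 x (not_lt.1 hc2) hxm'.2 a b haa hbb
          have h5 : f (x / p0) ≤ 4 / (r : ℝ) + 2 * (P : ℝ) / x +
              r * (QA x P (cc (dn a) (dn b)) / x) + (r : ℝ) / (dyP P).card * G x +
              |m * ((1 / (x : ℝ)) * ∑ n ∈ Icc 1 x, dn a (Om n)) - w| := hpw
          have h6 : |m * ((1 / (x : ℝ)) * ∑ n ∈ Icc 1 x, dn a (Om n)) - w| ≤ e / 32 := hmain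
          have h7 : 2 * (P : ℝ) / x = 2 * (P : ℝ) * (1 / (x : ℝ)) := by ring
          rw [h7] at h5
          linarith
    have hmul := mul_le_mul_of_nonneg_left hkey hxi
    refine hmul.trans (le_of_eq ?_)
    ring
  have hS : ∑ x ∈ Icc 1 X, (1 / (x : ℝ)) * f (x / p0) ≤
      (e / 16 + e / 32) * (1 + Real.log X) + 4 * P1 + e / 16 * Real.log X +
      e / 16 * Real.log X + 2 * x0 + 2 * (1 + e / 32 * Real.log X) := by
    refine (Finset.sum_le_sum hx).trans ?_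
    simp only [Finset.sum_add_distrib, ← Finset.mul_sum]
    have s1 : (e / 16 + e / 32) * ∑ x ∈ Icc 1 X, (1 / (x : ℝ)) ≤
        (e / 16 + e / 32) * (1 + Real.log X) :=
      mul_le_mul_of_nonneg_left (MRA.LS_le hX1) (by positivity)
    have s2 : 2 * (P : ℝ) * ∑ x ∈ Icc 1 X, (1 / (x : ℝ)) * (1 / (x : ℝ)) ≤ 4 * P1 := by
      have h2 : 2 * (P : ℝ) * ∑ x ∈ Icc 1 X, (1 / (x : ℝ)) * (1 / (x : ℝ)) ≤ 2 * (P : ℝ) * 2 :=
        mul_le_mul_of_nonneg_left (p01_sq X) (by positivity)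
      linarith
    have s3 : (r : ℝ) * ∑ x ∈ Icc 1 X, (1 / (x : ℝ)) * (QA x P (cc (dn a) (dn b)) / x) ≤
        e / 16 * Real.log X := by
      have h2 := mul_le_mul_of_nonneg_left hQ hrpos.le
      refine h2.trans (le_of_eq ?_)
      field_simp
    have s4 : (r : ℝ) / (dyP P).card * ∑ x ∈ Icc 1 X, (1 / (x : ℝ)) * G x ≤
        e / 16 * Real.log X := by
      have h2 := mul_le_mul_of_nonneg_left hcirc' (div_nonneg hrpos.le hDpos.le)
      refine h2.trans (le_of_eq ?_)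
      field_simp
    have s5 := p01_small X x0
    have s6 := p01_pow hX1 (δ := e / 32) (by positivity)
    linarith
  have hres := rescale f hf0 hf2 hp01 hX1
  have hlog : Real.log (2 * (p0 : ℝ)) ≤ 4 * P1 := by
    have hp0R : (1 : ℝ) ≤ p0 := by exact_mod_cast hp01
    have h2 := Real.log_le_sub_one_of_pos (x := 2 * (p0 : ℝ)) (by linarith)
    linarith
  have hfin : ∑ z ∈ Icc 1 X, (1 / (z : ℝ)) * f z ≤ ε * Real.log X := by
    have h9 : e * Real.log X ≤ ε * Real.log X := mul_le_mul_of_nonneg_right hee hL0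
    nlinarith
  exact hfin

end MRU
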