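import Pool.Agent.Helper11.MRU.PDefs

/-!
# MRU RescaleW: from the scales `⌊x/p⌋` to the scales `M` of a window

For `f ≥ 0`, `1 ≤ p ≤ R`: `∑_{A<M≤B} f(M)/M ≤ 2 ∑_{A<x≤R(B+1)} f(⌊x/p⌋)/x`, because the blocks
`[M p, (M+1) p - 1]` are disjoint subsets of `(A, R(B+1)]` and
`∑_{x in block} 1/x ≥ p/((M+1)p) ≥ 1/(2M)`.
-/

set_option autoImplicit false

namespace MRU

open Finset MRP

theorem rescaleW (f : ℕ → ℝ) (hf0 : ∀ z, 0 ≤ f z) {p R A B : ℕ} (hp : 1 ≤ p) (hpR : p ≤ R) :
    ∑ M ∈ Ioc A B, (1 / (M : ℝ)) * f M ≤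
      2 * ∑ x ∈ Ioc A (R * (B + 1)), (1 / (x : ℝ)) * f (x / p) := by
  classical
  -- group by the quotient
  have hmap : ∑ M ∈ Ioc A B, ∑ x ∈ (Ioc A (R * (B + 1))).filter (fun x => x / p = M),
      (1 / (x : ℝ)) * f (x / p) ≤ ∑ x ∈ Ioc A (R * (B + 1)), (1 / (x : ℝ)) * f (x / p) := by
    have h1 := Finset.sum_fiberwise_of_maps_to (s := (Ioc A (R * (B + 1))).filter
      (fun x => x / p ∈ Ioc A B)) (t := Ioc A B) (g := fun x => x / p)
      (fun x hx => (Finset.mem_filter.1 hx).2) (fun x => (1 / (x : ℝ)) * f (x / p))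
    have h2 : ∑ M ∈ Ioc A B, ∑ x ∈ (Ioc A (R * (B + 1))).filter (fun x => x / p = M),
        (1 / (x : ℝ)) * f (x / p) = ∑ x ∈ (Ioc A (R * (B + 1))).filter
      (fun x => x / p ∈ Ioc A B), (1 / (x : ℝ)) * f (x / p) := by
      rw [← h1]
      refine Finset.sum_congr rfl fun M hM => ?_
      refine Finset.sum_congr ?_ fun _ _ => rfl
      ext x
      simp only [Finset.mem_filter]
      constructor
      · rintro ⟨hx, he⟩
        exact ⟨⟨hx, he ▸ hM⟩, he⟩
      · rintro ⟨⟨hx, _⟩, he⟩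
        exact ⟨hx, he⟩
    rw [h2]
    refine Finset.sum_le_sum_of_subset_of_nonneg (Finset.filter_subset _ _) fun x _ _ => ?_
    exact mul_nonneg (by positivity) (hf0 _)
  have hblock : ∀ M ∈ Ioc A B, (1 / (M : ℝ)) * f M ≤
      2 * ∑ x ∈ (Ioc A (R * (B + 1))).filter (fun x => x / p = M), (1 / (x : ℝ)) * f (x / p) := by
    intro M hM
    rw [Finset.mem_Ioc] at hM
    have hM1 : 1 ≤ M := by omega
    have hMR : (1 : ℝ) ≤ M := by exact_mod_cast hM1
    have hpR' : (1 : ℝ) ≤ p := by exact_mod_cast hp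
    have hsub : Ico (M * p) ((M + 1) * p) ⊆
        (Ioc A (R * (B + 1))).filter (fun x => x / p = M) := by
      intro x hx
      rw [Finset.mem_Ico] at hx
      rw [Finset.mem_filter, Finset.mem_Ioc]
      refine ⟨⟨?_, ?_⟩, ?_⟩
      · have : M ≤ M * p := Nat.le_mul_of_pos_right M hp
        omega
      · have h1 : (M + 1) * p ≤ R * (B + 1) := by
          calc (M + 1) * p ≤ (B + 1) * R := Nat.mul_le_mul (by omega) hpR
            _ = R * (B + 1) := by ring
        omega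
      · exact Nat.div_eq_of_lt_le (by linarith [hx.1]) (by linarith [hx.2])
    have h2 : ∑ x ∈ Ico (M * p) ((M + 1) * p), (1 / (((M + 1) * p : ℕ) : ℝ)) * f M ≤
        ∑ x ∈ (Ioc A (R * (B + 1))).filter (fun x => x / p = M), (1 / (x : ℝ)) * f (x / p) := by
      have h3 : ∑ x ∈ Ico (M * p) ((M + 1) * p), (1 / (((M + 1) * p : ℕ) : ℝ)) * f M ≤
          ∑ x ∈ Ico (M * p) ((M + 1) * p), (1 / (x : ℝ)) * f (x / p) := by
        refine Finset.sum_le_sum fun x hx => ?_
        have hx' := (Finset.mem_filter.1 (hsub hx)).2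
        rw [hx']
        rw [Finset.mem_Ico] at hx
        have hx0 : (0 : ℝ) < x := by
          have : 0 < M * p := Nat.mul_pos (by omega) (by omega)
          have : 0 < x := by omega
          exact_mod_cast this
        refine mul_le_mul_of_nonneg_right ?_ (hf0 M)
        refine one_div_le_one_div_of_le hx0 ?_
        exact_mod_cast hx.2.le
      refine h3.trans (Finset.sum_le_sum_of_subset_of_nonneg hsub fun x _ _ => ?_)
      exact mul_nonneg (by positivity) (hf0 _)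
    have h4 : ∑ x ∈ Ico (M * p) ((M + 1) * p), (1 / (((M + 1) * p : ℕ) : ℝ)) * f M =
        (1 / ((M : ℝ) + 1)) * f M := by
      rw [Finset.sum_const, Nat.card_Ico, nsmul_eq_mul]
      have h5 : (M + 1) * p - M * p = p := by
        rw [Nat.add_mul, one_mul]; omega
      rw [h5]
      push_cast
      field_simp
    rw [h4] at h2
    have h6 : (1 / (M : ℝ)) * f M ≤ 2 * ((1 / ((M : ℝ) + 1)) * f M) := by
      have h7 : 1 / (M : ℝ) ≤ 2 * (1 / ((M : ℝ) + 1)) := by
        rw [div_le_iff₀ (by linarith), mul_one_div, div_mul_eq_mul_div, le_div_iff₀ (by linarith)]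
        linarith
      have := mul_le_mul_of_nonneg_right h7 (hf0 M)
      linarith
    linarith
  calc ∑ M ∈ Ioc A B, (1 / (M : ℝ)) * f M
      ≤ ∑ M ∈ Ioc A B, 2 * ∑ x ∈ (Ioc A (R * (B + 1))).filter (fun x => x / p = M),
        (1 / (x : ℝ)) * f (x / p) := Finset.sum_le_sum hblock
    _ = 2 * ∑ M ∈ Ioc A B, ∑ x ∈ (Ioc A (R * (B + 1))).filter (fun x => x / p = M),
        (1 / (x : ℝ)) * f (x / p) := by rw [Finset.mul_sum]
    _ ≤ _ := mul_le_mul_of_nonneg_left hmap (by norm_num)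

/-- `∑_{A<x≤B} 1/x ≤ log (B/A)` for `1 ≤ A`. -/
theorem sum_Ioc_inv {A B : ℕ} (hA : 1 ≤ A) (hAB : A ≤ B) :
    ∑ x ∈ Ioc A B, (1 / (x : ℝ)) ≤ Real.log ((B : ℝ) / A) := by
  induction B, hAB using Nat.le_induction with
  | base =>
    have hA0 : (A : ℝ) ≠ 0 := by
      have : (0 : ℝ) < A := by exact_mod_cast hA
      exact this.ne'
    simp [div_self hA0]
  | succ n hn ih =>
    rw [Finset.sum_Ioc_succ_top (by omega)]
    have hA0 : (0 : ℝ) < A := by exact_mod_cast hA
    have hn0 : (0 : ℝ) < n := by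
      have : 0 < n := by omega
      exact_mod_cast this
    have h1 : Real.log (((n + 1 : ℕ) : ℝ) / A) =
        Real.log ((n : ℝ) / A) + Real.log (((n : ℝ) + 1) / n) := by
      rw [← Real.log_mul (by positivity) (by positivity)]
      congr 1
      push_cast
      field_simp
    have h2 : 1 / (((n + 1 : ℕ) : ℝ)) ≤ Real.log (((n : ℝ) + 1) / n) := by
      have h3 := Real.one_sub_inv_le_log_of_pos (x := ((n : ℝ) + 1) / n) (by positivity)
      have h4 : 1 - (((n : ℝ) + 1) / n)⁻¹ = 1 / ((n : ℝ) + 1) := by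
        field_simp
        ring
      push_cast
      linarith
    rw [h1]
    linarith

end MRU
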