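import Pool.Agent.Helper11.MRU.ScaleAvg

/-!
# MRU ScaleW: a common good scale `P` for arbitrary weights on scales `x ≥ x0`

The word `c x` may depend on the scale `x`.
-/

set_option autoImplicit false

namespace MRU

open Finset MRP
open MRA (word res bo g1 g2 fp MP seqP cheb seqP_ge seqP_div seqP_mono)

theorem scaleEntW (ε : ℝ) (hε : 0 < ε) (P0 : ℕ) : ∃ P1 x0 : ℕ, 1 ≤ x0 ∧
    ∀ (W : Finset ℕ) (w : ℕ → ℝ) (c : ℕ → ℕ → Bool × Bool), (∀ x ∈ W, x0 ≤ x) →
      (∀ x ∈ W, 0 ≤ w x) → ∃ P : ℕ, P0 ≤ P ∧ P ≤ P1 ∧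
        ∑ x ∈ W, w x * (QA x P (c x) / x) ≤ ε * ∑ x ∈ W, w x := by
  classical
  obtain ⟨K, C, hK0, hC0, Pstar, hP3, hbad⟩ := bad (ε / 4) (by positivity)
  set Q0 : ℕ := max P0 Pstar with hQ0
  have hQ03 : 3 ≤ Q0 := hP3.trans (le_max_right _ _)
  obtain ⟨I, hI⟩ := seqP_div K hK0 Q0 hQ03 (8 * C / ε + 1)
  obtain ⟨x0, hx0⟩ := hbad Q0 (le_max_right _ _) I
  set Q : ℕ → ℕ := seqP K Q0 with hQ
  set S : ℝ := ∑ i ∈ range I, 1 / Real.log (Q i) with hS
  have hL : ∀ i, 0 < Real.log (Q i) := by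
    intro i
    apply Real.log_pos
    have : 3 ≤ Q i := hQ03.trans (seqP_ge K Q0 i)
    have h2 : (3 : ℝ) ≤ (Q i : ℝ) := by exact_mod_cast this
    linarith
  have hS1 : 8 * C / ε + 1 ≤ S := hI
  have hSpos : 0 < S := by
    have : 0 < 8 * C / ε + 1 := by positivity
    linarith
  have hSC : 8 * C ≤ ε * S := by
    have h1 : 8 * C / ε ≤ S := by linarith
    rw [div_le_iff₀ hε] at h1
    linarith
  refine ⟨Q I, max 1 x0, le_max_left _ _, fun W w c hW hw0 => ?_⟩
  set T : ℝ := ∑ x ∈ W, w x with hT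
  have hT0 : 0 ≤ T := Finset.sum_nonneg hw0
  have hx : ∀ x ∈ W, ∑ i ∈ range I, (1 / Real.log (Q i)) * (QA x (Q i) (c x) / x) ≤
      ε / 2 * S := by
    intro x hxW
    have hx1 : 1 ≤ x := le_trans (le_max_left _ _) (hW x hxW)
    have hxx0 : x0 ≤ x := le_trans (le_max_right _ _) (hW x hxW)
    have hxpos : (0 : ℝ) < x := by exact_mod_cast hx1
    have hB := hx0 x hxx0 (c x)
    have h0 : ∑ i ∈ range I, (1 / Real.log (Q i)) * (QA x (Q i) (c x) / x) ≤
        ε / 4 * S + 2 * ∑ i ∈ range I,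
          (if ε / 4 * x < QA x (Q i) (c x) then 1 / Real.log (Q i) else 0) := by
      rw [hS, Finset.mul_sum, Finset.mul_sum, ← Finset.sum_add_distrib]
      refine Finset.sum_le_sum fun i _ => ?_
      have hw : 0 < 1 / Real.log (Q i) := by have := hL i; positivity
      by_cases hb : ε / 4 * x < QA x (Q i) (c x)
      · rw [if_pos hb]
        have h2 : QA x (Q i) (c x) / x ≤ 2 := by
          rw [div_le_iff₀ hxpos]
          exact QA_le x (Q i) (c x)
        have h3 : (1 / Real.log (Q i)) * (QA x (Q i) (c x) / x) ≤ (1 / Real.log (Q i)) * 2 :=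
          mul_le_mul_of_nonneg_left h2 hw.le
        have h4 : 0 ≤ ε / 4 * (1 / Real.log (Q i)) := by positivity
        linarith
      · rw [if_neg hb]
        have h2 : QA x (Q i) (c x) / x ≤ ε / 4 := by
          rw [div_le_iff₀ hxpos]
          exact not_lt.1 hb
        have h3 : (1 / Real.log (Q i)) * (QA x (Q i) (c x) / x) ≤
            (1 / Real.log (Q i)) * (ε / 4) :=
          mul_le_mul_of_nonneg_left h2 hw.le
        linarith
    linarith
  have htot : ∑ i ∈ range I, (1 / Real.log (Q i)) *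
      (∑ x ∈ W, w x * (QA x (Q i) (c x) / x)) ≤ ε / 2 * S * T := by
    have h1 : ∑ i ∈ range I, (1 / Real.log (Q i)) *
        (∑ x ∈ W, w x * (QA x (Q i) (c x) / x)) =
        ∑ x ∈ W, w x *
          ∑ i ∈ range I, (1 / Real.log (Q i)) * (QA x (Q i) (c x) / x) := by
      simp only [Finset.mul_sum]
      rw [Finset.sum_comm]
      refine Finset.sum_congr rfl fun x _ => Finset.sum_congr rfl fun i _ => ?_
      ring
    rw [h1, hT, Finset.mul_sum]
    refine Finset.sum_le_sum fun x hxW => ?_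
    have := mul_le_mul_of_nonneg_left (hx x hxW) (hw0 x hxW)
    linarith
  rcases hT0.eq_or_lt with hT00 | hTpos
  · -- all weights vanish
    refine ⟨Q I, le_trans (le_max_left _ _) (seqP_ge K Q0 I), le_rfl, ?_⟩
    have hz : ∀ x ∈ W, w x = 0 := by
      intro x hxW
      exact (Finset.sum_eq_zero_iff_of_nonneg hw0).1 hT00.symm x hxW
    rw [← hT00, mul_zero]
    refine le_of_eq (Finset.sum_eq_zero fun x hxW => ?_)
    rw [hz x hxW, zero_mul]
  by_contra hcon
  push Not at hcon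
  have hall : ∀ i ∈ range I, (1 / Real.log (Q i)) * (ε * T) ≤
      (1 / Real.log (Q i)) * (∑ x ∈ W, w x * (QA x (Q i) (c x) / x)) := by
    intro i hi
    have hw : 0 < 1 / Real.log (Q i) := by have := hL i; positivity
    refine mul_le_mul_of_nonneg_left (hcon (Q i) ?_ ?_).le hw.le
    · exact le_trans (le_max_left _ _) (seqP_ge K Q0 i)
    · exact seqP_mono K Q0 (Finset.mem_range.1 hi).le
  have hlow := Finset.sum_le_sum hall
  rw [← Finset.sum_mul] at hlow
  have hlow' : S * (ε * T) ≤ ε / 2 * S * T := hlow.trans htot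
  have h5 : 0 < S * (ε * T) := by positivity
  nlinarith

end MRU
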