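import Pool.Agent.Helper11.MRU.PointW
import Pool.Agent.Helper11.MRU.Pigeon
import Pool.Agent.Helper11.MRU.ScaleW
import Pool.Agent.Helper11.MRU.RescaleW
import Pool.Agent.Helper11.MRU.MainW

/-!
# MRU Pst01W: product functions in every window, `0/1` valued functions
-/

set_option autoImplicit false

namespace MRU

open Finset MRP

/-- `PSTARw` for `0/1` valued functions. -/
def PST01w : Prop :=
  ∀ ε : ℝ, 0 < ε → ∃ K0 : ℕ, 1 ≤ K0 ∧ ∀ N K : ℕ, K0 ≤ K → K ≤ N → ∀ a b : ℕ → ℝ,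
    (∀ m, a m = 0 ∨ a m = 1) → (∀ m, b m = 0 ∨ b m = 1) →
      ∑ M ∈ Finset.Ioc (N / K) N, (1 / (M : ℝ)) * |fz a b M - mx M a * mx M b| ≤
        ε * Real.log K

theorem fz_abs (a b : ℕ → ℝ) (ha : ∀ m, |a m| ≤ 1) (hb : ∀ m, |b m| ≤ 1) (z : ℕ) :
    |fz a b z| ≤ 1 := by
  unfold fz
  have h1 : |∑ n ∈ Icc 1 z, a (Om n) * b (Om (n + 1))| ≤ z := by
    refine (Finset.abs_sum_le_sum_abs _ _).trans ?_
    have h2 : ∑ n ∈ Icc 1 z, |a (Om n) * b (Om (n + 1))| ≤ ∑ _n ∈ Icc 1 z, (1 : ℝ) := by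
      refine Finset.sum_le_sum fun n _ => ?_
      rw [abs_mul]
      have := mul_le_mul (ha (Om n)) (hb (Om (n + 1))) (abs_nonneg _) zero_le_one
      linarith
    refine h2.trans ?_
    simp
  rw [abs_mul, abs_of_nonneg (by positivity)]
  rcases Nat.eq_zero_or_pos z with h0 | h0
  · subst h0; simp
  · have hz : (0 : ℝ) < z := by exact_mod_cast h0
    rw [one_div, inv_mul_le_iff₀ hz, mul_one]
    exact h1

theorem abs_of_01 (a : ℕ → ℝ) (ha : ∀ m, a m = 0 ∨ a m = 1) (m : ℕ) : |a m| ≤ 1 := by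
  rcases ha m with h | h <;> rw [h] <;> norm_num

/-- The mass of the enlarged window. -/
theorem window_mass {N K R : ℕ} (hK : 1 ≤ K) (hKN : K ≤ N) (hR : 1 ≤ R) :
    ∑ x ∈ Ioc (N / K) (R * (N + 1)), (1 / (x : ℝ)) ≤ Real.log (4 * R) + Real.log K := by
  have hA : 1 ≤ N / K := Nat.div_pos hKN hK
  have hN1 : 1 ≤ N := hK.trans hKN
  have hAB : N / K ≤ R * (N + 1) := by
    calc N / K ≤ N := Nat.div_le_self _ _
      _ ≤ 1 * (N + 1) := by omega
      _ ≤ R * (N + 1) := Nat.mul_le_mul_right _ hR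
  refine (sum_Ioc_inv hA hAB).trans ?_
  have hKR : (1 : ℝ) ≤ K := by exact_mod_cast hK
  have hRR : (1 : ℝ) ≤ R := by exact_mod_cast hR
  have hNR : (1 : ℝ) ≤ N := by exact_mod_cast hN1
  have hAR : (1 : ℝ) ≤ ((N / K : ℕ) : ℝ) := by exact_mod_cast hA
  rw [← Real.log_mul (by positivity) (by positivity)]
  refine Real.log_le_log (by positivity) ?_
  rw [div_le_iff₀ (by linarith)]
  have h1 : (N : ℝ) < ((N / K : ℕ) : ℝ) * K + K := by
    have h3 := Nat.lt_div_mul_add (a := N) (b := K) (by omega)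
    exact_mod_cast h3
  have h2 : (N : ℝ) ≤ 2 * K * ((N / K : ℕ) : ℝ) := by nlinarith
  push_cast
  have h3 : (N : ℝ) + 1 ≤ 2 * N := by linarith
  have h4 : (R : ℝ) * (N + 1) ≤ R * (2 * N) := mul_le_mul_of_nonneg_left h3 (by linarith)
  have h5 : (R : ℝ) * (2 * N) ≤ R * (2 * (2 * K * ((N / K : ℕ) : ℝ))) := by
    refine mul_le_mul_of_nonneg_left ?_ (by linarith)
    linarith
  calc (R : ℝ) * (N + 1) ≤ R * (2 * (2 * K * ((N / K : ℕ) : ℝ))) := h4.trans h5
    _ = 4 * R * K * ((N / K : ℕ) : ℝ) := by ring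

theorem pst01w (hC : CIRCx) (hl : LAW1x) : PST01w := by
  classical
  intro ε hε
  set e : ℝ := min ε 1 with he
  have he0 : 0 < e := lt_min hε one_pos
  have he1 : e ≤ 1 := min_le_right _ _
  have hee : e ≤ ε := min_le_left _ _
  set r : ℕ := ⌈256 / e⌉₊ with hr
  have hrR : 256 / e ≤ (r : ℝ) := Nat.le_ceil _
  have hrpos : (0 : ℝ) < r := lt_of_lt_of_le (by positivity) hrR
  have hr1 : 1 ≤ r := by
    have : 0 < r := by exact_mod_cast hrpos
    exact this
  have h4r : 4 / (r : ℝ) ≤ e / 64 := by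
    rw [div_le_iff₀ he0] at hrR
    rw [div_le_iff₀ hrpos]
    linarith
  have hε1 : 0 < e / (64 * (r : ℝ)) := by positivity
  obtain ⟨Pc, hPc⟩ := hC (e / (64 * (r : ℝ))) hε1
  obtain ⟨P1, X1, hX11, hsc⟩ := scaleEntW (e / (64 * (r : ℝ))) hε1 (max Pc 1)
  choose! T hT using hPc
  obtain ⟨X3, hX3⟩ := mainW hl (e / 64) (by positivity) (2 * P1)
  have hP1R : (0 : ℝ) ≤ P1 := Nat.cast_nonneg _
  set X2 : ℕ := ∑ P ∈ range (P1 + 1), T P with hX2
  have hX2T : ∀ P, P ≤ P1 → T P ≤ X2 := by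
    intro P hP
    rw [hX2]
    exact Finset.single_le_sum (f := T) (fun i _ => Nat.zero_le _)
      (Finset.mem_range.2 (by omega))
  set Xs : ℕ := X1 + X2 + X3 + 2 * P1 * (r + 2) + ⌈128 * (P1 : ℝ) / e⌉₊ with hXs
  have hXsR : (0 : ℝ) ≤ Xs := Nat.cast_nonneg _
  refine ⟨max 1 (max (8 * P1) ⌈Real.exp (16 * (Xs : ℝ) / e)⌉₊), le_max_left _ _,
    fun N K hK0 hKN a b ha hb => ?_⟩
  have hK1 : 1 ≤ K := le_trans (le_max_left _ _) hK0
  have hKP : 8 * P1 ≤ K := le_trans (le_trans (le_max_left _ _) (le_max_right _ _)) hK0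
  have hKe : ⌈Real.exp (16 * (Xs : ℝ) / e)⌉₊ ≤ K :=
    le_trans (le_trans (le_max_right _ _) (le_max_right _ _)) hK0
  have hKpos : (0 : ℝ) < K := by exact_mod_cast hK1
  have hL : 16 * (Xs : ℝ) / e ≤ Real.log K := by
    rw [Real.le_log_iff_exp_le hKpos]
    exact (Nat.le_ceil _).trans (by exact_mod_cast hKe)
  have hL0 : 0 ≤ Real.log K := Real.log_nonneg (by exact_mod_cast hK1)
  have hL' : 16 * (Xs : ℝ) ≤ e * Real.log K := by
    rw [div_le_iff₀ he0] at hL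
    linarith
  have haa := abs_of_01 a ha
  have hbb := abs_of_01 b hb
  set B : ℕ := 2 * P1 * (N + 1) with hB
  set W : Finset ℕ := (Ioc (N / K) B).filter (fun x => Xs ≤ x) with hW
  obtain ⟨P, hP0, hPP1, hQ⟩ := hsc W (fun x => 1 / (x : ℝ)) (fun _ => cc (dn a) (dn b))
    (fun x hx => by
      have := (Finset.mem_filter.1 hx).2
      omega) (fun x _ => by positivity)
  have hPPc : Pc ≤ P := le_trans (le_max_left _ _) hP0
  have hP1 : 1 ≤ P := le_trans (le_max_right _ _) hP0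
  have hD : (dyP P).Nonempty := by
    obtain ⟨p, hp, hp1, hp2⟩ := Nat.exists_prime_lt_and_le_two_mul P (by omega)
    exact ⟨p, Finset.mem_filter.2 ⟨Finset.mem_Ioc.2 ⟨hp1, hp2⟩, hp⟩⟩
  have hDpos : (0 : ℝ) < ((dyP P).card : ℝ) := by
    exact_mod_cast Finset.card_pos.2 hD
  obtain ⟨p0, hp0, hN⟩ := pigeon hr1 hD
  have hp0' := Finset.mem_Ioc.1 (Finset.mem_filter.1 hp0).1
  have hPR : (P : ℝ) ≤ P1 := by exact_mod_cast hPP1
  have hPR0 : (0 : ℝ) ≤ P := Nat.cast_nonneg _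
  have hp01 : 1 ≤ p0 := by omega
  have hp0R : p0 ≤ 2 * P1 := by omega
  set f : ℕ → ℝ := fun z => |fz a b z - mx z a * mx z b| with hf
  have hf0 : ∀ z, 0 ≤ f z := fun z => abs_nonneg _
  have hf2 : ∀ z, f z ≤ 2 := by
    intro z
    simp only [hf]
    refine (abs_sub _ _).trans ?_
    have h1 := fz_abs a b haa hbb z
    have h2 : |mx z a * mx z b| ≤ 1 := by
      rw [abs_mul]
      have := mul_le_mul (mx_abs z a haa) (mx_abs z b hbb) (abs_nonneg _) zero_le_one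
      linarith
    linarith
  have hx : ∀ x ∈ W, f (x / p0) ≤ e / 16 + r * (QA x P (cc (dn a) (dn b)) / x) := by
    intro x hxm
    have hxs : Xs ≤ x := (Finset.mem_filter.1 hxm).2
    have hx1 : 1 ≤ x := by omega
    have hxR : (1 : ℝ) ≤ x := by exact_mod_cast hx1
    have hxpos : (0 : ℝ) < x := by linarith
    have hxx : 2 * P * (r + 2) ≤ x := by
      have h2 : 2 * P * (r + 2) ≤ 2 * P1 * (r + 2) :=
        Nat.mul_le_mul_right _ (Nat.mul_le_mul_left _ hPP1)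
      omega
    have hpw := pointW hr1 hP1 hp0 hN hxx a b ha hb (mx x (dn b))
      (mx (x / p0) a * mx (x / p0) b)
    have hmain := hX3 x (by omega) p0 hp01 hp0R a b haa hbb
    have hcirc := hT P hPPc x ((hX2T P hPP1).trans (by omega)) (fun n => dn a (Om n))
      (fun p => if p ∈ nbr P r p0 then (1 : ℝ) else 0) (dn b) (fun n => haa _)
      (fun p => by split_ifs <;> norm_num) (fun n => hbb _)
    have hre : ∑ n ∈ Icc 1 x, dn a (Om n) * ∑ p ∈ dyP P,
        (if p ∈ nbr P r p0 then (1 : ℝ) else 0) * (dn b (Om (n + p)) - mx x (dn b)) =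
        ∑ n ∈ Icc 1 x, ∑ p ∈ dyP P, (if p ∈ nbr P r p0 then (1 : ℝ) else 0) *
          (dn a (Om n) * (dn b (Om (n + p)) - mx x (dn b))) := by
      refine Finset.sum_congr rfl fun n _ => ?_
      rw [Finset.mul_sum]
      exact Finset.sum_congr rfl fun p _ => by ring
    have hG : (r : ℝ) / (dyP P).card * |(1 / (x : ℝ)) * ∑ n ∈ Icc 1 x, dn a (Om n) *
        ∑ p ∈ dyP P, (if p ∈ nbr P r p0 then (1 : ℝ) else 0) *
          (dn b (Om (n + p)) - mx x (dn b))| ≤ e / 64 := by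
      rw [hre, abs_mul, abs_of_nonneg (by positivity : (0 : ℝ) ≤ 1 / (x : ℝ))]
      have h2 := mul_le_mul_of_nonneg_left hcirc (by positivity : (0 : ℝ) ≤ 1 / (x : ℝ))
      have h3 := mul_le_mul_of_nonneg_left h2 (div_nonneg hrpos.le hDpos.le)
      refine h3.trans (le_of_eq ?_)
      field_simp
    have h2P : 2 * (P : ℝ) / x ≤ e / 64 := by
      have h2 : 128 * (P1 : ℝ) / e ≤ x := by
        refine (Nat.le_ceil _).trans ?_
        exact_mod_cast (by omega : ⌈128 * (P1 : ℝ) / e⌉₊ ≤ x)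
      rw [div_le_iff₀ he0] at h2
      rw [div_le_iff₀ hxpos]
      linarith
    have h5 : f (x / p0) ≤ 4 / (r : ℝ) + 2 * (P : ℝ) / x +
        r * (QA x P (cc (dn a) (dn b)) / x) +
        (r : ℝ) / (dyP P).card * |(1 / (x : ℝ)) * ∑ n ∈ Icc 1 x, dn a (Om n) *
          ∑ p ∈ dyP P, (if p ∈ nbr P r p0 then (1 : ℝ) else 0) *
            (dn b (Om (n + p)) - mx x (dn b))| +
        |mx x (dn b) * ((1 / (x : ℝ)) * ∑ n ∈ Icc 1 x, dn a (Om n)) -
          mx (x / p0) a * mx (x / p0) b| := hpw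
    linarith
  -- the mass
  set Tm : ℝ := ∑ x ∈ W, (1 / (x : ℝ)) with hTm
  have hTm0 : 0 ≤ Tm := Finset.sum_nonneg fun x _ => by positivity
  have hP1pos : 1 ≤ P1 := hP1.trans hPP1
  have hmass : Tm ≤ 2 * Real.log K := by
    have h1 : Tm ≤ ∑ x ∈ Ioc (N / K) B, (1 / (x : ℝ)) :=
      Finset.sum_le_sum_of_subset_of_nonneg (Finset.filter_subset _ _)
        fun x _ _ => by positivity
    have h2 := window_mass (R := 2 * P1) hK1 hKN (by omega)
    have h3 : Real.log (4 * ((2 * P1 : ℕ) : ℝ)) ≤ Real.log K := by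
      refine Real.log_le_log ?_ ?_
      · have : (1 : ℝ) ≤ P1 := by exact_mod_cast hP1pos
        push_cast
        linarith
      · push_cast
        have : ((8 * P1 : ℕ) : ℝ) ≤ K := by exact_mod_cast hKP
        push_cast at this
        linarith
    linarith
  have hWsum : ∑ x ∈ W, (1 / (x : ℝ)) * f (x / p0) ≤ 5 * e / 64 * Tm := by
    have h1 : ∀ x ∈ W, (1 / (x : ℝ)) * f (x / p0) ≤
        e / 16 * (1 / (x : ℝ)) + r * ((1 / (x : ℝ)) * (QA x P (cc (dn a) (dn b)) / x)) := by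
      intro x hxm
      have hxi : (0 : ℝ) ≤ 1 / (x : ℝ) := by positivity
      have := mul_le_mul_of_nonneg_left (hx x hxm) hxi
      refine this.trans (le_of_eq ?_)
      ring
    refine (Finset.sum_le_sum h1).trans ?_
    rw [Finset.sum_add_distrib, ← Finset.mul_sum, ← Finset.mul_sum]
    have h2 := mul_le_mul_of_nonneg_left hQ hrpos.le
    have h3 : (r : ℝ) * (e / (64 * (r : ℝ)) * Tm) = e / 64 * Tm := by
      field_simp
    rw [hTm] at *
    linarith
  have hsmall : ∑ x ∈ (Ioc (N / K) B).filter (fun x => ¬ Xs ≤ x), (1 / (x : ℝ)) * f (x / p0) ≤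
      2 * Xs := by
    have h1 : ∀ x ∈ (Ioc (N / K) B).filter (fun x => ¬ Xs ≤ x),
        (1 / (x : ℝ)) * f (x / p0) ≤ 2 := by
      intro x hxm
      have hx1 : 1 ≤ x :=
        lt_of_le_of_lt (Nat.zero_le _) (Finset.mem_Ioc.1 (Finset.mem_filter.1 hxm).1).1
      have hxR : (1 : ℝ) ≤ x := by exact_mod_cast hx1
      have h2 : 1 / (x : ℝ) ≤ 1 := by
        rw [div_le_one (by linarith)]
        exact hxR
      have := mul_le_mul h2 (hf2 (x / p0)) (hf0 _) zero_le_one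
      linarith
    refine (Finset.sum_le_sum h1).trans ?_
    rw [Finset.sum_const, nsmul_eq_mul, mul_comm]
    refine mul_le_mul_of_nonneg_left ?_ (by norm_num)
    have h3 : ((Ioc (N / K) B).filter (fun x => ¬ Xs ≤ x)).card ≤ (range Xs).card := by
      refine Finset.card_le_card fun x hxm => ?_
      rw [Finset.mem_range]
      exact not_le.1 (Finset.mem_filter.1 hxm).2
    rw [Finset.card_range] at h3
    exact_mod_cast h3
  have hres := rescaleW f hf0 (R := 2 * P1) (A := N / K) (B := N) hp01 hp0R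
  have hsplit : ∑ x ∈ Ioc (N / K) (2 * P1 * (N + 1)), (1 / (x : ℝ)) * f (x / p0) =
      ∑ x ∈ W, (1 / (x : ℝ)) * f (x / p0) +
      ∑ x ∈ (Ioc (N / K) B).filter (fun x => ¬ Xs ≤ x), (1 / (x : ℝ)) * f (x / p0) :=
    (Finset.sum_filter_add_sum_filter_not _ _ _).symm
  rw [hsplit] at hres
  have hfin : ∑ M ∈ Ioc (N / K) N, (1 / (M : ℝ)) * f M ≤ ε * Real.log K := by
    have h9 : e * Real.log K ≤ ε * Real.log K := mul_le_mul_of_nonneg_right hee hL0
    have h10 : 5 * e / 64 * Tm ≤ 5 * e / 64 * (2 * Real.log K) :=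
      mul_le_mul_of_nonneg_left hmass (by positivity)
    nlinarith
  exact hfin

end MRU
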