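import Pool.Agent.Helper11.MRU.PDefs
import Pool.Agent.Helper13.MRF.Iface2

/-!
# MRG-10 Pstar: from `0/1` valued functions to functions with values in `[-1, 1]`

Given `ε`, let `K ≥ 16/ε` and, for `|a| ≤ 1`, `a' = -1 + (2/K) ∑_{j=1}^{K} 1_{a ≥ -1 + 2j/K}`;
then `|a - a'| ≤ 2/K` pointwise and `|a'| ≤ 1`.  The quantity
`T(a,b) = fz a b M - mX X a * mX X b` is bilinear in `(a, b)`; replacing `a` by `a'` and `b` by
`b'` costs at most `2 * 2 * (2/K) = 8/K ≤ ε/2` for every `M` (all means are bounded by the sup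
norm).  `T(a', b')` is a combination of `T(1_i, 1_j)` with `1_0 = 1` (coefficient `-1`) and the `K`
indicators (coefficient `2/K`), total absolute coefficient `(1 + 2)^2 = 9`.  Apply `PST01` with
`ε/36` (all `1_i` are `0/1` valued) and sum over `M ≤ X` with weights `1/M`
(`∑_{M≤X} 1/M ≤ 1 + log X`).
-/

set_option autoImplicit false

namespace MRU

open Finset MRP

/-- The layers: the constant `1` for `j = 0`, the indicator of `a ≥ -1 + 2j/K` otherwise. -/
private noncomputable def lay (K : ℕ) (a : ℕ → ℝ) (j : ℕ) (m : ℕ) : ℝ := by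
  classical
  exact if j = 0 then 1 else if -1 + 2 * (j : ℝ) / K ≤ a m then 1 else 0

private noncomputable def cof (K : ℕ) (j : ℕ) : ℝ := if j = 0 then -1 else 2 / K

private noncomputable def app (K : ℕ) (a : ℕ → ℝ) (m : ℕ) : ℝ :=
  ∑ j ∈ Finset.range (K + 1), cof K j * lay K a j m

private lemma lay01 (K : ℕ) (a : ℕ → ℝ) (j m : ℕ) : lay K a j m = 0 ∨ lay K a j m = 1 := by
  unfold lay
  split_ifs <;> simp

private lemma cof_sum (K : ℕ) (hK : 1 ≤ K) : ∑ j ∈ Finset.range (K + 1), |cof K j| = 3 := by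
  rw [Finset.sum_range_succ']
  have h1 : ∀ j ∈ Finset.range K, |cof K (j + 1)| = 2 / (K : ℝ) := by
    intro j _
    unfold cof
    rw [if_neg (by omega)]
    exact abs_of_nonneg (by positivity)
  rw [Finset.sum_congr rfl h1, Finset.sum_const, Finset.card_range, nsmul_eq_mul]
  have hK' : (K : ℝ) ≠ 0 := by
    have : (0 : ℝ) < K := by exact_mod_cast hK
    exact this.ne'
  have : |cof K 0| = 1 := by unfold cof; simp
  rw [this]
  field_simp
  norm_num

/-- The value of the approximation. -/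
private lemma app_eq (K : ℕ) (hK : 1 ≤ K) (a : ℕ → ℝ) (m : ℕ) (ha : |a m| ≤ 1) :
    app K a m = -1 + (2 / (K : ℝ)) * (⌊(K : ℝ) * (a m + 1) / 2⌋₊ : ℝ) := by
  have hKp : (0 : ℝ) < K := by exact_mod_cast hK
  obtain ⟨h1, h2⟩ := abs_le.mp ha
  unfold app
  rw [Finset.sum_range_succ']
  have h0 : cof K 0 * lay K a 0 m = -1 := by unfold cof lay; simp
  rw [h0]
  have hf : ∀ j ∈ Finset.range K, cof K (j + 1) * lay K a (j + 1) m =
      (2 / (K : ℝ)) * (if j < ⌊(K : ℝ) * (a m + 1) / 2⌋₊ then 1 else 0) := by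
    intro j _
    unfold cof lay
    rw [if_neg (by omega), if_neg (by omega)]
    congr 1
    have hiff : (-1 + 2 * ((j + 1 : ℕ) : ℝ) / K ≤ a m) ↔ j < ⌊(K : ℝ) * (a m + 1) / 2⌋₊ := by
      have hnn : 0 ≤ (K : ℝ) * (a m + 1) / 2 := by
        apply div_nonneg _ (by norm_num)
        apply mul_nonneg hKp.le
        linarith
      rw [← Nat.succ_le_iff, Nat.le_floor_iff hnn]
      · push_cast
        constructor
        · intro h
          have h3 : 2 * ((j : ℝ) + 1) / K ≤ a m + 1 := by linarith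
          rw [div_le_iff₀ hKp] at h3
          linarith
        · intro h
          have h3 : 2 * ((j : ℝ) + 1) / K ≤ a m + 1 := by
            rw [div_le_iff₀ hKp]
            linarith
          linarith
    by_cases hc : j < ⌊(K : ℝ) * (a m + 1) / 2⌋₊
    · rw [if_pos hc, if_pos (hiff.mpr hc)]
    · rw [if_neg hc, if_neg (fun h => hc (hiff.mp h))]
  rw [Finset.sum_congr rfl hf, ← Finset.mul_sum, Finset.sum_boole]
  have hle : ⌊(K : ℝ) * (a m + 1) / 2⌋₊ ≤ K := by
    have : (K : ℝ) * (a m + 1) / 2 ≤ K := by nlinarith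
    calc ⌊(K : ℝ) * (a m + 1) / 2⌋₊ ≤ ⌊(K : ℝ)⌋₊ := Nat.floor_le_floor this
      _ = K := Nat.floor_natCast K
  have hcard : ((Finset.range K).filter (fun j => j < ⌊(K : ℝ) * (a m + 1) / 2⌋₊)).card =
      ⌊(K : ℝ) * (a m + 1) / 2⌋₊ := by
    have : (Finset.range K).filter (fun j => j < ⌊(K : ℝ) * (a m + 1) / 2⌋₊) =
        Finset.range ⌊(K : ℝ) * (a m + 1) / 2⌋₊ := by
      ext j
      simp only [Finset.mem_filter, Finset.mem_range]
      omega
    rw [this, Finset.card_range]
  rw [hcard]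
  ring

private lemma app_close (K : ℕ) (hK : 1 ≤ K) (a : ℕ → ℝ) (m : ℕ) (ha : |a m| ≤ 1) :
    |a m - app K a m| ≤ 2 / K ∧ |app K a m| ≤ 1 := by
  have hKp : (0 : ℝ) < K := by exact_mod_cast hK
  obtain ⟨h1, h2⟩ := abs_le.mp ha
  rw [app_eq K hK a m ha]
  set t : ℝ := (K : ℝ) * (a m + 1) / 2 with ht
  have ht0 : 0 ≤ t := by rw [ht]; apply div_nonneg _ (by norm_num); apply mul_nonneg hKp.le; linarith
  have h3 : (⌊t⌋₊ : ℝ) ≤ t := Nat.floor_le ht0
  have h4 : t < (⌊t⌋₊ : ℝ) + 1 := Nat.lt_floor_add_one t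
  have h5 : a m = -1 + (2 / (K : ℝ)) * t := by
    rw [ht]; field_simp; ring
  have h6 : (0 : ℝ) < 2 / K := by positivity
  have h7 : (0 : ℝ) ≤ (⌊t⌋₊ : ℝ) := Nat.cast_nonneg _
  have h8 : (2 / (K : ℝ)) * (⌊t⌋₊ : ℝ) ≤ (2 / (K : ℝ)) * t :=
    mul_le_mul_of_nonneg_left h3 h6.le
  have h9 : (2 / (K : ℝ)) * t ≤ (2 / (K : ℝ)) * ((⌊t⌋₊ : ℝ) + 1) :=
    mul_le_mul_of_nonneg_left h4.le h6.le
  have h10 : (0 : ℝ) ≤ (2 / (K : ℝ)) * (⌊t⌋₊ : ℝ) := by positivity
  refine ⟨?_, ?_⟩
  · rw [abs_le]
    constructor <;> nlinarith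
  · rw [abs_le]
    constructor <;> linarith

private lemma LS_nonneg (X : ℕ) : 0 ≤ LS X := by
  unfold LS
  exact Finset.sum_nonneg (fun n _ => by positivity)

private lemma LS_pos (X : ℕ) (hX : 1 ≤ X) : 0 < LS X := by
  unfold LS
  apply Finset.sum_pos
  · intro n hn
    have : 0 < n := (Finset.mem_Icc.mp hn).1
    positivity
  · exact ⟨1, Finset.mem_Icc.mpr ⟨le_refl _, hX⟩⟩

private lemma mX_bound (X : ℕ) (f : ℕ → ℝ) (c : ℝ) (hc : 0 ≤ c) (hf : ∀ m, |f m| ≤ c) :
    |mX X f| ≤ c := by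
  unfold mX
  rw [abs_div, abs_of_nonneg (LS_nonneg X)]
  apply div_le_of_le_mul₀ (LS_nonneg X) hc
  calc |∑ n ∈ Finset.Icc 1 X, (1 / (n : ℝ)) * f (Om n)|
      ≤ ∑ n ∈ Finset.Icc 1 X, |(1 / (n : ℝ)) * f (Om n)| := Finset.abs_sum_le_sum_abs _ _
    _ ≤ ∑ n ∈ Finset.Icc 1 X, c * (1 / (n : ℝ)) := by
        apply Finset.sum_le_sum
        intro n _
        rw [abs_mul, abs_of_nonneg (by positivity : (0 : ℝ) ≤ 1 / (n : ℝ)), mul_comm]
        exact mul_le_mul_of_nonneg_right (hf _) (by positivity)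
    _ = c * LS X := by rw [← Finset.mul_sum]; rfl

private lemma mX_sub (X : ℕ) (f g : ℕ → ℝ) : mX X f - mX X g = mX X (fun m => f m - g m) := by
  unfold mX
  rw [← sub_div, ← Finset.sum_sub_distrib]
  congr 1
  apply Finset.sum_congr rfl
  intro n _
  ring

private lemma mX_app (X K : ℕ) (a : ℕ → ℝ) :
    mX X (app K a) = ∑ j ∈ Finset.range (K + 1), cof K j * mX X (lay K a j) := by
  unfold mX app
  have : ∑ n ∈ Finset.Icc 1 X, (1 / (n : ℝ)) *
      ∑ j ∈ Finset.range (K + 1), cof K j * lay K a j (Om n) =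
      ∑ j ∈ Finset.range (K + 1), cof K j *
        ∑ n ∈ Finset.Icc 1 X, (1 / (n : ℝ)) * lay K a j (Om n) := by
    simp_rw [Finset.mul_sum]
    rw [Finset.sum_comm]
    apply Finset.sum_congr rfl
    intro j _
    apply Finset.sum_congr rfl
    intro n _
    ring
  rw [this, Finset.sum_div]
  apply Finset.sum_congr rfl
  intro j _
  rw [mul_div_assoc]

private lemma fz_app (K : ℕ) (a b : ℕ → ℝ) (M : ℕ) :
    fz (app K a) (app K b) M = ∑ i ∈ Finset.range (K + 1), ∑ j ∈ Finset.range (K + 1),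
      cof K i * cof K j * fz (lay K a i) (lay K b j) M := by
  unfold fz app
  have h : ∀ i j : ℕ, cof K i * cof K j * ((1 / (M : ℝ)) *
      ∑ n ∈ Icc 1 M, lay K a i (Om n) * lay K b j (Om (n + 1))) =
      ∑ n ∈ Icc 1 M, (1 / (M : ℝ)) *
        ((cof K i * lay K a i (Om n)) * (cof K j * lay K b j (Om (n + 1)))) := by
    intro i j
    rw [Finset.mul_sum, Finset.mul_sum]
    apply Finset.sum_congr rfl
    intro n _
    ring
  simp_rw [h]
  have h2 : ∀ i : ℕ, ∑ j ∈ Finset.range (K + 1), ∑ n ∈ Icc 1 M, (1 / (M : ℝ)) *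
        ((cof K i * lay K a i (Om n)) * (cof K j * lay K b j (Om (n + 1)))) =
      ∑ n ∈ Icc 1 M, ∑ j ∈ Finset.range (K + 1), (1 / (M : ℝ)) *
        ((cof K i * lay K a i (Om n)) * (cof K j * lay K b j (Om (n + 1)))) := by
    intro i
    exact Finset.sum_comm
  simp_rw [h2]
  rw [Finset.sum_comm, Finset.mul_sum]
  apply Finset.sum_congr rfl
  intro n _
  rw [Finset.sum_mul_sum, Finset.mul_sum]
  apply Finset.sum_congr rfl
  intro i _
  rw [Finset.mul_sum]

private lemma fz_diff (a b a' b' : ℕ → ℝ) (c : ℝ) (hb : ∀ m, |b m| ≤ 1)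
    (ha' : ∀ m, |a' m| ≤ 1) (h1 : ∀ m, |a m - a' m| ≤ c) (h2 : ∀ m, |b m - b' m| ≤ c)
    (hc : 0 ≤ c) (M : ℕ) : |fz a b M - fz a' b' M| ≤ 2 * c := by
  unfold fz
  rw [← mul_sub, ← Finset.sum_sub_distrib, abs_mul,
    abs_of_nonneg (by positivity : (0 : ℝ) ≤ 1 / (M : ℝ))]
  have hs : |∑ n ∈ Icc 1 M, (a (Om n) * b (Om (n + 1)) - a' (Om n) * b' (Om (n + 1)))| ≤
      M * (2 * c) := by
    calc |∑ n ∈ Icc 1 M, (a (Om n) * b (Om (n + 1)) - a' (Om n) * b' (Om (n + 1)))|
        ≤ ∑ n ∈ Icc 1 M, |a (Om n) * b (Om (n + 1)) - a' (Om n) * b' (Om (n + 1))| :=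
          Finset.abs_sum_le_sum_abs _ _
      _ ≤ ∑ n ∈ Icc 1 M, (2 * c) := by
          apply Finset.sum_le_sum
          intro n _
          have e : a (Om n) * b (Om (n + 1)) - a' (Om n) * b' (Om (n + 1)) =
              (a (Om n) - a' (Om n)) * b (Om (n + 1)) +
                a' (Om n) * (b (Om (n + 1)) - b' (Om (n + 1))) := by ring
          rw [e]
          refine (abs_add_le _ _).trans ?_
          rw [abs_mul, abs_mul]
          have e1 : |a (Om n) - a' (Om n)| * |b (Om (n + 1))| ≤ c * 1 :=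
            mul_le_mul (h1 _) (hb _) (abs_nonneg _) hc
          have e2 : |a' (Om n)| * |b (Om (n + 1)) - b' (Om (n + 1))| ≤ 1 * c :=
            mul_le_mul (ha' _) (h2 _) (abs_nonneg _) (by norm_num)
          linarith
      _ = M * (2 * c) := by simp
  rcases Nat.eq_zero_or_pos M with h0 | h0
  · subst h0
    simp
    exact hc
  · have hM : (0 : ℝ) < M := by exact_mod_cast h0
    calc 1 / (M : ℝ) * |∑ n ∈ Icc 1 M, (a (Om n) * b (Om (n + 1)) - a' (Om n) * b' (Om (n + 1)))|
        ≤ 1 / (M : ℝ) * (M * (2 * c)) := mul_le_mul_of_nonneg_left hs (by positivity)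
      _ = 2 * c := by field_simp

theorem pstar_of (h : PST01) : PSTAR := by
  intro ε hε
  obtain ⟨X1, hX1⟩ := h (ε / 36) (by positivity)
  obtain ⟨K0, hK0⟩ := exists_nat_ge (16 / ε)
  set K : ℕ := max K0 1 with hKdef
  have hK1 : 1 ≤ K := le_max_right _ _
  have hKp : (0 : ℝ) < K := by exact_mod_cast hK1
  have hK16 : 16 / ε ≤ (K : ℝ) := hK0.trans (by exact_mod_cast le_max_left _ _)
  have h8 : 8 / (K : ℝ) ≤ ε / 2 := by
    rw [div_le_iff₀ hε] at hK16
    rw [div_le_iff₀ hKp]
    linarith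
  refine ⟨max X1 8, ?_⟩
  intro X hX a b ha hb
  have hXX1 : X1 ≤ X := (le_max_left _ _).trans hX
  have hX8 : 8 ≤ X := (le_max_right _ _).trans hX
  have hlog : 2 ≤ Real.log X := by
    have h1 : Real.log 8 ≤ Real.log X :=
      Real.log_le_log (by norm_num) (by exact_mod_cast hX8)
    have h2 : Real.log 8 = 3 * Real.log 2 := by
      rw [show (8 : ℝ) = 2 ^ 3 by norm_num, Real.log_pow]
      norm_num
    have := Real.log_two_gt_d9
    linarith
  -- pointwise in `M`
  have hpt : ∀ M : ℕ, |(1 / (M : ℝ)) * ∑ n ∈ Finset.Icc 1 M, a (Om n) * b (Om (n + 1)) -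
      mX X a * mX X b| ≤ 8 / K + ∑ i ∈ Finset.range (K + 1), ∑ j ∈ Finset.range (K + 1),
        |cof K i| * |cof K j| * |fz (lay K a i) (lay K b j) M -
          mX X (lay K a i) * mX X (lay K b j)| := by
    intro M
    have e1 := fz_diff a b (app K a) (app K b) (2 / K) hb
      (fun m => (app_close K hK1 a m (ha m)).2) (fun m => (app_close K hK1 a m (ha m)).1)
      (fun m => (app_close K hK1 b m (hb m)).1) (by positivity) M
    have e2 : |mX X a * mX X b - mX X (app K a) * mX X (app K b)| ≤ 4 / K := by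
      have e : mX X a * mX X b - mX X (app K a) * mX X (app K b) =
          (mX X a - mX X (app K a)) * mX X b + mX X (app K a) * (mX X b - mX X (app K b)) := by
        ring
      rw [e]
      refine (abs_add_le _ _).trans ?_
      rw [abs_mul, abs_mul, mX_sub, mX_sub]
      have f1 : |mX X (fun m => a m - app K a m)| ≤ 2 / K :=
        mX_bound X _ _ (by positivity) (fun m => (app_close K hK1 a m (ha m)).1)
      have f2 : |mX X (fun m => b m - app K b m)| ≤ 2 / K :=
        mX_bound X _ _ (by positivity) (fun m => (app_close K hK1 b m (hb m)).1)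
      have f3 : |mX X b| ≤ 1 := mX_bound X _ _ (by norm_num) hb
      have f4 : |mX X (app K a)| ≤ 1 :=
        mX_bound X _ _ (by norm_num) (fun m => (app_close K hK1 a m (ha m)).2)
      have g1 : |mX X (fun m => a m - app K a m)| * |mX X b| ≤ (2 / K) * 1 :=
        mul_le_mul f1 f3 (abs_nonneg _) (by positivity)
      have g2 : |mX X (app K a)| * |mX X (fun m => b m - app K b m)| ≤ 1 * (2 / K) :=
        mul_le_mul f4 f2 (abs_nonneg _) (by norm_num)
      have g3 : (4 : ℝ) / K = 2 / K + 2 / K := by ring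
      linarith
    have e3 : fz (app K a) (app K b) M - mX X (app K a) * mX X (app K b) =
        ∑ i ∈ Finset.range (K + 1), ∑ j ∈ Finset.range (K + 1),
          cof K i * cof K j * (fz (lay K a i) (lay K b j) M -
            mX X (lay K a i) * mX X (lay K b j)) := by
      rw [fz_app, mX_app, mX_app, Finset.sum_mul_sum, ← Finset.sum_sub_distrib]
      apply Finset.sum_congr rfl
      intro i _
      rw [← Finset.sum_sub_distrib]
      apply Finset.sum_congr rfl
      intro j _
      ring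
    have e4 : |fz (app K a) (app K b) M - mX X (app K a) * mX X (app K b)| ≤
        ∑ i ∈ Finset.range (K + 1), ∑ j ∈ Finset.range (K + 1),
        |cof K i| * |cof K j| * |fz (lay K a i) (lay K b j) M -
          mX X (lay K a i) * mX X (lay K b j)| := by
      rw [e3]
      refine (Finset.abs_sum_le_sum_abs _ _).trans (Finset.sum_le_sum ?_)
      intro i _
      refine (Finset.abs_sum_le_sum_abs _ _).trans (Finset.sum_le_sum ?_)
      intro j _
      rw [abs_mul, abs_mul]
    have e5 : (1 / (M : ℝ)) * ∑ n ∈ Finset.Icc 1 M, a (Om n) * b (Om (n + 1)) -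
        mX X a * mX X b = (fz a b M - fz (app K a) (app K b) M) -
          (mX X a * mX X b - mX X (app K a) * mX X (app K b)) +
          (fz (app K a) (app K b) M - mX X (app K a) * mX X (app K b)) := by
      unfold fz
      ring
    rw [e5]
    refine (abs_add_le _ _).trans ?_
    have e6 : |(fz a b M - fz (app K a) (app K b) M) -
          (mX X a * mX X b - mX X (app K a) * mX X (app K b))| ≤ 8 / K := by
      refine (abs_sub _ _).trans ?_
      have g3 : (8 : ℝ) / K = 2 * (2 / K) + 4 / K := by ring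
      linarith
    linarith
  have hsum1 : ∑ M ∈ Finset.Icc 1 X, (1 / (M : ℝ)) ≤ 1 + Real.log X := by
    have h1 := harmonic_le_one_add_log X
    have h2 : ((harmonic X : ℚ) : ℝ) = ∑ M ∈ Finset.Icc 1 X, (1 / (M : ℝ)) := by
      rw [harmonic_eq_sum_Icc]
      push_cast
      apply Finset.sum_congr rfl
      intro i _
      rw [one_div]
    rw [← h2]
    exact h1
  calc ∑ M ∈ Finset.Icc 1 X, (1 / (M : ℝ)) *
        |(1 / (M : ℝ)) * ∑ n ∈ Finset.Icc 1 M, a (Om n) * b (Om (n + 1)) - mX X a * mX X b|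
      ≤ ∑ M ∈ Finset.Icc 1 X, (1 / (M : ℝ)) * (8 / K + ∑ i ∈ Finset.range (K + 1),
        ∑ j ∈ Finset.range (K + 1), |cof K i| * |cof K j| * |fz (lay K a i) (lay K b j) M -
          mX X (lay K a i) * mX X (lay K b j)|) := by
        apply Finset.sum_le_sum
        intro M _
        exact mul_le_mul_of_nonneg_left (hpt M) (by positivity)
    _ = (∑ M ∈ Finset.Icc 1 X, (1 / (M : ℝ))) * (8 / K) + ∑ i ∈ Finset.range (K + 1),
        ∑ j ∈ Finset.range (K + 1), |cof K i| * |cof K j| * ∑ M ∈ Finset.Icc 1 X, (1 / (M : ℝ)) *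
          |fz (lay K a i) (lay K b j) M - mX X (lay K a i) * mX X (lay K b j)| := by
        simp_rw [mul_add, Finset.sum_add_distrib]
        congr 1
        · rw [Finset.sum_mul]
        · simp_rw [Finset.mul_sum]
          rw [Finset.sum_comm]
          apply Finset.sum_congr rfl
          intro i _
          rw [Finset.sum_comm]
          apply Finset.sum_congr rfl
          intro j _
          apply Finset.sum_congr rfl
          intro M _
          ring
    _ ≤ (1 + Real.log X) * (ε / 2) + ∑ i ∈ Finset.range (K + 1),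
        ∑ j ∈ Finset.range (K + 1), |cof K i| * |cof K j| * (ε / 36 * Real.log X) := by
        apply add_le_add
        · apply mul_le_mul hsum1 h8 (by positivity) (by linarith)
        · apply Finset.sum_le_sum
          intro i _
          apply Finset.sum_le_sum
          intro j _
          apply mul_le_mul_of_nonneg_left _ (by positivity)
          exact hX1 X hXX1 (lay K a i) (lay K b j) (fun m => lay01 K a i m)
            (fun m => lay01 K b j m)
    _ = (1 + Real.log X) * (ε / 2) + 9 * (ε / 36 * Real.log X) := by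
        congr 1
        have : ∑ i ∈ Finset.range (K + 1), ∑ j ∈ Finset.range (K + 1),
            |cof K i| * |cof K j| * (ε / 36 * Real.log X) =
            ((∑ i ∈ Finset.range (K + 1), |cof K i|) * ∑ j ∈ Finset.range (K + 1), |cof K j|) *
              (ε / 36 * Real.log X) := by
          rw [Finset.sum_mul_sum, Finset.sum_mul]
          apply Finset.sum_congr rfl
          intro i _
          rw [Finset.sum_mul]
        rw [this, cof_sum K hK1]
        norm_num
    _ ≤ ε * Real.log X := by nlinarith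

end MRU
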