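import Pool.Agent.Helper11.MRU.Pst01W

/-!
# MRU PstarW: product functions in every window, functions with values in `[-1, 1]`
-/

set_option autoImplicit false

namespace MRU

open Finset MRP

/-- The indicators of the superlevel sets (and the constant `1` for `j = 0`). -/
noncomputable def stp (a : ℕ → ℝ) (K j : ℕ) : ℕ → ℝ :=
  fun m => if j = 0 then 1 else if -1 + 2 * (j : ℝ) / K ≤ a m then 1 else 0

/-- The coefficients of the step function. -/
noncomputable def cf (K j : ℕ) : ℝ := if j = 0 then -1 else 2 / (K : ℝ)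

theorem stp_01 (a : ℕ → ℝ) (K j m : ℕ) : stp a K j m = 0 ∨ stp a K j m = 1 := by
  unfold stp
  split_ifs <;> simp

theorem cf_sum {K : ℕ} (hK : 1 ≤ K) : ∑ j ∈ range (K + 1), |cf K j| = 3 := by
  have hKR : (0 : ℝ) < K := by exact_mod_cast hK
  rw [Finset.sum_range_succ']
  have h1 : ∀ j ∈ range K, |cf K (j + 1)| = 2 / (K : ℝ) := by
    intro j _
    unfold cf
    rw [if_neg (by omega), abs_of_pos (by positivity)]
  rw [Finset.sum_congr rfl h1, Finset.sum_const, card_range, nsmul_eq_mul]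
  unfold cf
  rw [if_pos rfl]
  field_simp
  norm_num

theorem stp_approx (a : ℕ → ℝ) (ha : ∀ m, |a m| ≤ 1) {K : ℕ} (hK : 1 ≤ K) (m : ℕ) :
    |a m - ∑ j ∈ range (K + 1), cf K j * stp a K j m| ≤ 2 / (K : ℝ) := by
  have hKR : (0 : ℝ) < K := by exact_mod_cast hK
  have ham := abs_le.1 (ha m)
  set y : ℝ := K * (a m + 1) / 2 with hy
  have hy0 : 0 ≤ y := by
    have : 0 ≤ a m + 1 := by linarith
    positivity
  have hyK : y ≤ K := by
    rw [hy, div_le_iff₀ (by norm_num)]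
    nlinarith
  rw [Finset.sum_range_succ']
  have h0 : cf K 0 * stp a K 0 m = -1 := by
    unfold cf stp
    simp
  have h1 : ∀ j ∈ range K, cf K (j + 1) * stp a K (j + 1) m =
      2 / (K : ℝ) * (if j + 1 ≤ ⌊y⌋₊ then 1 else 0) := by
    intro j _
    unfold cf stp
    rw [if_neg (by omega), if_neg (by omega)]
    congr 1
    have hiff : (-1 + 2 * ((j + 1 : ℕ) : ℝ) / K ≤ a m) ↔ (j + 1 ≤ ⌊y⌋₊) := by
      rw [Nat.le_floor_iff hy0, hy]
      constructor
      · intro h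
        have h2 : 2 * ((j + 1 : ℕ) : ℝ) / K ≤ a m + 1 := by linarith
        rw [div_le_iff₀ hKR] at h2
        rw [le_div_iff₀ (by norm_num)]
        linarith
      · intro h
        rw [le_div_iff₀ (by norm_num)] at h
        have h2 : 2 * ((j + 1 : ℕ) : ℝ) / K ≤ a m + 1 := by
          rw [div_le_iff₀ hKR]
          linarith
        linarith
    simp only [hiff]
  rw [Finset.sum_congr rfl h1, ← Finset.mul_sum, h0]
  have h2 : ∑ j ∈ range K, (if j + 1 ≤ ⌊y⌋₊ then (1 : ℝ) else 0) = (⌊y⌋₊ : ℝ) := by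
    rw [← Finset.sum_filter, Finset.sum_const, nsmul_eq_mul, mul_one]
    have hfl : ⌊y⌋₊ ≤ K := by
      have h3 : (⌊y⌋₊ : ℝ) ≤ K := (Nat.floor_le hy0).trans hyK
      exact_mod_cast h3
    have h4 : (range K).filter (fun j => j + 1 ≤ ⌊y⌋₊) = range ⌊y⌋₊ := by
      ext j
      simp only [Finset.mem_filter, Finset.mem_range]
      omega
    rw [h4, card_range]
  rw [h2]
  have h5 : a m - (2 / (K : ℝ) * (⌊y⌋₊ : ℝ) + -1) = 2 / (K : ℝ) * (y - ⌊y⌋₊) := by
    rw [hy]
    field_simp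
    ring
  rw [h5, abs_mul, abs_of_pos (by positivity : (0 : ℝ) < 2 / (K : ℝ))]
  have h6 : |y - (⌊y⌋₊ : ℝ)| ≤ 1 := by
    have h7 := Nat.floor_le hy0
    have h8 := Nat.lt_floor_add_one y
    rw [abs_le]
    constructor <;> linarith
  calc 2 / (K : ℝ) * |y - (⌊y⌋₊ : ℝ)| ≤ 2 / (K : ℝ) * 1 :=
        mul_le_mul_of_nonneg_left h6 (by positivity)
    _ = 2 / (K : ℝ) := mul_one _

/-- The defect of independence. -/
noncomputable def TT (M : ℕ) (a b : ℕ → ℝ) : ℝ :=
  (∑ n ∈ Icc 1 M, a (Om n) * b (Om (n + 1))) / (M : ℝ) - mx M a * mx M b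

theorem mx_le (M : ℕ) (a : ℕ → ℝ) {A : ℝ} (hA : 0 ≤ A) (ha : ∀ m, |a m| ≤ A) : |mx M a| ≤ A := by
  unfold mx
  rw [abs_div, abs_of_nonneg (Nat.cast_nonneg M : (0 : ℝ) ≤ M)]
  refine div_le_of_le_mul₀ (Nat.cast_nonneg M) hA ?_
  refine (Finset.abs_sum_le_sum_abs _ _).trans ?_
  refine (Finset.sum_le_sum fun n _ => ha (Om n)).trans (le_of_eq ?_)
  rw [Finset.sum_const, Nat.card_Icc, Nat.add_sub_cancel, nsmul_eq_mul]
  ring

theorem TT_le (M : ℕ) (a b : ℕ → ℝ) {A B : ℝ} (hA : 0 ≤ A) (hB : 0 ≤ B) (ha : ∀ m, |a m| ≤ A)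
    (hb : ∀ m, |b m| ≤ B) : |TT M a b| ≤ 2 * (A * B) := by
  unfold TT
  have h1 : |(∑ n ∈ Icc 1 M, a (Om n) * b (Om (n + 1))) / (M : ℝ)| ≤ A * B := by
    rw [abs_div, abs_of_nonneg (Nat.cast_nonneg M : (0 : ℝ) ≤ M)]
    refine div_le_of_le_mul₀ (Nat.cast_nonneg M) (mul_nonneg hA hB) ?_
    refine (Finset.abs_sum_le_sum_abs _ _).trans ?_
    have h2 : ∀ n ∈ Icc 1 M, |a (Om n) * b (Om (n + 1))| ≤ A * B := by
      intro n _
      rw [abs_mul]
      exact mul_le_mul (ha _) (hb _) (abs_nonneg _) hA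
    refine (Finset.sum_le_sum h2).trans (le_of_eq ?_)
    rw [Finset.sum_const, Nat.card_Icc, Nat.add_sub_cancel, nsmul_eq_mul]
    ring
  have h2 : |mx M a * mx M b| ≤ A * B := by
    rw [abs_mul]
    exact mul_le_mul (mx_le M a hA ha) (mx_le M b hB hb) (abs_nonneg _) hA
  refine (abs_sub _ _).trans ?_
  linarith

theorem mx_sum (M : ℕ) (s : Finset ℕ) (c : ℕ → ℝ) (u : ℕ → ℕ → ℝ) :
    mx M (fun m => ∑ j ∈ s, c j * u j m) = ∑ j ∈ s, c j * mx M (u j) := by
  unfold mx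
  rw [Finset.sum_comm, Finset.sum_div]
  refine Finset.sum_congr rfl fun j _ => ?_
  rw [← Finset.mul_sum, mul_div_assoc]

theorem TT_sum (M : ℕ) (s : Finset ℕ) (c d : ℕ → ℝ) (u v : ℕ → ℕ → ℝ) :
    TT M (fun m => ∑ i ∈ s, c i * u i m) (fun m => ∑ j ∈ s, d j * v j m) =
      ∑ i ∈ s, ∑ j ∈ s, c i * d j * TT M (u i) (v j) := by
  unfold TT
  rw [mx_sum, mx_sum, Finset.sum_mul_sum]
  have h1 : (∑ n ∈ Icc 1 M, (∑ i ∈ s, c i * u i (Om n)) * ∑ j ∈ s, d j * v j (Om (n + 1))) /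
      (M : ℝ) = ∑ i ∈ s, ∑ j ∈ s, c i * d j *
        ((∑ n ∈ Icc 1 M, u i (Om n) * v j (Om (n + 1))) / (M : ℝ)) := by
    have h2 : ∑ n ∈ Icc 1 M, (∑ i ∈ s, c i * u i (Om n)) * ∑ j ∈ s, d j * v j (Om (n + 1)) =
        ∑ i ∈ s, ∑ j ∈ s, c i * d j * ∑ n ∈ Icc 1 M, u i (Om n) * v j (Om (n + 1)) := by
      have h3 : ∀ n ∈ Icc 1 M, (∑ i ∈ s, c i * u i (Om n)) * ∑ j ∈ s, d j * v j (Om (n + 1)) =
          ∑ i ∈ s, ∑ j ∈ s, (c i * u i (Om n)) * (d j * v j (Om (n + 1))) :=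
        fun n _ => Finset.sum_mul_sum _ _ _ _
      rw [Finset.sum_congr rfl h3, Finset.sum_comm]
      refine Finset.sum_congr rfl fun i _ => ?_
      rw [Finset.sum_comm]
      refine Finset.sum_congr rfl fun j _ => ?_
      rw [Finset.mul_sum]
      refine Finset.sum_congr rfl fun n _ => ?_
      ring
    rw [h2, Finset.sum_div]
    refine Finset.sum_congr rfl fun i _ => ?_
    rw [Finset.sum_div]
    refine Finset.sum_congr rfl fun j _ => ?_
    rw [mul_div_assoc]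
  rw [h1, ← Finset.sum_sub_distrib]
  refine Finset.sum_congr rfl fun i _ => ?_
  rw [← Finset.sum_sub_distrib]
  refine Finset.sum_congr rfl fun j _ => ?_
  ring

theorem TT_sub_left (M : ℕ) (a a' b : ℕ → ℝ) :
    TT M a b - TT M a' b = TT M (fun m => a m - a' m) b := by
  unfold TT mx
  simp only [sub_mul, Finset.sum_sub_distrib]
  ring

theorem TT_sub_right (M : ℕ) (a b b' : ℕ → ℝ) :
    TT M a b - TT M a b' = TT M a (fun m => b m - b' m) := by
  unfold TT mx
  simp only [mul_sub, Finset.sum_sub_distrib]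
  ring

theorem pstarw_of (h : PST01w) : PSTARw := by
  classical
  intro ε hε
  obtain ⟨K0, hK01, hK0⟩ := h (ε / 18) (by positivity)
  set K' : ℕ := ⌈64 / ε⌉₊ with hK'
  have hK'R : 64 / ε ≤ (K' : ℝ) := Nat.le_ceil _
  have hK'pos : (0 : ℝ) < K' := lt_of_lt_of_le (by positivity) hK'R
  have hK'1 : 1 ≤ K' := by
    have : 0 < K' := by exact_mod_cast hK'pos
    exact this
  have h16 : 16 / (K' : ℝ) ≤ ε / 4 := by
    rw [div_le_iff₀ hε] at hK'R
    rw [div_le_iff₀ hK'pos]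
    linarith
  refine ⟨max K0 2, 0, fun N K _ hK hKN a b ha hb => ?_⟩
  have hKK0 : K0 ≤ K := le_trans (le_max_left _ _) hK
  have hK2 : 2 ≤ K := le_trans (le_max_right _ _) hK
  have hK1 : 1 ≤ K := by omega
  have hKR : (2 : ℝ) ≤ K := by exact_mod_cast hK2
  have hlogK : 0 < Real.log K := Real.log_pos (by linarith)
  set a' : ℕ → ℝ := fun m => ∑ j ∈ range (K' + 1), cf K' j * stp a K' j m with ha'
  set b' : ℕ → ℝ := fun m => ∑ j ∈ range (K' + 1), cf K' j * stp b K' j m with hb'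
  have hda : ∀ m, |a m - a' m| ≤ 2 / (K' : ℝ) := fun m => stp_approx a ha hK'1 m
  have hdb : ∀ m, |b m - b' m| ≤ 2 / (K' : ℝ) := fun m => stp_approx b hb hK'1 m
  have h2K : 2 / (K' : ℝ) ≤ 2 := by
    rw [div_le_iff₀ hK'pos]
    have : (1 : ℝ) ≤ K' := by exact_mod_cast hK'1
    linarith
  have ha3 : ∀ m, |a' m| ≤ 3 := by
    intro m
    have h1 : a' m = a m - (a m - a' m) := by ring
    rw [h1]
    refine (abs_sub _ _).trans ?_
    linarith [ha m, hda m]
  have hpt : ∀ M, |TT M a b| ≤ 16 / (K' : ℝ) +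
      ∑ i ∈ range (K' + 1), ∑ j ∈ range (K' + 1), |cf K' i| * |cf K' j| *
        |TT M (stp a K' i) (stp b K' j)| := by
    intro M
    have h1 : TT M a b = TT M (fun m => a m - a' m) b + TT M a' (fun m => b m - b' m) +
        TT M a' b' := by
      rw [← TT_sub_left, ← TT_sub_right]
      ring
    have h2 := TT_le M (fun m => a m - a' m) b (A := 2 / (K' : ℝ)) (B := 1) (by positivity)
      zero_le_one hda hb
    have h3 := TT_le M a' (fun m => b m - b' m) (A := 3) (B := 2 / (K' : ℝ)) (by norm_num)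
      (by positivity) ha3 hdb
    have h4 : |TT M a' b'| ≤ ∑ i ∈ range (K' + 1), ∑ j ∈ range (K' + 1), |cf K' i| * |cf K' j| *
        |TT M (stp a K' i) (stp b K' j)| := by
      rw [ha', hb', TT_sum]
      refine (Finset.abs_sum_le_sum_abs _ _).trans (Finset.sum_le_sum fun i _ => ?_)
      refine (Finset.abs_sum_le_sum_abs _ _).trans (Finset.sum_le_sum fun j _ => ?_)
      rw [abs_mul, abs_mul]
    have h5 : 2 * (2 / (K' : ℝ) * 1) + 2 * (3 * (2 / (K' : ℝ))) = 16 / (K' : ℝ) := by ring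
    rw [h1]
    refine (abs_add_le _ _).trans ?_
    have h6 := abs_add_le (TT M (fun m => a m - a' m) b) (TT M a' (fun m => b m - b' m))
    linarith
  -- the mass of the window
  have hA : 1 ≤ N / K := Nat.div_pos hKN (by omega)
  have hmass : ∑ M ∈ Ioc (N / K) N, (1 / (M : ℝ)) ≤ 2 * Real.log K := by
    refine (sum_Ioc_inv hA (Nat.div_le_self _ _)).trans ?_
    have hAR : (1 : ℝ) ≤ ((N / K : ℕ) : ℝ) := by exact_mod_cast hA
    have hN1 : 1 ≤ N := hK1.trans hKN
    have hNR : (1 : ℝ) ≤ N := by exact_mod_cast hN1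
    have h1 : (N : ℝ) < ((N / K : ℕ) : ℝ) * K + K := by
      have h3 := Nat.lt_div_mul_add (a := N) (b := K) (by omega)
      exact_mod_cast h3
    have h2 : (N : ℝ) / ((N / K : ℕ) : ℝ) ≤ 2 * K := by
      rw [div_le_iff₀ (by linarith)]
      nlinarith
    have h3 : Real.log ((N : ℝ) / ((N / K : ℕ) : ℝ)) ≤ Real.log (2 * K) :=
      Real.log_le_log (by positivity) h2
    rw [Real.log_mul (by norm_num) (by positivity)] at h3
    have h4 : Real.log 2 ≤ Real.log K := Real.log_le_log (by norm_num) hKR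
    linarith
  have hsum : ∑ M ∈ Ioc (N / K) N, (1 / (M : ℝ)) * |TT M a b| ≤
      16 / (K' : ℝ) * ∑ M ∈ Ioc (N / K) N, (1 / (M : ℝ)) +
      ∑ i ∈ range (K' + 1), ∑ j ∈ range (K' + 1), |cf K' i| * |cf K' j| *
        ∑ M ∈ Ioc (N / K) N, (1 / (M : ℝ)) * |TT M (stp a K' i) (stp b K' j)| := by
    have h1 : ∀ M ∈ Ioc (N / K) N, (1 / (M : ℝ)) * |TT M a b| ≤
        16 / (K' : ℝ) * (1 / (M : ℝ)) +
        ∑ i ∈ range (K' + 1), ∑ j ∈ range (K' + 1), |cf K' i| * |cf K' j| *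
          ((1 / (M : ℝ)) * |TT M (stp a K' i) (stp b K' j)|) := by
      intro M _
      have h2 := mul_le_mul_of_nonneg_left (hpt M) (by positivity : (0 : ℝ) ≤ 1 / (M : ℝ))
      refine h2.trans (le_of_eq ?_)
      rw [mul_add, Finset.mul_sum]
      congr 1
      · ring
      · refine Finset.sum_congr rfl fun i _ => ?_
        rw [Finset.mul_sum]
        exact Finset.sum_congr rfl fun j _ => by ring
    refine (Finset.sum_le_sum h1).trans (le_of_eq ?_)
    rw [Finset.sum_add_distrib, ← Finset.mul_sum]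
    congr 1
    rw [Finset.sum_comm]
    refine Finset.sum_congr rfl fun i _ => ?_
    rw [Finset.sum_comm]
    refine Finset.sum_congr rfl fun j _ => ?_
    rw [Finset.mul_sum]
  have h01 : ∀ i j, ∑ M ∈ Ioc (N / K) N, (1 / (M : ℝ)) * |TT M (stp a K' i) (stp b K' j)| ≤
      ε / 18 * Real.log K := by
    intro i j
    have h1 := hK0 N K hKK0 hKN (stp a K' i) (stp b K' j) (stp_01 a K' i) (stp_01 b K' j)
    have h2 : ∀ M, TT M (stp a K' i) (stp b K' j) =
        fz (stp a K' i) (stp b K' j) M - mx M (stp a K' i) * mx M (stp b K' j) := by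
      intro M
      unfold TT fz
      ring
    simp only [h2]
    exact h1
  have hd : ∑ i ∈ range (K' + 1), ∑ j ∈ range (K' + 1), |cf K' i| * |cf K' j| *
        ∑ M ∈ Ioc (N / K) N, (1 / (M : ℝ)) * |TT M (stp a K' i) (stp b K' j)| ≤
        9 * (ε / 18 * Real.log K) := by
    have h1 : ∀ i ∈ range (K' + 1), ∑ j ∈ range (K' + 1), |cf K' i| * |cf K' j| *
        ∑ M ∈ Ioc (N / K) N, (1 / (M : ℝ)) * |TT M (stp a K' i) (stp b K' j)| ≤
        |cf K' i| * (3 * (ε / 18 * Real.log K)) := by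
      intro i _
      have h2 : ∀ j ∈ range (K' + 1), |cf K' i| * |cf K' j| *
          ∑ M ∈ Ioc (N / K) N, (1 / (M : ℝ)) * |TT M (stp a K' i) (stp b K' j)| ≤
          |cf K' i| * |cf K' j| * (ε / 18 * Real.log K) := by
        intro j _
        exact mul_le_mul_of_nonneg_left (h01 i j) (by positivity)
      refine (Finset.sum_le_sum h2).trans (le_of_eq ?_)
      rw [← Finset.sum_mul, ← Finset.mul_sum, cf_sum hK'1]
      ring
    refine (Finset.sum_le_sum h1).trans (le_of_eq ?_)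
    rw [← Finset.sum_mul, cf_sum hK'1]
    ring
  have hfin : ∑ M ∈ Ioc (N / K) N, (1 / (M : ℝ)) * |TT M a b| ≤ ε * Real.log K := by
    have h1 : 16 / (K' : ℝ) * ∑ M ∈ Ioc (N / K) N, (1 / (M : ℝ)) ≤ ε / 4 * (2 * Real.log K) :=
      mul_le_mul h16 hmass (Finset.sum_nonneg fun M _ => by positivity) (by positivity)
    linarith
  exact hfin

/-- Product functions in every window, from the circle step and the law of `Ω`. -/
theorem pstarw_holds (hC : CIRCx) (hl : LAW1x) : PSTARw := pstarw_of (pst01w hC hl)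

end MRU
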