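import Pool.Agent.Helper11.MRU.Bad

/-!
# MRU ScaleAvg: a common good scale `P` for almost all `x ≤ X`
-/

set_option autoImplicit false

namespace MRU

open Finset MRP
open MRA (word res bo g1 g2 fp MP seqP cheb seqP_ge seqP_div seqP_mono LS_pos LS_ge LS_le)

theorem bo_prod (c : ℕ → Bool × Bool) (n p : ℕ) :
    |bo (c n).1 * bo (c (n + p)).2| ≤ 1 := by
  rw [abs_mul]
  have h : ∀ b : Bool, |bo b| ≤ 1 := fun b => MRA.mq_bo b
  have := mul_le_mul (h (c n).1) (h (c (n + p)).2) (abs_nonneg _) zero_le_one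
  linarith

theorem QA_term (x p : ℕ) (c : ℕ → Bool × Bool) :
    |∑ n ∈ Icc 1 x, (((if p ∣ n then (p : ℝ) else 0) - 1) * (bo (c n).1 * bo (c (n + p)).2))| ≤
      2 * x := by
  have h1 : ∑ n ∈ Icc 1 x, (if p ∣ n then (p : ℝ) else 0) ≤ x := by
    rw [← Finset.sum_filter, Finset.sum_const, nsmul_eq_mul]
    have h2 : ((Icc 1 x).filter (fun n => p ∣ n)).card = x / p := by
      have := Nat.Ioc_filter_dvd_card_eq_div x p
      rw [← this]
      rfl
    rw [h2]
    have h3 : x / p * p ≤ x := Nat.div_mul_le_self x p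
    exact_mod_cast h3
  calc |∑ n ∈ Icc 1 x, (((if p ∣ n then (p : ℝ) else 0) - 1) *
        (bo (c n).1 * bo (c (n + p)).2))|
      ≤ ∑ n ∈ Icc 1 x, |((if p ∣ n then (p : ℝ) else 0) - 1) *
        (bo (c n).1 * bo (c (n + p)).2)| := Finset.abs_sum_le_sum_abs _ _
    _ ≤ ∑ n ∈ Icc 1 x, ((if p ∣ n then (p : ℝ) else 0) + 1) := by
        refine Finset.sum_le_sum fun n _ => ?_
        rw [abs_mul]
        have h4 : |(if p ∣ n then (p : ℝ) else 0) - 1| ≤ (if p ∣ n then (p : ℝ) else 0) + 1 := by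
          have h5 : (0 : ℝ) ≤ (if p ∣ n then (p : ℝ) else 0) := by
            split_ifs
            · exact Nat.cast_nonneg p
            · exact le_rfl
          rw [abs_le]
          constructor <;> linarith
        have h6 := mul_le_mul h4 (bo_prod c n p) (abs_nonneg _)
          ((abs_nonneg _).trans h4)
        linarith
    _ ≤ 2 * x := by
        rw [Finset.sum_add_distrib]
        simp only [Finset.sum_const, Nat.card_Icc, Nat.add_sub_cancel, nsmul_eq_mul, mul_one]
        linarith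

theorem QA_nonneg (x P : ℕ) (c : ℕ → Bool × Bool) : 0 ≤ QA x P c := by
  unfold QA
  exact mul_nonneg (by positivity) (Finset.sum_nonneg fun p _ => abs_nonneg _)

theorem QA_le (x P : ℕ) (c : ℕ → Bool × Bool) : QA x P c ≤ 2 * x := by
  unfold QA
  have h1 : ∑ p ∈ dyP P, |∑ n ∈ Icc 1 x, (((if p ∣ n then (p : ℝ) else 0) - 1) *
      (bo (c n).1 * bo (c (n + p)).2))| ≤ ((dyP P).card : ℝ) * (2 * x) := by
    refine (Finset.sum_le_sum fun p _ => QA_term x p c).trans (le_of_eq ?_)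
    rw [Finset.sum_const, nsmul_eq_mul]
  by_cases h0 : ((dyP P).card : ℝ) = 0
  · rw [h0]; simp
  · have hpos : (0 : ℝ) < ((dyP P).card : ℝ) :=
      lt_of_le_of_ne (Nat.cast_nonneg _) (Ne.symm h0)
    rw [one_div, inv_mul_le_iff₀ hpos]
    exact h1

theorem scaleEnt (ε : ℝ) (hε : 0 < ε) (P0 : ℕ) : ∃ P1 X0 : ℕ, ∀ X : ℕ, X0 ≤ X →
    ∀ c : ℕ → Bool × Bool, ∃ P : ℕ, P0 ≤ P ∧ P ≤ P1 ∧
      ∑ x ∈ Icc 1 X, (1 / (x : ℝ)) * (QA x P c / x) ≤ ε * Real.log X := by
  classical
  obtain ⟨K, C, hK0, hC0, Pstar, hP3, hbad⟩ := bad (ε / 4) (by positivity)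
  set Q0 : ℕ := max P0 Pstar with hQ0
  have hQ03 : 3 ≤ Q0 := hP3.trans (le_max_right _ _)
  obtain ⟨I, hI⟩ := seqP_div K hK0 Q0 hQ03 (8 * C / ε + 1)
  obtain ⟨x0, hx0⟩ := hbad Q0 (le_max_right _ _) I
  set Q : ℕ → ℕ := seqP K Q0 with hQ
  set S : ℝ := ∑ i ∈ range I, 1 / Real.log (Q i) with hS
  have hL : ∀ i, 0 < Real.log (Q i) := by
    intro i
    apply Real.log_pos
    have : 3 ≤ Q i := hQ03.trans (seqP_ge K Q0 i)
    have h2 : (3 : ℝ) ≤ (Q i : ℝ) := by exact_mod_cast this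
    linarith
  have hS1 : 8 * C / ε + 1 ≤ S := hI
  have hSpos : 0 < S := by
    have : 0 < 8 * C / ε + 1 := by positivity
    linarith
  have hSC : 8 * C ≤ ε * S := by
    have h1 : 8 * C / ε ≤ S := by linarith
    rw [div_le_iff₀ hε] at h1
    linarith
  refine ⟨Q I, max 2 ⌈Real.exp ((ε + 2 * x0) * 4 / ε)⌉₊, fun X hX c => ?_⟩
  have hX2 : 2 ≤ X := le_trans (le_max_left _ _) hX
  have hX1 : 1 ≤ X := by omega
  have hXpos : (0 : ℝ) < X := by exact_mod_cast hX1
  have hlogX : (ε + 2 * x0) * 4 / ε ≤ Real.log X := by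
    rw [Real.le_log_iff_exp_le hXpos]
    refine (Nat.le_ceil _).trans ?_
    exact_mod_cast le_trans (le_max_right _ _) hX
  have hlogX' : (ε + 2 * x0) * 4 ≤ ε * Real.log X := by
    rw [div_le_iff₀ hε] at hlogX
    linarith
  -- the bound for each `x`
  set B : ℕ → ℕ → ℝ := fun x i => if ε / 4 * x < QA x (Q i) c then 1 / Real.log (Q i) else 0
    with hB
  have hx : ∀ x, 1 ≤ x → ∑ i ∈ range I, (1 / Real.log (Q i)) * (QA x (Q i) c / x) ≤
      ε / 4 * S + 2 * ∑ i ∈ range I, B x i := by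
    intro x hx1
    have hxpos : (0 : ℝ) < x := by exact_mod_cast hx1
    rw [hS, Finset.mul_sum, Finset.mul_sum, ← Finset.sum_add_distrib]
    refine Finset.sum_le_sum fun i _ => ?_
    have hw : 0 < 1 / Real.log (Q i) := by have := hL i; positivity
    by_cases hb : ε / 4 * x < QA x (Q i) c
    · have h1 : B x i = 1 / Real.log (Q i) := by simp only [hB]; rw [if_pos hb]
      rw [h1]
      have h2 : QA x (Q i) c / x ≤ 2 := by
        rw [div_le_iff₀ hxpos]
        exact QA_le x (Q i) c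
      have h3 : (1 / Real.log (Q i)) * (QA x (Q i) c / x) ≤ (1 / Real.log (Q i)) * 2 :=
        mul_le_mul_of_nonneg_left h2 hw.le
      have h4 : 0 ≤ ε / 4 * (1 / Real.log (Q i)) := by positivity
      linarith
    · have h1 : B x i = 0 := by simp only [hB]; rw [if_neg hb]
      rw [h1]
      have h2 : QA x (Q i) c / x ≤ ε / 4 := by
        rw [div_le_iff₀ hxpos]
        exact not_lt.1 hb
      have h3 : (1 / Real.log (Q i)) * (QA x (Q i) c / x) ≤ (1 / Real.log (Q i)) * (ε / 4) :=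
        mul_le_mul_of_nonneg_left h2 hw.le
      linarith
  have hBle : ∀ x, ∑ i ∈ range I, B x i ≤ S := by
    intro x
    rw [hS]
    refine Finset.sum_le_sum fun i _ => ?_
    have hw : 0 < 1 / Real.log (Q i) := by have := hL i; positivity
    simp only [hB]
    split_ifs
    · exact le_rfl
    · exact hw.le
  have hBge : ∀ x, x0 ≤ x → ∑ i ∈ range I, B x i ≤ C := fun x hxx => hx0 x hxx c
  have hBnn : ∀ x, 0 ≤ ∑ i ∈ range I, B x i := by
    intro x
    refine Finset.sum_nonneg fun i _ => ?_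
    have hw : 0 < 1 / Real.log (Q i) := by have := hL i; positivity
    simp only [hB]
    split_ifs
    · exact hw.le
    · exact le_rfl
  -- sum over `x`
  have hsumB : ∑ x ∈ Icc 1 X, (1 / (x : ℝ)) * (∑ i ∈ range I, B x i) ≤ C * LS X + S * x0 := by
    have h1 : ∀ x ∈ Icc 1 X, (1 / (x : ℝ)) * (∑ i ∈ range I, B x i) ≤
        C * (1 / (x : ℝ)) + (if x < x0 then S else 0) := by
      intro x hxm
      have hx1 := (Finset.mem_Icc.1 hxm).1
      have hxR : (1 : ℝ) ≤ x := by exact_mod_cast hx1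
      have hxi : 0 ≤ 1 / (x : ℝ) := by positivity
      have hxi1 : 1 / (x : ℝ) ≤ 1 := by
        rw [div_le_one (by linarith)]
        exact hxR
      by_cases h : x < x0
      · rw [if_pos h]
        have h2 : (1 / (x : ℝ)) * (∑ i ∈ range I, B x i) ≤ 1 * S :=
          mul_le_mul hxi1 (hBle x) (hBnn x) zero_le_one
        have h3 : 0 ≤ C * (1 / (x : ℝ)) := by positivity
        linarith
      · rw [if_neg h]
        have h2 : (1 / (x : ℝ)) * (∑ i ∈ range I, B x i) ≤ (1 / (x : ℝ)) * C :=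
          mul_le_mul_of_nonneg_left (hBge x (not_lt.1 h)) hxi
        linarith
    refine (Finset.sum_le_sum h1).trans ?_
    rw [Finset.sum_add_distrib, ← Finset.mul_sum]
    have h2 : ∑ x ∈ Icc 1 X, (if x < x0 then S else 0) ≤ S * x0 := by
      rw [← Finset.sum_filter, Finset.sum_const, nsmul_eq_mul, mul_comm]
      refine mul_le_mul_of_nonneg_left ?_ hSpos.le
      have h3 : ((Icc 1 X).filter (fun x => x < x0)).card ≤ (range x0).card := by
        refine Finset.card_le_card fun x hxm => ?_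
        rw [Finset.mem_range]
        exact (Finset.mem_filter.1 hxm).2
      rw [Finset.card_range] at h3
      exact_mod_cast h3
    unfold LS
    linarith
  have htot : ∑ i ∈ range I, (1 / Real.log (Q i)) *
      (∑ x ∈ Icc 1 X, (1 / (x : ℝ)) * (QA x (Q i) c / x)) ≤
      ε / 4 * S * LS X + 2 * (C * LS X + S * x0) := by
    have h1 : ∑ i ∈ range I, (1 / Real.log (Q i)) *
        (∑ x ∈ Icc 1 X, (1 / (x : ℝ)) * (QA x (Q i) c / x)) =
        ∑ x ∈ Icc 1 X, (1 / (x : ℝ)) *
          ∑ i ∈ range I, (1 / Real.log (Q i)) * (QA x (Q i) c / x) := by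
      simp only [Finset.mul_sum]
      rw [Finset.sum_comm]
      refine Finset.sum_congr rfl fun x _ => Finset.sum_congr rfl fun i _ => ?_
      ring
    rw [h1]
    have h2 : ∀ x ∈ Icc 1 X, (1 / (x : ℝ)) *
        ∑ i ∈ range I, (1 / Real.log (Q i)) * (QA x (Q i) c / x) ≤
        ε / 4 * S * (1 / (x : ℝ)) + 2 * ((1 / (x : ℝ)) * ∑ i ∈ range I, B x i) := by
      intro x hxm
      have hx1 := (Finset.mem_Icc.1 hxm).1
      have hxi : 0 ≤ 1 / (x : ℝ) := by positivity
      have := mul_le_mul_of_nonneg_left (hx x hx1) hxi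
      linarith
    refine (Finset.sum_le_sum h2).trans ?_
    rw [Finset.sum_add_distrib, ← Finset.mul_sum, ← Finset.mul_sum]
    have h3 : ε / 4 * S * ∑ x ∈ Icc 1 X, (1 / (x : ℝ)) = ε / 4 * S * LS X := rfl
    rw [h3]
    linarith
  have hLSle := LS_le hX1
  have hLSpos := LS_pos hX1
  by_contra hcon
  push Not at hcon
  have hall : ∀ i ∈ range I, (1 / Real.log (Q i)) * (ε * Real.log X) ≤
      (1 / Real.log (Q i)) * (∑ x ∈ Icc 1 X, (1 / (x : ℝ)) * (QA x (Q i) c / x)) := by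
    intro i hi
    have hw : 0 < 1 / Real.log (Q i) := by have := hL i; positivity
    refine mul_le_mul_of_nonneg_left (hcon (Q i) ?_ ?_).le hw.le
    · exact le_trans (le_max_left _ _) (seqP_ge K Q0 i)
    · exact seqP_mono K Q0 (Finset.mem_range.1 hi).le
  have hlow := Finset.sum_le_sum hall
  rw [← Finset.sum_mul] at hlow
  have hlow' : S * (ε * Real.log X) ≤ ε / 4 * S * LS X + 2 * (C * LS X + S * x0) :=
    hlow.trans htot
  have h5 : 2 * (C * LS X) ≤ ε / 4 * S * LS X := by nlinarith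
  have h6 : S * (ε * Real.log X) ≤ S * (ε / 2 * (1 + Real.log X) + 2 * x0) := by nlinarith
  have h7 : ε * Real.log X ≤ ε / 2 * (1 + Real.log X) + 2 * x0 := le_of_mul_le_mul_left h6 hSpos
  nlinarith

end MRU
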