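import Pool.Agent.Helper11.MRU.Basic

/-!
# MRU Shift: approximate shift invariance of the uniform weights
-/

set_option autoImplicit false

namespace MRU

open Finset MRP

private lemma shift_one (G : ℕ → ℝ) (B : ℝ) (hG : ∀ n, |G n| ≤ B) (X : ℕ) :
    |(∑ n ∈ Icc 1 X, (1 : ℝ) * G (n + 1)) - ∑ n ∈ Icc 1 X, (1 : ℝ) * G n| ≤
      2 * B := by
  have e : ∀ X : ℕ, (∑ n ∈ Icc 1 X, (1 : ℝ) * G (n + 1)) - (∑ n ∈ Icc 1 X, (1 : ℝ) * G n) =
      G (X + 1) - G 1 := by
    intro X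
    induction X with
    | zero => simp
    | succ X ih =>
      rw [Finset.sum_Icc_succ_top (by omega), Finset.sum_Icc_succ_top (by omega)]
      linarith
  rw [e]
  have h1 := hG (X + 1)
  have h2 := hG 1
  rw [abs_le] at h1 h2 ⊢
  constructor <;> linarith [h1.1, h1.2, h2.1, h2.2]

theorem shift_abs (G : ℕ → ℝ) (B : ℝ) (hG : ∀ n, |G n| ≤ B) (i X : ℕ) :
    |(∑ n ∈ Icc 1 X, (1 : ℝ) * G (n + i)) - ∑ n ∈ Icc 1 X, (1 : ℝ) * G n| ≤
      2 * B * i := by
  induction i with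
  | zero => simp
  | succ i ih =>
    have h := shift_one (fun n => G (n + i)) B (fun n => hG _) X
    have e : ∀ n, G (n + 1 + i) = G (n + (i + 1)) := fun n => by
      congr 1
      omega
    simp only [e] at h
    have h2 : (∑ n ∈ Icc 1 X, (1 : ℝ) * G (n + (i + 1))) -
        ∑ n ∈ Icc 1 X, (1 : ℝ) * G n =
        ((∑ n ∈ Icc 1 X, (1 : ℝ) * G (n + (i + 1))) -
          ∑ n ∈ Icc 1 X, (1 : ℝ) * G (n + i)) +
        ((∑ n ∈ Icc 1 X, (1 : ℝ) * G (n + i)) - ∑ n ∈ Icc 1 X, (1 : ℝ) * G n) := by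
      ring
    rw [h2]
    refine (abs_add_le _ _).trans ?_
    push_cast
    linarith

theorem law_shift {α : Type} [DecidableEq α] (f : ℕ → α) (a : α) (i X : ℕ) :
    |law X (fun n => f (n + i)) a - law X f a| ≤ 2 * i / US X := by
  have hL : 0 ≤ US X := US_nonneg X
  have h := shift_abs (fun n => if f n = a then (1 : ℝ) else 0) 1
    (fun n => by split_ifs <;> simp) i X
  unfold law
  rw [← sub_div, abs_div, abs_of_nonneg hL]
  refine div_le_div_of_nonneg_right ?_ hL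
  simp only [mul_ite, mul_one, mul_zero] at h
  rw [Finset.sum_filter, Finset.sum_filter]
  exact h

end MRU
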