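import Pool.Agent.Helper11.MRU.PDefs

/-!
# MRG-04 SignT: absolute values over all scales as one logarithmic average

`s x = 1` or `-1` is the sign of `∑_{n≤x} g n Y n`.  Then
`∑_{x≤X} (1/x) |(1/x) ∑_{n≤x} g n Y n| = ∑_{x≤X} (s x / x^2) ∑_{n≤x} g n Y n
  = ∑_{n≤X} g n Y n ∑_{x=n}^{X} s x / x^2`.
Put `A n = g n * n * (∑_{x ∈ Icc n X} s x / x^2) / 2` for `1 ≤ n` (and `A 0 = 0`);
`n ∑_{x ≥ n} 1/x^2 ≤ n (1/n^2 + 1/n) = 1 + 1/n ≤ 2` (`∑_{x=n}^{X} 1/x^2 ≤ 1/n^2 + 1/n - 1/X` by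
telescoping `1/x^2 ≤ 1/(x-1) - 1/x`), so `|A n| ≤ 1`, and the sum is
`2 ∑_{n≤X} (1/n) (A n * Y n)`.
-/

set_option autoImplicit false

namespace MRU

open Finset MRP

private theorem signT_tail (n X : ℕ) (hn : 1 ≤ n) :
    ∑ x ∈ Icc n X, (1 / (x : ℝ) ^ 2) ≤ 2 / (n : ℝ) := by
  have h := sum_Ioo_inv_sq_le (α := ℝ) (n - 1) (X + 1)
  have h1 : Ioo (n - 1) (X + 1) = Icc n X := by
    ext x
    rw [mem_Ioo, mem_Icc]
    omega
  rw [h1] at h
  have h2 : (((n - 1 : ℕ) : ℝ) + 1) = n := by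
    have : ((n - 1 : ℕ) : ℝ) = (n : ℝ) - 1 := by
      rw [Nat.cast_sub hn, Nat.cast_one]
    rw [this]
    ring
  rw [h2] at h
  refine le_trans (le_of_eq ?_) h
  exact Finset.sum_congr rfl fun x _ => by rw [one_div]

theorem signT (X : ℕ) (g Y : ℕ → ℝ) (hg : ∀ n, |g n| ≤ 1) :
    ∃ A : ℕ → ℝ, (∀ n, |A n| ≤ 1) ∧
      ∑ x ∈ Icc 1 X, (1 / (x : ℝ)) * |(1 / (x : ℝ)) * ∑ n ∈ Icc 1 x, g n * Y n| ≤
        2 * ∑ n ∈ Icc 1 X, (1 / (n : ℝ)) * (A n * Y n) := by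
  classical
  set s : ℕ → ℝ := fun x => if 0 ≤ ∑ n ∈ Icc 1 x, g n * Y n then 1 else -1 with hs
  have hs1 : ∀ x, |s x| = 1 := by
    intro x
    simp only [hs]
    split_ifs <;> simp
  have hs2 : ∀ x, |∑ n ∈ Icc 1 x, g n * Y n| = s x * ∑ n ∈ Icc 1 x, g n * Y n := by
    intro x
    simp only [hs]
    split_ifs with h
    · rw [abs_of_nonneg h, one_mul]
    · rw [abs_of_neg (not_le.1 h)]
      ring
  refine ⟨fun n => g n * n * (∑ x ∈ Icc n X, s x / (x : ℝ) ^ 2) / 2, fun n => ?_, le_of_eq ?_⟩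
  · rcases Nat.eq_zero_or_pos n with rfl | hn
    · simp
    · have hn0 : (0 : ℝ) < n := by exact_mod_cast hn
      have h1 : |∑ x ∈ Icc n X, s x / (x : ℝ) ^ 2| ≤ 2 / (n : ℝ) := by
        refine (Finset.abs_sum_le_sum_abs _ _).trans (le_trans (le_of_eq ?_)
          (signT_tail n X hn))
        refine Finset.sum_congr rfl fun x _ => ?_
        rw [abs_div, hs1, abs_of_nonneg (sq_nonneg (x : ℝ))]
      rw [abs_div, abs_mul, abs_mul, abs_of_pos hn0, abs_of_pos (by norm_num : (0 : ℝ) < 2)]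
      rw [div_le_one (by norm_num : (0 : ℝ) < 2)]
      calc |g n| * (n : ℝ) * |∑ x ∈ Icc n X, s x / (x : ℝ) ^ 2| ≤ 1 * (n : ℝ) * (2 / n) := by
            gcongr
            exact hg n
        _ = 2 := by field_simp
  · have h1 : ∀ x ∈ Icc 1 X, (1 / (x : ℝ)) * |(1 / (x : ℝ)) * ∑ n ∈ Icc 1 x, g n * Y n| =
        ∑ n ∈ Icc 1 x, (s x / (x : ℝ) ^ 2) * (g n * Y n) := by
      intro x _
      rw [abs_mul, abs_of_nonneg (show (0 : ℝ) ≤ 1 / (x : ℝ) by positivity), hs2,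
        ← Finset.mul_sum]
      ring
    rw [Finset.sum_congr rfl h1, Finset.sum_comm' (t' := Icc 1 X) (s' := fun n => Icc n X)
      (by
        intro x n
        simp only [mem_Icc]
        omega), Finset.mul_sum]
    refine Finset.sum_congr rfl fun n hn => ?_
    have hn0 : (n : ℝ) ≠ 0 := by
      have : 1 ≤ n := (mem_Icc.1 hn).1
      positivity
    rw [← Finset.sum_mul]
    field_simp

end MRU
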